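import Pool.Agent.V11172.PT.Theta

set_option autoImplicit false

/-!
# Functions that are algebraic over `F_2(D)`
-/

namespace Pool.Agent.V11172.PT

open PowerSeries Pool.Agent.TH693.PP Pool.Agent.TH693.QQ Pool.Agent.H397R2.PP Pool.Agent.Y627.PT
open Pool.Agent.H397R2.PP.TH (ind coeff_ind expand_ind isOdd Db_ind)

theorem aev_inj : Function.Injective (Polynomial.aeval Db : F →ₐ[ZMod 2] S) := by
  rw [injective_iff_map_eq_zero]
  intro p hp
  by_contra hne
  apply QC.qc
  refine ⟨p.map Polynomial.C, (Polynomial.map_ne_zero_iff Polynomial.C_injective).2 hne, ?_⟩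
  rw [← hp]
  have h : ((evp Db).comp (Polynomial.mapRingHom Polynomial.C) : F →+* S) =
      (Polynomial.aeval Db : F →ₐ[ZMod 2] S).toRingHom := by
    apply Polynomial.ringHom_ext
    · intro a
      simp [evp, io]
    · simp [evp]
  exact RingHom.congr_fun h p

theorem cl_of_algD {g : S} {G : Polynomial F} (hG : G ≠ 0)
    (hG2 : G.eval₂ ((Polynomial.aeval Db : F →ₐ[ZMod 2] S) : F →+* S) g = 0) :
    T5.jj g ∈ QE2.cl (ZMod 2) {T5.jj Db} := by
  rw [QE2.mem_cl]
  have hmem : ∀ p : F, T5.jj (Polynomial.aeval Db p) ∈ Algebra.adjoin (ZMod 2) {T5.jj Db} := by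
    intro p
    induction p using Polynomial.induction_on with
    | C a =>
      rw [Polynomial.aeval_C, T5.jj.commutes]
      exact Subalgebra.algebraMap_mem _ a
    | add p q hp hq => rw [map_add, map_add]; exact add_mem hp hq
    | monomial n a _ =>
      rw [map_mul, map_pow, Polynomial.aeval_C, Polynomial.aeval_X, map_mul, map_pow,
        T5.jj.commutes]
      exact Subalgebra.mul_mem _ (Subalgebra.algebraMap_mem _ a)
        (Subalgebra.pow_mem _ (Algebra.subset_adjoin (Set.mem_singleton _)) _)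
  let ψ : F →+* Algebra.adjoin (ZMod 2) {T5.jj Db} :=
    ((T5.jj : S →+* Lk).comp ((Polynomial.aeval Db : F →ₐ[ZMod 2] S) : F →+* S)).codRestrict
      (Algebra.adjoin (ZMod 2) {T5.jj Db}) hmem
  have hψ : Function.Injective ψ := by
    intro a b hab
    exact aev_inj (T5.jj_inj (congrArg Subtype.val hab))
  refine ⟨G.map ψ, (Polynomial.map_ne_zero_iff hψ).2 hG, ?_⟩
  rw [Polynomial.aeval_def, Polynomial.eval₂_map]
  have h1 := congrArg T5.jj hG2
  rw [map_zero] at h1
  rw [← h1]
  exact (Polynomial.hom_eval₂ G ((Polynomial.aeval Db : F →ₐ[ZMod 2] S) : F →+* S)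
    (T5.jj : S →+* Lk) g).symm

end Pool.Agent.V11172.PT
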