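import Pool.Agent.V11172.PT.AlgD
import Pool.Agent.Y627.PT.Lin0

set_option autoImplicit false

/-!
# All multipartition functions and functions that are algebraic over `F_2(D)`
-/

namespace Pool.Agent.V11172.PT

open PowerSeries Pool.Agent.TH693.PP Pool.Agent.TH693.QQ Pool.Agent.H397R2.PP Pool.Agent.Y627.PT

theorem io_mono_coeff (M : ℕ) (x : ZMod 2) (f : S) (N : ℕ) :
    coeff N (io (Polynomial.monomial M x) * f) = if M ≤ N then x * coeff (N - M) f else 0 := by
  have h4 : io (Polynomial.monomial M x) = algebraMap (ZMod 2) S x * X ^ M := by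
    rw [← Polynomial.C_mul_X_pow_eq_monomial, map_mul, map_pow, QE2.io_C, QE2.io_X]
  rw [h4, mul_assoc, ← Algebra.smul_def, map_smul, smul_eq_mul, PowerSeries.coeff_X_pow_mul']
  split_ifs
  · rfl
  · rw [mul_zero]

theorem alx_mono {g : S} {s : ℕ} (h : AZ (T5.jj g) (-(s : ℤ))) : ALX (X ^ s * g) (23 * s) := by
  apply alx_of_az
  have h1 := az_mul (az_x s) h
  rw [map_mul, map_pow]
  have e : (24 * (s : ℤ) + -(s : ℤ)) = ((23 * s : ℕ) : ℤ) := by push_cast; ring
  rw [e] at h1
  exact h1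

theorem mem_of_neg {g : S} {s : ℕ} (h : AZ (T5.jj g) (-(s : ℤ))) :
    T5.jj g ∈ QE2.cl (ZMod 2) {T5.jj X, T5.jj Db} := by
  have h1 := mem_of_alx (alx_mono h)
  rw [map_mul, map_pow] at h1
  have h2 : T5.jj g = (xx ^ s)⁻¹ * (xx ^ s * T5.jj g) := by
    rw [inv_mul_cancel_left₀ (pow_ne_zero _ xx_ne)]
  rw [h2]
  exact QE2.mul_mem' (QE2.inv_mem' (QE2.pow_mem' (QE2.self_mem (by simp)) s)) h1

theorem allT (T : Finset ℕ) (hT : 0 ∉ T) {J : Type} [Fintype J] (h : J → S) (s : J → ℕ)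
    (hh : ∀ j, AZ (T5.jj (h j)) (-(s j : ℤ))) :
    ∃ C : ℕ, ∀ (L : ℕ) (c : ℕ → Fin (L + 1) → ZMod 2) (b : J → Fin (L + 1) → ZMod 2),
      (∃ t ∈ T, c t ≠ 0) → ∀ (κ : ZMod 2) (A : ℕ), ∃ n, A ≤ n ∧ n ≤ C * (A + L + 1) ∧
        ∑ t ∈ T, ∑ i : Fin (L + 1), c t i * coeff (n + i) (P ^ t) +
          ∑ j, ∑ i : Fin (L + 1), b j i * coeff (n + i) (h j) = κ := by
  classical
  set f0 : {t // t ∈ T} ⊕ J → S := Sum.elim (fun t => P ^ (t : ℕ)) h with hf0
  have hAO : ∀ j, AlgOver Db (f0 j) := by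
    rintro (t | j)
    · exact algOver_P_pow t
    · exact T5.algOver_of_mem (mem_of_neg (hh j))
  obtain ⟨C, hC1, hC⟩ := run_rel f0 (lf Pool.Agent.Y38.PT6.clo mtDb f0 hAO)
  refine ⟨C, fun L c b hc κ A => ?_⟩
  by_contra hcon
  push Not at hcon
  set c' : {t // t ∈ T} ⊕ J → Fin (L + 1) → ZMod 2 := Sum.elim (fun t => c t) b with hc'
  obtain ⟨q0, -, hrel0⟩ := hC L c' (κ + 1) A (fun n h1 h2 => by
    have h3 := (by decide : ∀ x y : ZMod 2, x ≠ y → x = y + 1) _ _ (hcon n h1 h2)
    rw [← h3, Fintype.sum_sum_type]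
    congr 1
    exact (Finset.sum_coe_sort T (fun t => ∑ i : Fin (L + 1), c t i * coeff (n + i) (P ^ t))))
  -- multiply by a power of `X`
  set σ : ℕ := ∑ j, s j with hσ
  have hsσ : ∀ j, s j ≤ σ := fun j => Finset.single_le_sum (f := s) (fun _ _ => Nat.zero_le _)
    (Finset.mem_univ j)
  set f : {t // t ∈ T} ⊕ J → S := Sum.elim (fun t => P ^ (t : ℕ)) (fun j => X ^ s j * h j) with hf
  set w : {t // t ∈ T} ⊕ J → F := Sum.elim
    (fun t => Polynomial.X ^ σ * (U * pol (c t)))
    (fun j => Polynomial.X ^ (σ - s j) * (U * pol (b j))) with hw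
  have hrel : ∑ j, io (w j) * f j + io (Polynomial.X ^ σ * q0) = 0 := by
    have h1 : ∑ j, io (w j) * f j + io (Polynomial.X ^ σ * q0) =
        X ^ σ * (∑ j, io (U * pol (c' j)) * f0 j + io q0) := by
      rw [mul_add, Finset.mul_sum, map_mul io (Polynomial.X ^ σ) q0, map_pow, QE2.io_X]
      congr 1
      refine Finset.sum_congr rfl fun j _ => ?_
      rcases j with t | j
      · simp only [hw, hf, hf0, hc', Sum.elim_inl]
        rw [map_mul io (Polynomial.X ^ σ), map_pow, QE2.io_X, mul_assoc]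
      · simp only [hw, hf, hf0, hc', Sum.elim_inr]
        rw [map_mul io (Polynomial.X ^ (σ - s j)), map_pow, QE2.io_X]
        have h2 : (X : S) ^ σ = X ^ (σ - s j) * X ^ s j := by
          rw [← pow_add, Nat.sub_add_cancel (hsσ j)]
        rw [h2]
        ring
    rw [h1, hrel0, mul_zero]
  set e : {t // t ∈ T} ⊕ J → ℕ := Sum.elim (fun t => (t : ℕ)) (fun j => 23 * s j) with he
  have hALX : ∀ j, ALX (f j) (e j) := by
    rintro (t | j)
    · apply alx_of_az
      have h1 := az_pow (az_of_alx alx_P) (t : ℕ)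
      rw [← map_pow, Nat.cast_one, mul_one] at h1
      exact h1
    · exact alx_mono (hh j)
  have hsp := lin0 QC.qc _ f e hALX w (Polynomial.X ^ σ * q0) hrel
  obtain ⟨t0, ht0, hct⟩ := hc
  apply mul_ne_zero U_ne (pol_ne hct)
  ext m
  rw [Polynomial.coeff_zero]
  by_contra hm
  set E0 := 24 * (m + σ) + t0 with hE
  have hspE := hsp E0
  set W : ℕ → F := fun t => Polynomial.X ^ σ * (U * pol (c t)) with hW
  set a : ℕ → ZMod 2 := fun t => if t ≤ E0 ∧ 24 ∣ E0 - t then
    (W t).coeff ((E0 - t) / 24) else 0 with ha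
  have ha0 : a t0 ≠ 0 := by
    rw [ha]
    simp only
    rw [if_pos ⟨by omega, by rw [hE, Nat.add_sub_cancel]; exact Dvd.intro _ rfl⟩, hE,
      Nat.add_sub_cancel, Nat.mul_div_cancel_left _ (by norm_num), hW]
    simp only
    rw [Polynomial.coeff_X_pow_mul]
    exact hm
  obtain ⟨t1, ht1, hmax⟩ := Finset.exists_max_image (T.filter fun t => a t ≠ 0) id
    ⟨t0, Finset.mem_filter.2 ⟨ht0, ha0⟩⟩
  rw [Finset.mem_filter] at ht1
  have hcond : t1 ≤ E0 ∧ 24 ∣ E0 - t1 := by
    by_contra h1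
    exact ht1.2 (if_neg h1)
  have ht1pos : 0 < t1 := Nat.pos_of_ne_zero fun h1 => hT (h1 ▸ ht1.1)
  set N := (E0 - t1) / 24 with hN
  have hco := congrArg (coeff N) hspE
  rw [map_add, map_sum, Fintype.sum_sum_type] at hco
  have e1 : ∀ t : {t // t ∈ T}, coeff N (if e (Sum.inl t) ≤ E0 ∧ 24 ∣ E0 - e (Sum.inl t) then
      io (Polynomial.monomial ((E0 - e (Sum.inl t)) / 24)
        ((w (Sum.inl t)).coeff ((E0 - e (Sum.inl t)) / 24))) * f (Sum.inl t) else 0) =
      if (t : ℕ) = t1 then a t1 else 0 := by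
    intro t
    simp only [he, hf, hw, Sum.elim_inl]
    by_cases h1 : (t : ℕ) ≤ E0 ∧ 24 ∣ E0 - (t : ℕ)
    · rw [if_pos h1, io_mono_coeff]
      by_cases h2 : (t : ℕ) = t1
      · rw [if_pos h2, h2, if_pos le_rfl, Nat.sub_self, ha]
        simp only
        rw [if_pos hcond]
        have h3 : coeff 0 (P ^ t1) = 1 := by
          rw [PowerSeries.coeff_zero_eq_constantCoeff_apply, map_pow]
          have := constP
          rw [this, one_pow]
        rw [h3, mul_one]
      · rw [if_neg h2]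
        by_cases h4 : a t = 0
        · rw [ha] at h4
          simp only at h4
          rw [if_pos h1] at h4
          have h5 : (Polynomial.X ^ σ * (U * pol (c t))).coeff ((E0 - (t : ℕ)) / 24) = 0 := h4
          rw [h5, zero_mul, ite_self]
        · rw [if_neg]
          have h5 := hmax t (Finset.mem_filter.2 ⟨t.2, h4⟩)
          simp only [id] at h5
          have h6 : (t : ℕ) < t1 := lt_of_le_of_ne h5 h2
          omega
    · rw [if_neg h1, map_zero, if_neg]
      intro h2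
      rw [h2] at h1
      exact h1 hcond
  have e2 : ∀ j : J, coeff N (if e (Sum.inr j) ≤ E0 ∧ 24 ∣ E0 - e (Sum.inr j) then
      io (Polynomial.monomial ((E0 - e (Sum.inr j)) / 24)
        ((w (Sum.inr j)).coeff ((E0 - e (Sum.inr j)) / 24))) * f (Sum.inr j) else 0) =
      0 := by
    intro j
    simp only [he, hf, hw, Sum.elim_inr]
    by_cases h1 : 23 * s j ≤ E0 ∧ 24 ∣ E0 - 23 * s j
    · rw [if_pos h1, io_mono_coeff]
      split_ifs with h2
      · rw [PowerSeries.coeff_X_pow_mul', if_neg, mul_zero]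
        have h3 := h1.2
        have h4 := hcond.2
        have h5 := hcond.1
        have h6 := h1.1
        obtain ⟨x, hx⟩ := h3
        obtain ⟨y, hy⟩ := h4
        rw [hN, hx, hy, Nat.mul_div_cancel_left _ (by norm_num),
          Nat.mul_div_cancel_left _ (by norm_num)]
        omega
      · rfl
    · rw [if_neg h1, map_zero]
  have e3 : coeff N (if 24 ∣ E0 then io (Polynomial.monomial (E0 / 24)
      ((Polynomial.X ^ σ * q0).coeff (E0 / 24))) else 0 : S) = 0 := by
    split_ifs with h1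
    · have := io_mono_coeff (E0 / 24) ((Polynomial.X ^ σ * q0).coeff (E0 / 24)) 1 N
      rw [mul_one] at this
      rw [this, if_neg]
      have h3 := hcond.2
      have h4 := hcond.1
      omega
    · rw [map_zero]
  rw [Finset.sum_congr rfl fun t _ => e1 t, Finset.sum_congr rfl fun j _ => e2 j, e3,
    Finset.sum_const_zero, add_zero, add_zero, map_zero,
    Finset.sum_eq_single (⟨t1, ht1.1⟩ : {t // t ∈ T}), if_pos rfl] at hco
  · exact ht1.2 hco
  · intro t _ hne
    rw [if_neg]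
    intro h1
    exact hne (Subtype.ext h1)
  · intro h1
    exact absurd (Finset.mem_univ _) h1

end Pool.Agent.V11172.PT
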