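import Mathlib

set_option autoImplicit false

/-!
# Almost all integers have many odd primes as exact divisors (Turán)
-/

namespace Pool.Agent.V11172.PT

open Finset

theorem exists_primes (M : ℝ) (y : ℕ) : ∃ P : Finset ℕ, (∀ p ∈ P, p.Prime ∧ y < p) ∧
    M ≤ ∑ p ∈ P, (1 : ℝ) / p := by
  by_contra hcon
  push Not at hcon
  apply not_summable_one_div_on_primes
  apply summable_of_sum_le (c := M + ∑ n ∈ range (y + 1), (1 : ℝ) / n)
  · intro n
    simp only [Set.indicator]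
    split_ifs
    · positivity
    · exact le_rfl
  · intro u
    classical
    have h1 : ∑ n ∈ u, Set.indicator {p : ℕ | p.Prime} (fun n : ℕ => (1 : ℝ) / n) n ≤
        ∑ n ∈ u.filter (fun n => n.Prime ∧ y < n), (1 : ℝ) / n +
          ∑ n ∈ range (y + 1), (1 : ℝ) / n := by
      rw [Finset.sum_filter]
      have h2 : ∑ n ∈ u, (if n < y + 1 then (1 : ℝ) / n else 0) ≤
          ∑ n ∈ range (y + 1), (1 : ℝ) / n := by
        rw [← Finset.sum_filter]
        apply Finset.sum_le_sum_of_subset_of_nonneg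
        · intro n hn
          rw [Finset.mem_filter] at hn
          rw [Finset.mem_range]
          exact hn.2
        · intro n _ _
          positivity
      refine le_trans ?_ (add_le_add_right h2 _)
      rw [← Finset.sum_add_distrib]
      apply Finset.sum_le_sum
      intro n _
      simp only [Set.indicator, Set.mem_ofPred_eq]
      have hpos : (0 : ℝ) ≤ 1 / n := by positivity
      by_cases hn : n.Prime
      · by_cases hy : y < n
        · simp [hn, hy, show ¬ n < y + 1 by omega]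
        · simp [hn, hy, show n < y + 1 by omega]
      · simp only [hn, if_false, false_and]
        split_ifs <;> linarith
    have h3 := hcon (u.filter (fun n => n.Prime ∧ y < n)) (by
      intro p hp
      rw [Finset.mem_filter] at hp
      exact hp.2)
    linarith

theorem turan (P : Finset ℕ) (hP : ∀ p ∈ P, p.Prime) (Y : ℕ) :
    ∑ N ∈ Ioc 0 Y, (((P.filter fun p => p ∣ N).card : ℝ) - ∑ p ∈ P, (1 : ℝ) / p) ^ 2 ≤
      Y * (∑ p ∈ P, (1 : ℝ) / p) + 2 * (∑ p ∈ P, (1 : ℝ) / p) * P.card := by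
  classical
  set μ : ℝ := ∑ p ∈ P, (1 : ℝ) / p with hμ
  have hμ0 : 0 ≤ μ := Finset.sum_nonneg fun p _ => by positivity
  have hcard : ∀ N : ℕ, ((P.filter fun p => p ∣ N).card : ℝ) = ∑ p ∈ P, if p ∣ N then (1 : ℝ) else 0 := by
    intro N
    rw [Finset.card_filter]
    push_cast
    rfl
  have hcnt : ∀ d : ℕ, ∑ N ∈ Ioc 0 Y, (if d ∣ N then (1 : ℝ) else 0) = ((Y / d : ℕ) : ℝ) := by
    intro d
    rw [← Nat.Ioc_filter_dvd_card_eq_div Y d, Finset.card_filter]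
    push_cast
    rfl
  have h1 : ∑ N ∈ Ioc 0 Y, ((P.filter fun p => p ∣ N).card : ℝ) ≥ Y * μ - P.card := by
    simp only [hcard]
    rw [Finset.sum_comm]
    simp only [hcnt]
    have h2 : ∀ p ∈ P, (Y : ℝ) * (1 / p) - 1 ≤ ((Y / p : ℕ) : ℝ) := by
      intro p hp
      have hp0 : (0 : ℝ) < p := by exact_mod_cast (hP p hp).pos
      have h3 := Nat.lt_div_mul_add (a := Y) (hP p hp).pos
      have h4 : (Y : ℝ) < ((Y / p : ℕ) : ℝ) * p + p := by exact_mod_cast h3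
      rw [mul_one_div, sub_le_iff_le_add, div_le_iff₀ hp0]
      linarith
    calc (Y : ℝ) * μ - P.card = ∑ p ∈ P, ((Y : ℝ) * (1 / p) - 1) := by
          rw [Finset.sum_sub_distrib, ← Finset.mul_sum, Finset.sum_const, nsmul_eq_mul, mul_one]
      _ ≤ _ := Finset.sum_le_sum h2
  have h5 : ∑ N ∈ Ioc 0 Y, ((P.filter fun p => p ∣ N).card : ℝ) ^ 2 ≤ Y * μ + Y * μ ^ 2 := by
    have e1 : ∀ N : ℕ, ((P.filter fun p => p ∣ N).card : ℝ) ^ 2 =
        ∑ p ∈ P, ∑ q ∈ P, if p ∣ N ∧ q ∣ N then (1 : ℝ) else 0 := by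
      intro N
      rw [hcard, pow_two, Finset.sum_mul_sum]
      refine Finset.sum_congr rfl fun p _ => Finset.sum_congr rfl fun q _ => ?_
      by_cases h1 : p ∣ N <;> by_cases h2 : q ∣ N <;> simp [h1, h2]
    simp only [e1]
    rw [Finset.sum_comm]
    have e2 : ∀ p ∈ P, ∑ N ∈ Ioc 0 Y, ∑ q ∈ P, (if p ∣ N ∧ q ∣ N then (1 : ℝ) else 0) ≤
        Y * (1 / p) + ∑ q ∈ P, (Y : ℝ) * ((1 / p) * (1 / q)) := by
      intro p hp
      rw [Finset.sum_comm]
      have hp0 : (0 : ℝ) < p := by exact_mod_cast (hP p hp).pos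
      have e3 : ∀ q ∈ P, ∑ N ∈ Ioc 0 Y, (if p ∣ N ∧ q ∣ N then (1 : ℝ) else 0) ≤
          (if q = p then (Y : ℝ) * (1 / p) else 0) + (Y : ℝ) * ((1 / p) * (1 / q)) := by
        intro q hq
        have hq0 : (0 : ℝ) < q := by exact_mod_cast (hP q hq).pos
        by_cases h6 : q = p
        · subst h6
          rw [if_pos rfl]
          have h7 : ∀ N : ℕ, (if q ∣ N ∧ q ∣ N then (1 : ℝ) else 0) = if q ∣ N then 1 else 0 :=
            fun N => by simp
          simp only [h7]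
          rw [hcnt]
          have h8 : ((Y / q : ℕ) : ℝ) ≤ (Y : ℝ) / q := Nat.cast_div_le
          have h9 : (0 : ℝ) ≤ (Y : ℝ) * ((1 / q) * (1 / q)) := by positivity
          rw [mul_one_div]
          linarith
        · rw [if_neg h6, zero_add]
          have h7 : ∀ N : ℕ, (if p ∣ N ∧ q ∣ N then (1 : ℝ) else 0) = if p * q ∣ N then 1 else 0 := by
            intro N
            have hco : Nat.Coprime p q := (Nat.coprime_primes (hP p hp) (hP q hq)).2 (Ne.symm h6)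
            by_cases h8 : p * q ∣ N
            · rw [if_pos h8, if_pos ⟨dvd_of_mul_right_dvd h8, dvd_of_mul_left_dvd h8⟩]
            · rw [if_neg h8, if_neg]
              rintro ⟨h9, h10⟩
              exact h8 (hco.mul_dvd_of_dvd_of_dvd h9 h10)
          simp only [h7]
          rw [hcnt]
          have h8 : ((Y / (p * q) : ℕ) : ℝ) ≤ (Y : ℝ) / ((p * q : ℕ) : ℝ) := Nat.cast_div_le
          refine h8.trans (le_of_eq ?_)
          push_cast
          field_simp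
      refine (Finset.sum_le_sum e3).trans (le_of_eq ?_)
      rw [Finset.sum_add_distrib, Finset.sum_ite_eq' P p, if_pos hp]
    refine (Finset.sum_le_sum e2).trans (le_of_eq ?_)
    have e5 : ∑ p ∈ P, ∑ q ∈ P, (Y : ℝ) * ((1 / (p : ℝ)) * (1 / (q : ℝ))) = Y * μ ^ 2 := by
      rw [pow_two, hμ, Finset.sum_mul_sum, Finset.mul_sum]
      refine Finset.sum_congr rfl fun p _ => ?_
      rw [Finset.mul_sum]
    rw [Finset.sum_add_distrib, ← Finset.mul_sum, e5]
  have e4 : ∀ N ∈ Ioc 0 Y, (((P.filter fun p => p ∣ N).card : ℝ) - μ) ^ 2 =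
      ((P.filter fun p => p ∣ N).card : ℝ) ^ 2 - 2 * μ * ((P.filter fun p => p ∣ N).card : ℝ) +
        μ ^ 2 := fun N _ => by ring
  rw [Finset.sum_congr rfl e4, Finset.sum_add_distrib, Finset.sum_sub_distrib, ← Finset.mul_sum,
    Finset.sum_const, Nat.card_Ioc, Nat.sub_zero, nsmul_eq_mul]
  nlinarith [mul_le_mul_of_nonneg_left h1 (by linarith : (0 : ℝ) ≤ 2 * μ)]

open Classical in
theorem den (h : ℕ) (ε : ℝ) (hε : 0 < ε) : ∃ Y0 : ℕ, ∀ Y : ℕ, Y0 ≤ Y →
    (((Ioc 0 Y).filter fun N => ¬ ∃ s : Finset ℕ, s.card = h ∧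
      ∀ q ∈ s, q.Prime ∧ q ≠ 2 ∧ q ∣ N ∧ ¬ q ^ 2 ∣ N).card : ℝ) ≤ ε * Y := by
  obtain ⟨y, hy⟩ := exists_nat_gt (8 / ε + 2)
  obtain ⟨P, hP, hμ⟩ := exists_primes (max (2 * h + 1) (16 / ε)) y
  set μ : ℝ := ∑ p ∈ P, (1 : ℝ) / p with hμdef
  have hμ1 : 2 * (h : ℝ) + 1 ≤ μ := (le_max_left _ _).trans hμ
  have hμ2 : 16 / ε ≤ μ := (le_max_right _ _).trans hμ
  have hμ0 : 0 < μ := by have := Nat.cast_nonneg (α := ℝ) h; linarith
  have h8 : 8 / ε > 0 := by positivity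
  have hy2 : 2 ≤ y := by
    have : (2 : ℝ) < y := by linarith
    exact_mod_cast this.le
  obtain ⟨Y0, hY0⟩ := exists_nat_gt (16 * P.card / (μ * ε))
  refine ⟨Y0 + 1, fun Y hY => ?_⟩
  have hYr : (0 : ℝ) < Y := by exact_mod_cast (show 0 < Y by omega)
  have hsub : ((Ioc 0 Y).filter fun N => ¬ ∃ s : Finset ℕ, s.card = h ∧
      ∀ q ∈ s, q.Prime ∧ q ≠ 2 ∧ q ∣ N ∧ ¬ q ^ 2 ∣ N) ⊆
      ((Ioc 0 Y).filter fun N => (P.filter fun p => p ∣ N).card < h) ∪
        P.biUnion (fun q => (Ioc 0 Y).filter fun N => q ^ 2 ∣ N) := by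
    intro N hN
    rw [Finset.mem_filter] at hN
    rw [Finset.mem_union, Finset.mem_filter, Finset.mem_biUnion]
    by_cases h1 : (P.filter fun p => p ∣ N).card < h
    · exact Or.inl ⟨hN.1, h1⟩
    · right
      obtain ⟨s, hs, hsc⟩ := Finset.exists_subset_card_eq (not_lt.1 h1)
      by_contra hcon
      push Not at hcon
      apply hN.2
      refine ⟨s, hsc, fun q hq => ?_⟩
      have h2 := Finset.mem_filter.1 (hs hq)
      refine ⟨(hP q h2.1).1, ?_, h2.2, fun h3 => hcon q h2.1 (Finset.mem_filter.2 ⟨hN.1, h3⟩)⟩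
      have := (hP q h2.1).2
      omega
  have hA : (((Ioc 0 Y).filter fun N => (P.filter fun p => p ∣ N).card < h).card : ℝ) *
      (μ ^ 2 / 4) ≤ Y * μ + 2 * μ * P.card := by
    refine le_trans ?_ (turan P (fun p hp => (hP p hp).1) Y)
    rw [← nsmul_eq_mul, ← Finset.sum_const, ← hμdef]
    refine (Finset.sum_le_sum fun N hN => ?_).trans
      (Finset.sum_le_sum_of_subset_of_nonneg (Finset.filter_subset _ _) fun _ _ _ => sq_nonneg _)
    rw [Finset.mem_filter] at hN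
    have h2 : ((P.filter fun p => p ∣ N).card : ℝ) ≤ h := by exact_mod_cast hN.2.le
    nlinarith [Nat.cast_nonneg (α := ℝ) (P.filter fun p => p ∣ N).card]
  have hB : ((P.biUnion (fun q => (Ioc 0 Y).filter fun N => q ^ 2 ∣ N)).card : ℝ) ≤
      Y * (2 / (y + 1)) := by
    have h1 : ((P.biUnion (fun q => (Ioc 0 Y).filter fun N => q ^ 2 ∣ N)).card : ℝ) ≤
        ∑ q ∈ P, (((Ioc 0 Y).filter fun N => q ^ 2 ∣ N).card : ℝ) := by
      exact_mod_cast Finset.card_biUnion_le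
    refine h1.trans ?_
    have h2 : ∀ q ∈ P, (((Ioc 0 Y).filter fun N => q ^ 2 ∣ N).card : ℝ) ≤
        Y * ((q : ℝ) ^ 2)⁻¹ := by
      intro q _
      rw [Nat.Ioc_filter_dvd_card_eq_div]
      have : ((Y / q ^ 2 : ℕ) : ℝ) ≤ (Y : ℝ) / ((q ^ 2 : ℕ) : ℝ) := Nat.cast_div_le
      rw [← div_eq_mul_inv]
      exact_mod_cast this
    refine (Finset.sum_le_sum h2).trans ?_
    rw [← Finset.mul_sum]
    refine mul_le_mul_of_nonneg_left ?_ hYr.le
    refine le_trans ?_ (sum_Ioo_inv_sq_le (α := ℝ) y (P.sup id + 1))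
    refine Finset.sum_le_sum_of_subset_of_nonneg ?_ fun _ _ _ => by positivity
    intro q hq
    rw [Finset.mem_Ioo]
    exact ⟨(hP q hq).2, Nat.lt_succ_of_le (Finset.le_sup (f := id) hq)⟩
  have hcard : (((Ioc 0 Y).filter fun N => ¬ ∃ s : Finset ℕ, s.card = h ∧
      ∀ q ∈ s, q.Prime ∧ q ≠ 2 ∧ q ∣ N ∧ ¬ q ^ 2 ∣ N).card : ℝ) ≤
      (((Ioc 0 Y).filter fun N => (P.filter fun p => p ∣ N).card < h).card : ℝ) +
        ((P.biUnion (fun q => (Ioc 0 Y).filter fun N => q ^ 2 ∣ N)).card : ℝ) := by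
    exact_mod_cast (Finset.card_le_card hsub).trans (Finset.card_union_le _ _)
  refine hcard.trans ?_
  have hA2 : (((Ioc 0 Y).filter fun N => (P.filter fun p => p ∣ N).card < h).card : ℝ) ≤
      4 * Y / μ + 8 * P.card / μ := by
    have h1 : 4 * Y / μ + 8 * P.card / μ = (Y * μ + 2 * μ * P.card) / (μ ^ 2 / 4) := by
      field_simp
      ring
    rw [h1, le_div_iff₀ (by positivity)]
    exact hA
  have h3 : 4 * (Y : ℝ) / μ ≤ ε / 4 * Y := by
    rw [div_le_iff₀ hμ0]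
    have h4 : 16 ≤ ε * μ := by
      have := (div_le_iff₀ hε).1 hμ2
      linarith
    nlinarith
  have h5 : 8 * (P.card : ℝ) / μ ≤ ε / 2 * Y := by
    have h6 : 16 * (P.card : ℝ) / (μ * ε) < Y := hY0.trans_le (by exact_mod_cast (by omega : Y0 ≤ Y))
    rw [div_lt_iff₀ (by positivity)] at h6
    rw [div_le_iff₀ hμ0]
    nlinarith
  have h7 : (Y : ℝ) * (2 / (y + 1)) ≤ ε / 4 * Y := by
    rw [mul_comm]
    refine mul_le_mul_of_nonneg_right ?_ hYr.le
    rw [div_le_iff₀ (by positivity)]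
    have h9 : 8 / ε < y := by linarith
    rw [div_lt_iff₀ hε] at h9
    nlinarith
  linarith

theorem den' (h : ℕ) (ε : ℝ) (hε : 0 < ε) : ∃ Y0 : ℕ, ∀ Y : ℕ, Y0 ≤ Y →
    ∀ F : Finset ℕ, (∀ N ∈ F, 0 < N ∧ N ≤ Y ∧ ¬ ∃ s : Finset ℕ, s.card = h ∧
      ∀ q ∈ s, q.Prime ∧ q ≠ 2 ∧ q ∣ N ∧ ¬ q ^ 2 ∣ N) → (F.card : ℝ) ≤ ε * Y := by
  classical
  obtain ⟨Y0, h0⟩ := den h ε hε
  refine ⟨Y0, fun Y hY F hF => le_trans ?_ (h0 Y hY)⟩
  rw [Nat.cast_le]
  apply Finset.card_le_card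
  intro N hN
  rw [Finset.mem_filter, Finset.mem_Ioc]
  exact ⟨⟨(hF N hN).1, (hF N hN).2.1⟩, (hF N hN).2.2⟩

end Pool.Agent.V11172.PT
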