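import Pool.Agent.V11172.PT.Lac
import Pool.Agent.V11172.PT.Den
import Pool.Agent.TH693.PP.Base

set_option autoImplicit false

/-!
# Even values of linear patterns of multipartition functions: the algebraic part
-/

namespace Pool.Agent.V11172.PT

open PowerSeries Pool.Agent.TH693.PP Pool.Agent.H397R2.PP

/-- the `j` with `M g_j ≤ n` -/
noncomputable def JJ (M n : ℕ) : Finset ℤ := (Finset.Icc (-(n : ℤ)) n).filter fun j => M * pentagonal j ≤ n

theorem mem_JJ {M : ℕ} (hM : M ≠ 0) {n : ℕ} {j : ℤ} : j ∈ JJ M n ↔ M * pentagonal j ≤ n := by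
  unfold JJ
  rw [Finset.mem_filter]
  constructor
  · exact fun h => h.2
  · intro h
    refine ⟨?_, h⟩
    have h1 : pentagonal j ≤ n := (Nat.le_mul_of_pos_left _ (Nat.pos_of_ne_zero hM)).trans h
    have h2 := natAbs_le_pentagonal j
    rw [Finset.mem_Icc, ← abs_le]
    exact h2.trans (by exact_mod_cast h1)

theorem rec_pent (G : S) (M : ℕ) (hM : M ≠ 0) (n : ℕ) :
    coeff n (G * PowerSeries.expand M hM (pentagonalSeries (ZMod 2))) =
      ∑ j ∈ JJ M n, coeff (n - M * pentagonal j) G := by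
  unfold JJ
  rw [Finset.sum_filter, coeff_mul]
  rw [Finset.sum_congr rfl (g := fun p : ℕ × ℕ => ∑ j ∈ Finset.Icc (-(n : ℤ)) n,
    if p.2 = M * pentagonal j then coeff p.1 G else 0)]
  · rw [Finset.sum_comm]
    refine Finset.sum_congr rfl fun j _ => ?_
    split_ifs with hj
    · rw [Finset.sum_eq_single (n - M * pentagonal j, M * pentagonal j)]
      · simp
      · rintro ⟨a, b⟩ hab hne
        rw [if_neg]
        intro hb
        apply hne
        rw [Finset.HasAntidiagonal.mem_antidiagonal] at hab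
        simp only at hb hab
        ext <;> simp <;> omega
      · intro h
        exact absurd (Finset.HasAntidiagonal.mem_antidiagonal.mpr (Nat.sub_add_cancel hj)) h
    · apply Finset.sum_eq_zero
      rintro ⟨a, b⟩ hab
      rw [Finset.HasAntidiagonal.mem_antidiagonal] at hab
      rw [if_neg]
      intro hb
      simp only at hb hab
      omega
  · rintro ⟨a, b⟩ hab
    rw [Finset.HasAntidiagonal.mem_antidiagonal] at hab
    simp only at hab ⊢
    rw [coeff_expand_pent M hM n b (by omega), Finset.mul_sum]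
    refine Finset.sum_congr rfl fun j _ => ?_
    split_ifs <;> simp

theorem coeff_Db_pow (m n : ℕ) : coeff (8 * n + m) (Db ^ m) = coeff n (E ^ (3 * m)) := by
  have h1 : Db ^ m = X ^ m * PowerSeries.expand 8 (by norm_num) (E ^ (3 * m)) := by
    rw [← pow_eq_expand' 8 3 (by norm_num) (by norm_num), show Db = X * E ^ 24 from rfl, mul_pow,
      ← pow_mul, ← pow_mul]
    congr 2
    ring
  rw [h1, coeff_X_pow_mul, coeff_expand_mul]

/-- the recurrence for `P ^ t` -/
theorem rec_P {t i m : ℕ} (ht : t + 3 * m = 2 ^ i) (n : ℕ) :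
    ∑ j ∈ JJ (2 ^ i) n, coeff (n - 2 ^ i * pentagonal j) (P ^ t) = coeff (8 * n + m) (Db ^ m) := by
  have hM : (2 ^ i : ℕ) ≠ 0 := by positivity
  rw [coeff_Db_pow, ← rec_pent (P ^ t) (2 ^ i) hM n, ← pow_eq_expand' (2 ^ i) i hM rfl]
  congr 1
  have h1 : P ^ t * E ^ (2 ^ i) = (P * E) ^ t * E ^ (3 * m) := by
    rw [← ht, pow_add, mul_pow]
    ring
  rw [show pentagonalSeries (ZMod 2) = E from rfl, h1, P_mul_E, one_pow, one_mul]

/-- the pattern -/
noncomputable def pat' (T : Finset ℕ) (L : ℕ) (c : ℕ → Fin (L + 1) → ZMod 2) (n : ℕ) : ZMod 2 :=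
  ∑ t ∈ T, ∑ l : Fin (L + 1), c t l * coeff (n + l) (P ^ t)

/-- an `n` for which one of the shifted values vanishes -/
theorem exists_zero {T : Finset ℕ} {i : ℕ} {m : ℕ → ℕ} (hT : ∀ t ∈ T, t + 3 * m t = 2 ^ i) (L : ℕ)
    (c : ℕ → Fin (L + 1) → ZMod 2) (n : ℕ)
    (ha : ∀ j : ℤ, ¬ (n < 2 ^ i * pentagonal j ∧ 2 ^ i * pentagonal j ≤ n + L))
    (hb : ∀ t ∈ T, ∀ l ≤ L, coeff (8 * (n + l) + m t) (Db ^ m t) = 0)
    (hodd : Odd (JJ (2 ^ i) n).card) :
    ∃ j ∈ JJ (2 ^ i) n, pat' T L c (n - 2 ^ i * pentagonal j) = 0 := by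
  have hM : (2 ^ i : ℕ) ≠ 0 := by positivity
  by_contra hcon
  push Not at hcon
  have h1 : ∑ j ∈ JJ (2 ^ i) n, pat' T L c (n - 2 ^ i * pentagonal j) = 0 := by
    unfold pat'
    rw [Finset.sum_comm]
    refine Finset.sum_eq_zero fun t ht => ?_
    rw [Finset.sum_comm]
    refine Finset.sum_eq_zero fun l _ => ?_
    rw [← Finset.mul_sum]
    have hl : (l : ℕ) ≤ L := Nat.lt_succ_iff.1 l.2
    have hJ : JJ (2 ^ i) (n + l) = JJ (2 ^ i) n := by
      ext j
      rw [mem_JJ hM, mem_JJ hM]
      have := ha j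
      constructor
      · intro h2
        by_contra h3
        exact this ⟨by omega, by omega⟩
      · intro h2
        omega
    have h2 := rec_P (hT t ht) (n + l)
    rw [hJ, hb t ht l hl] at h2
    have h3 : ∑ j ∈ JJ (2 ^ i) n, coeff (n - 2 ^ i * pentagonal j + l) (P ^ t) =
        ∑ j ∈ JJ (2 ^ i) n, coeff (n + l - 2 ^ i * pentagonal j) (P ^ t) := by
      refine Finset.sum_congr rfl fun j hj => ?_
      have := (mem_JJ hM).1 hj
      congr 1
      congr 1
      omega
    rw [h3, h2, mul_zero]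
  have h2 : ∀ j ∈ JJ (2 ^ i) n, pat' T L c (n - 2 ^ i * pentagonal j) = 1 := fun j hj =>
    (by decide : ∀ x : ZMod 2, x ≠ 0 → x = 1) _ (hcon j hj)
  rw [Finset.sum_congr rfl h2, Finset.sum_const, nsmul_eq_mul, mul_one] at h1
  rw [ZMod.natCast_eq_zero_iff] at h1
  exact (Nat.not_even_iff_odd.2 hodd) (even_iff_two_dvd.2 h1)

theorem pent_neg (a : ℕ) : 2 * pentagonal (-(a : ℤ)) = a * (3 * a + 1) := by
  have h := two_mul_natCast_pentagonal (-(a : ℤ))
  zify
  rw [h]
  ring

theorem pent_succ (a : ℕ) : 2 * pentagonal ((a : ℤ) + 1) = (a + 1) * (3 * a + 2) := by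
  have h := two_mul_natCast_pentagonal ((a : ℤ) + 1)
  zify
  rw [h]
  ring

/-- the number of `j` for `n` between two consecutive pentagonal numbers -/
theorem card_JJ {M : ℕ} (hM : M ≠ 0) (a n : ℕ) (h1 : M * pentagonal (-(a : ℤ)) ≤ n)
    (h2 : n < M * pentagonal ((a : ℤ) + 1)) : (JJ M n).card = 2 * a + 1 := by
  have h : JJ M n = Finset.Icc (-(a : ℤ)) a := by
    ext j
    rw [mem_JJ hM, Finset.mem_Icc]
    have hmono : ∀ x y : ℤ, x * (3 * x - 1) ≤ y * (3 * y - 1) → pentagonal x ≤ pentagonal y := by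
      intro x y h
      have e1 := two_mul_natCast_pentagonal x
      have e2 := two_mul_natCast_pentagonal y
      have : (pentagonal x : ℤ) ≤ pentagonal y := by linarith
      exact_mod_cast this
    constructor
    · intro h3
      constructor
      · by_contra h4
        push Not at h4
        have h5 : pentagonal ((a : ℤ) + 1) ≤ pentagonal j := by
          apply hmono
          nlinarith
        have := Nat.mul_le_mul_left M h5
        omega
      · by_contra h4
        push Not at h4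
        have h5 : pentagonal ((a : ℤ) + 1) ≤ pentagonal j := by
          apply hmono
          nlinarith
        have := Nat.mul_le_mul_left M h5
        omega
    · rintro ⟨h3, h4⟩
      have h5 : pentagonal j ≤ pentagonal (-(a : ℤ)) := by
        apply hmono
        rcases le_or_gt 0 j with h6 | h6 <;> nlinarith
      exact (Nat.mul_le_mul_left M h5).trans h1
  rw [h, Int.card_Icc]
  omega

theorem card_JJ_le {M : ℕ} (hM : M ≠ 0) (x : ℕ) : (JJ M x).card ≤ 2 * Nat.sqrt (x / M) + 1 := by
  have h : JJ M x ⊆ Finset.Icc (-(Nat.sqrt (x / M) : ℤ)) (Nat.sqrt (x / M)) := by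
    intro j hj
    rw [mem_JJ hM] at hj
    have h1 : pentagonal j ≤ x / M := by
      rw [Nat.le_div_iff_mul_le (Nat.pos_of_ne_zero hM), mul_comm]
      exact hj
    have h2 : j.natAbs ^ 2 ≤ pentagonal j := by
      have e1 := two_mul_natCast_pentagonal j
      zify
      rw [sq_abs]
      have e2 : 0 ≤ j * (j - 1) := by
        rcases le_or_gt j 0 with h3 | h3
        · nlinarith
        · have : 1 ≤ j := h3
          nlinarith
      nlinarith
    have h3 : j.natAbs ≤ Nat.sqrt (x / M) := by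
      rw [Nat.le_sqrt']
      exact h2.trans h1
    rw [Finset.mem_Icc]
    omega
  refine (Finset.card_le_card h).trans ?_
  rw [Int.card_Icc]
  omega

end Pool.Agent.V11172.PT
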