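import Pool.Agent.V11172.PT.Cnt

set_option autoImplicit false

/-!
# Even values of linear patterns of multipartition functions: counting
-/

namespace Pool.Agent.V11172.PT

open Pool.Agent.TH693.PP Pool.Agent.H397R2.PP

/-- density zero -/
def DZ (Z : ℕ → Prop) : Prop := ∀ ε : ℝ, 0 < ε → ∃ x0 : ℕ, ∀ x : ℕ, x0 ≤ x →
  ∀ F : Finset ℕ, (∀ n ∈ F, n ≤ x ∧ Z n) → (F.card : ℝ) ≤ ε * x

theorem DZ_mono {Z Z' : ℕ → Prop} (h : ∀ n, Z n → Z' n) (hZ : DZ Z') : DZ Z := by
  intro ε hε
  obtain ⟨x0, h0⟩ := hZ ε hε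
  exact ⟨x0, fun x hx F hF => h0 x hx F fun n hn => ⟨(hF n hn).1, h n (hF n hn).2⟩⟩

theorem DZ_or {Z Z' : ℕ → Prop} (hZ : DZ Z) (hZ' : DZ Z') : DZ (fun n => Z n ∨ Z' n) := by
  classical
  intro ε hε
  obtain ⟨x0, h0⟩ := hZ (ε / 2) (by positivity)
  obtain ⟨x1, h1⟩ := hZ' (ε / 2) (by positivity)
  refine ⟨max x0 x1, fun x hx F hF => ?_⟩
  have e0 := h0 x ((le_max_left _ _).trans hx) (F.filter fun n => Z n) fun n hn => by
    rw [Finset.mem_filter] at hn
    exact ⟨(hF n hn.1).1, hn.2⟩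
  have e1 := h1 x ((le_max_right _ _).trans hx) (F.filter fun n => ¬ Z n) fun n hn => by
    rw [Finset.mem_filter] at hn
    exact ⟨(hF n hn.1).1, (hF n hn.1).2.resolve_left hn.2⟩
  have e2 := Finset.card_filter_add_card_filter_not (s := F) (fun n => Z n)
  have e3 : (F.card : ℝ) = (F.filter fun n => Z n).card + (F.filter fun n => ¬ Z n).card := by
    exact_mod_cast e2.symm
  linarith

theorem DZ_false : DZ (fun _ => False) := by
  intro ε hε
  refine ⟨0, fun x _ F hF => ?_⟩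
  have : F = ∅ := Finset.eq_empty_of_forall_notMem fun n hn => (hF n hn).2
  rw [this, Finset.card_empty, Nat.cast_zero]
  positivity

theorem DZ_bex {ι : Type} (s : Finset ι) (Z : ι → ℕ → Prop) (h : ∀ a ∈ s, DZ (Z a)) :
    DZ (fun n => ∃ a ∈ s, Z a n) := by
  classical
  induction s using Finset.induction_on with
  | empty => exact DZ_mono (fun n hn => by simp at hn) DZ_false
  | insert a s ha ih =>
    refine DZ_mono (fun n hn => ?_) (DZ_or (h a (Finset.mem_insert_self a s))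
      (ih fun b hb => h b (Finset.mem_insert_of_mem hb)))
    obtain ⟨b, hb, hZ⟩ := hn
    rcases Finset.mem_insert.1 hb with rfl | hb
    · exact Or.inl hZ
    · exact Or.inr ⟨b, hb, hZ⟩

theorem DZ_aff {Z : ℕ → Prop} (hZ : DZ Z) (k m : ℕ) (hk : 0 < k) : DZ (fun n => Z (k * n + m)) := by
  classical
  intro ε hε
  obtain ⟨x0, h0⟩ := hZ (ε / (k + m)) (by positivity)
  refine ⟨x0 + 1, fun x hx F hF => ?_⟩
  have h1 := h0 (k * x + m) (by nlinarith) (F.image fun n => k * n + m) fun N hN => by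
    obtain ⟨n, hn, rfl⟩ := Finset.mem_image.1 hN
    refine ⟨?_, (hF n hn).2⟩
    have : k * n ≤ k * x := Nat.mul_le_mul_left _ (hF n hn).1
    omega
  rw [Finset.card_image_of_injective _ (fun n n' h => by
    have h' : k * n + m = k * n' + m := h
    exact Nat.eq_of_mul_eq_mul_left hk (by omega))] at h1
  refine h1.trans ?_
  have hx1 : (1 : ℝ) ≤ x := by exact_mod_cast (show 1 ≤ x by omega)
  have h4 : ((k * x + m : ℕ) : ℝ) ≤ (k + m) * x := by
    push_cast
    nlinarith [Nat.cast_nonneg (α := ℝ) m]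
  have hkm : (0 : ℝ) < k + m := by positivity
  calc ε / (k + m) * ((k * x + m : ℕ) : ℝ) ≤ ε / (k + m) * ((k + m) * x) :=
        mul_le_mul_of_nonneg_left h4 (by positivity)
    _ = ε * x := by field_simp

theorem DZ_coeff (j : ℕ) : DZ (fun N => PowerSeries.coeff N (Db ^ (2 * j + 1)) ≠ 0) := by
  classical
  intro ε hε
  obtain ⟨Y0, h0⟩ := den' (cont j + 1) (ε / 2) (by positivity)
  obtain ⟨Y1, h1⟩ := exists_nat_gt (2 / ε)
  refine ⟨max Y0 Y1, fun x hx F hF => ?_⟩
  have h2 := h0 x ((le_max_left _ _).trans hx) (F.erase 0) fun N hN => by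
    rw [Finset.mem_erase] at hN
    refine ⟨Nat.pos_of_ne_zero hN.1, (hF N hN.2).1, fun h6 => ?_⟩
    exact (hF N hN.2).2 (coeff_zero_of_ex j N h6)
  have h3 : (2 / ε : ℝ) < x := h1.trans_le (by exact_mod_cast (le_max_right _ _).trans hx)
  rw [div_lt_iff₀ hε] at h3
  have h4 : (F.card : ℝ) ≤ (F.erase 0).card + 1 := by
    have : F.card ≤ (F.erase 0).card + 1 := by
      have := Finset.pred_card_le_card_erase (s := F) (a := 0)
      omega
    exact_mod_cast this
  linarith

theorem DZ_near (M L : ℕ) (hM : M ≠ 0) :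
    DZ (fun n => ∃ j : ℤ, n < M * pentagonal j ∧ M * pentagonal j ≤ n + L) := by
  classical
  intro ε hε
  obtain ⟨s0, hs0⟩ := exists_nat_gt (6 * (L : ℝ) / ε)
  refine ⟨(s0 + 1) ^ 2 + L, fun x hx F hF => ?_⟩
  set s := Nat.sqrt (x + L) with hs
  have h1 : F ⊆
      (JJ M (x + L)).biUnion fun j => Finset.Ico (M * pentagonal j - L) (M * pentagonal j) := by
    intro n hn
    obtain ⟨hn1, j, h2, h3⟩ := hF n hn
    rw [Finset.mem_biUnion]
    refine ⟨j, (mem_JJ hM).2 (by omega), ?_⟩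
    rw [Finset.mem_Ico]
    omega
  have h2 : ((JJ M (x + L)).biUnion fun j =>
      Finset.Ico (M * pentagonal j - L) (M * pentagonal j)).card ≤ (JJ M (x + L)).card * L := by
    refine Finset.card_biUnion_le_card_mul _ _ _ fun j _ => ?_
    rw [Nat.card_Ico]
    omega
  have h3 := card_JJ_le hM (x + L)
  have h4 : Nat.sqrt ((x + L) / M) ≤ s := Nat.sqrt_le_sqrt (Nat.div_le_self _ _)
  have h5 : (F.card : ℝ) ≤ (2 * s + 1) * L := by
    have : F.card ≤ (2 * s + 1) * L :=
      (Finset.card_le_card h1).trans (h2.trans (Nat.mul_le_mul_right L (by omega)))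
    exact_mod_cast this
  refine h5.trans ?_
  have h6 : s0 + 1 ≤ s := by
    rw [hs, Nat.le_sqrt']
    omega
  have h7 : s ^ 2 ≤ x + L := Nat.sqrt_le' _
  have h7' : (s : ℝ) ^ 2 ≤ x + L := by exact_mod_cast h7
  have hs1 : (s0 : ℝ) + 1 ≤ s := by exact_mod_cast h6
  have hs2 : (1 : ℝ) ≤ s := by have := Nat.cast_nonneg (α := ℝ) s0; linarith
  have hL : (0 : ℝ) ≤ L := Nat.cast_nonneg L
  have hxL : (L : ℝ) ≤ x := by exact_mod_cast (show L ≤ x by omega)
  rw [div_lt_iff₀ hε] at hs0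
  have h8 : 6 * (L : ℝ) ≤ s * ε := by nlinarith
  have h9 : (2 * (s : ℝ) + 1) * L ≤ 3 * s * L := by nlinarith
  nlinarith [mul_le_mul_of_nonneg_right h8 (by linarith : (0 : ℝ) ≤ s)]

/-- the `n` in a residue class with an odd number of `j` -/
theorem cntO {M r : ℕ} (hr : 0 < r) (hrM : r ∣ M) (hM : M ≠ 0) (ρ B x : ℕ)
    (hx : 2 * M * B ^ 2 ≤ x) :
    M / r * B ^ 2 ≤ ((Finset.range (x + 1)).filter fun n => n % r = ρ % r ∧
      Odd (JJ M n).card).card := by
  set I : ℕ → Finset ℕ := fun a => (Finset.Ico (M * pentagonal (-(a : ℤ)))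
    (M * pentagonal (-(a : ℤ)) + M * (2 * a + 1))).filter fun n => n ≡ ρ [MOD r] with hI
  have hsucc : ∀ a : ℕ, M * pentagonal ((a : ℤ) + 1) = M * pentagonal (-(a : ℤ)) + M * (2 * a + 1) := by
    intro a
    rw [← mul_add]
    congr 1
    have h1 := pent_neg a
    have h2 := pent_succ a
    nlinarith
  obtain ⟨w, hw⟩ := hrM
  have hcard : ∀ a, (I a).card = M / r * (2 * a + 1) := by
    intro a
    rw [hI]
    simp only
    rw [Nat.filter_Ico_card_eq_of_periodic]
    · rw [Nat.count_modEq_card _ hr]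
      have h1 : M * (2 * a + 1) = r * (w * (2 * a + 1)) := by rw [hw]; ring
      rw [h1, Nat.mul_div_cancel_left _ hr, Nat.mul_mod_right, if_neg (Nat.not_lt_zero _), add_zero,
        hw, Nat.mul_div_cancel_left _ hr]
    · intro n
      apply propext
      have h1 : M * (2 * a + 1) = r * (w * (2 * a + 1)) := by rw [hw]; ring
      rw [h1]
      show (n + r * (w * (2 * a + 1))) % r = ρ % r ↔ n % r = ρ % r
      rw [Nat.add_mul_mod_self_left]
  have hdisj : ∀ a ∈ Finset.range B, ∀ a' ∈ Finset.range B, a ≠ a' → Disjoint (I a) (I a') := by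
    have key : ∀ a a' : ℕ, a < a' → Disjoint (I a) (I a') := by
      intro a a' h
      rw [Finset.disjoint_left]
      intro n h1 h2
      rw [hI] at h1 h2
      simp only [Finset.mem_filter, Finset.mem_Ico] at h1 h2
      have h3 : pentagonal (-(a : ℤ)) + (2 * a + 1) ≤ pentagonal (-(a' : ℤ)) := by
        have e1 := pent_neg a
        have e2 := pent_neg a'
        nlinarith
      have h4 := Nat.mul_le_mul_left M h3
      rw [mul_add] at h4
      omega
    intro a _ a' _ h
    rcases Nat.lt_or_gt_of_ne h with h1 | h1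
    · exact key a a' h1
    · exact (key a' a h1).symm
  have hsub : (Finset.range B).biUnion I ⊆ (Finset.range (x + 1)).filter fun n =>
      n % r = ρ % r ∧ Odd (JJ M n).card := by
    intro n hn
    rw [Finset.mem_biUnion] at hn
    obtain ⟨a, ha, hn⟩ := hn
    rw [Finset.mem_range] at ha
    rw [hI] at hn
    simp only [Finset.mem_filter, Finset.mem_Ico] at hn
    obtain ⟨⟨h1, h2⟩, h3⟩ := hn
    rw [← hsucc] at h2
    rw [Finset.mem_filter, Finset.mem_range]
    refine ⟨?_, h3, ?_⟩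
    · have e := pent_succ a
      have e1 : (a + 1) * (3 * a + 2) ≤ 4 * B ^ 2 := by nlinarith
      have e2 : pentagonal ((a : ℤ) + 1) ≤ 2 * B ^ 2 := by omega
      have e3 := Nat.mul_le_mul_left M e2
      nlinarith
    · rw [card_JJ hM a n h1 h2]
      exact ⟨a, rfl⟩
  have hsum : ∀ B : ℕ, ∑ a ∈ Finset.range B, M / r * (2 * a + 1) = M / r * B ^ 2 := by
    intro B
    induction B with
    | zero => simp
    | succ B ih => rw [Finset.sum_range_succ, ih]; ring
  refine le_trans (le_of_eq ?_) (Finset.card_le_card hsub)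
  rw [Finset.card_biUnion hdisj, ← hsum]
  exact Finset.sum_congr rfl fun a _ => (hcard a).symm

end Pool.Agent.V11172.PT
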