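import Pool.Agent.V11172.PT.Cnt2

set_option autoImplicit false

/-!
# Even values of linear patterns of multipartition functions: the theorem
-/

namespace Pool.Agent.V11172.PT

open Pool.Agent.TH693.PP Pool.Agent.H397R2.PP

theorem main_even (T : Finset ℕ) (e : ℕ) (he : e = 1 ∨ e = 2) (hT : ∀ t ∈ T, Odd t ∧ t % 3 = e)
    (L : ℕ) (c : ℕ → Fin (L + 1) → ZMod 2) (b ρ : ℕ) (K : ℝ) :
    ∃ x0 : ℕ, ∀ x : ℕ, x0 ≤ x → K * Real.sqrt x ≤ (((Finset.range (x + 1)).filter fun n =>
      n % 2 ^ b = ρ % 2 ^ b ∧ pat' T L c n = 0).card : ℝ) := by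
  classical
  set r : ℕ := 2 ^ b with hr
  have hr0 : 0 < r := by positivity
  have hrr : (0 : ℝ) < r := by exact_mod_cast hr0
  obtain ⟨N0, hN0⟩ := exists_nat_gt (48 * r * K)
  set I0 := T.sup id + b + N0 + 1 with hI0
  obtain ⟨i, hi1, hi2⟩ : ∃ i, 2 * I0 ≤ i ∧ 2 ^ i % 3 = e := by
    have h4 : 2 ^ (2 * I0) % 3 = 1 := by
      rw [pow_mul, Nat.pow_mod]
      norm_num
    rcases he with rfl | rfl
    · exact ⟨2 * I0, le_rfl, h4⟩
    · exact ⟨2 * I0 + 1, by omega, by rw [pow_succ, Nat.mul_mod, h4]⟩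
  set M : ℕ := 2 ^ i with hMdef
  have hM : M ≠ 0 := by positivity
  have hM0 : 0 < M := Nat.pos_of_ne_zero hM
  have hMr : (0 : ℝ) < M := by exact_mod_cast hM0
  have hrM : r ∣ M := pow_dvd_pow 2 (by omega)
  have hiM : i < M := Nat.lt_two_pow_self
  have hMeven : M % 2 = 0 := by
    obtain ⟨i', hi'⟩ : ∃ i', i = i' + 1 := ⟨i - 1, by omega⟩
    rw [hMdef, hi', pow_succ]
    omega
  have htM : ∀ t ∈ T, t + 3 * ((M - t) / 3) = M := by
    intro t ht
    have h1 : t ≤ T.sup id := Finset.le_sup (f := id) ht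
    have h2 := (hT t ht).2
    omega
  have hodd : ∀ t ∈ T, ∃ j, (M - t) / 3 = 2 * j + 1 := by
    intro t ht
    have h1 := htM t ht
    have h2 := Nat.odd_iff.1 (hT t ht).1
    exact ⟨((M - t) / 3) / 2, by omega⟩
  -- the bad integers
  set Bad : ℕ → Prop := fun n => (∃ j : ℤ, n < M * pentagonal j ∧ M * pentagonal j ≤ n + L) ∨
    ∃ t ∈ T, ∃ l ∈ Finset.range (L + 1),
      PowerSeries.coeff (8 * (n + l) + (M - t) / 3) (Db ^ ((M - t) / 3)) ≠ 0 with hBad
  have hDZ : DZ Bad := by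
    refine DZ_or (DZ_near M L hM) (DZ_bex T _ fun t ht => DZ_bex _ _ fun l _ => ?_)
    obtain ⟨j, hj⟩ := hodd t ht
    rw [hj]
    refine DZ_mono (fun n hn => ?_) (DZ_aff (DZ_coeff j) 8 (8 * l + (2 * j + 1)) (by norm_num))
    have : 8 * n + (8 * l + (2 * j + 1)) = 8 * (n + l) + (2 * j + 1) := by ring
    rw [this]
    exact hn
  obtain ⟨x1, hx1⟩ := hDZ (1 / (16 * r)) (by positivity)
  refine ⟨max x1 (2 * M), fun x hx => ?_⟩
  have hxM : 2 * M ≤ x := (le_max_right _ _).trans hx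
  set B := Nat.sqrt (x / (2 * M)) with hB
  have hB1 : 1 ≤ B := by
    rw [hB, Nat.le_sqrt', one_pow]
    exact (Nat.one_le_div_iff (by positivity)).2 hxM
  have hBx : 2 * M * B ^ 2 ≤ x :=
    (Nat.mul_le_mul_left _ (Nat.sqrt_le' _)).trans (Nat.mul_div_le _ _)
  have hxB : x < 8 * (M * B ^ 2) := by
    have h1 : x / (2 * M) < (B + 1) ^ 2 := Nat.lt_succ_sqrt' _
    rw [Nat.div_lt_iff_lt_mul (by positivity)] at h1
    have h2 : (B + 1) ^ 2 ≤ 4 * B ^ 2 := by nlinarith
    calc x < (B + 1) ^ 2 * (2 * M) := h1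
      _ ≤ (4 * B ^ 2) * (2 * M) := Nat.mul_le_mul_right _ h2
      _ = 8 * (M * B ^ 2) := by ring
  have hO := cntO hr0 hrM hM ρ B x hBx
  set O := (Finset.range (x + 1)).filter fun n => n % r = ρ % r ∧ Odd (JJ M n).card with hOdef
  have hOr : (x : ℝ) / (8 * r) ≤ O.card := by
    rw [div_le_iff₀ (by positivity)]
    have h1 : x ≤ O.card * (8 * r) := by
      obtain ⟨w, hw⟩ := hrM
      rw [hw, Nat.mul_div_cancel_left _ hr0] at hO
      calc x ≤ 8 * (M * B ^ 2) := hxB.le
        _ = (w * B ^ 2) * (8 * r) := by rw [hw]; ring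
        _ ≤ O.card * (8 * r) := Nat.mul_le_mul_right _ hO
    exact_mod_cast h1
  set G := O.filter fun n => ¬ Bad n with hG
  have hGr : (x : ℝ) / (16 * r) ≤ G.card := by
    have h1 := Finset.card_filter_add_card_filter_not (s := O) (fun n => Bad n)
    have h2 := hx1 x ((le_max_left _ _).trans hx) (O.filter fun n => Bad n) fun n hn => by
      rw [Finset.mem_filter, hOdef, Finset.mem_filter, Finset.mem_range] at hn
      exact ⟨by omega, hn.2⟩
    have h3 : (O.card : ℝ) = (O.filter fun n => Bad n).card + G.card := by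
      exact_mod_cast h1.symm
    have h4 : (x : ℝ) / (8 * r) = 2 * (x / (16 * r)) := by field_simp; ring
    have h5 : 1 / (16 * (r : ℝ)) * x = x / (16 * r) := by ring
    linarith
  set W := (Finset.range (x + 1)).filter fun n => n % r = ρ % r ∧ pat' T L c n = 0 with hW
  have hGW : G.card ≤ (JJ M x).card * W.card := by
    have h1 : G ⊆ (JJ M x).biUnion fun j => W.image fun v => v + M * pentagonal j := by
      intro n hn
      rw [hG, Finset.mem_filter, hOdef, Finset.mem_filter, Finset.mem_range] at hn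
      obtain ⟨⟨hn1, hn2, hn3⟩, hn4⟩ := hn
      rw [hBad] at hn4
      simp only [not_or] at hn4
      obtain ⟨j, hj, hz⟩ := exists_zero (i := i) (m := fun t => (M - t) / 3) htM L c n
        (fun j hj => hn4.1 ⟨j, hj⟩) (fun t ht l hl => by
          by_contra h2
          exact hn4.2 ⟨t, ht, l, Finset.mem_range.2 (by omega), h2⟩) hn3
      have hj' := (mem_JJ hM).1 hj
      rw [Finset.mem_biUnion]
      refine ⟨j, (mem_JJ hM).2 (by omega), Finset.mem_image.2 ⟨n - M * pentagonal j, ?_, by omega⟩⟩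
      rw [hW, Finset.mem_filter, Finset.mem_range]
      refine ⟨by omega, ?_, hz⟩
      obtain ⟨w, hw⟩ := hrM
      have h3 : n = (n - M * pentagonal j) + r * (w * pentagonal j) := by
        have : M * pentagonal j = r * (w * pentagonal j) := by rw [hw]; ring
        omega
      rw [← hn2]
      conv_rhs => rw [h3, Nat.add_mul_mod_self_left]
    refine (Finset.card_le_card h1).trans (Finset.card_biUnion_le_card_mul _ _ _ fun j _ => ?_)
    exact Finset.card_image_le
  set y : ℝ := Real.sqrt (x / M) with hy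
  have hxMr : (M : ℝ) ≤ x := by exact_mod_cast (show M ≤ x by omega)
  have hy1 : 1 ≤ y := by
    rw [hy, Real.one_le_sqrt, one_le_div hMr]
    exact hxMr
  have hyx : (x : ℝ) = M * y ^ 2 := by
    rw [hy, Real.sq_sqrt (by positivity)]
    field_simp
  have hJ : ((JJ M x).card : ℝ) ≤ 3 * y := by
    have h1 : ((JJ M x).card : ℝ) ≤ 2 * (Nat.sqrt (x / M) : ℝ) + 1 := by
      exact_mod_cast card_JJ_le hM x
    have h2 : (Nat.sqrt (x / M) : ℝ) ≤ y := by
      refine Real.nat_sqrt_le_real_sqrt.trans (Real.sqrt_le_sqrt Nat.cast_div_le)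
    linarith
  have hW0 : (0 : ℝ) ≤ W.card := Nat.cast_nonneg _
  have h6 : (x : ℝ) / (16 * r) ≤ 3 * y * W.card := by
    have h7 : (G.card : ℝ) ≤ (JJ M x).card * W.card := by exact_mod_cast hGW
    have h8 := mul_le_mul_of_nonneg_right hJ hW0
    linarith
  -- the end
  have hsM : 48 * r * K ≤ Real.sqrt M := by
    have h1 : (N0 : ℝ) ≤ Real.sqrt M := by
      apply Real.le_sqrt_of_sq_le
      have h2 : N0 ^ 2 ≤ M := by
        have h3 : N0 < 2 ^ N0 := Nat.lt_two_pow_self
        calc N0 ^ 2 ≤ (2 ^ N0) ^ 2 := Nat.pow_le_pow_left h3.le 2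
          _ = 2 ^ (2 * N0) := by rw [← pow_mul, mul_comm]
          _ ≤ 2 ^ i := Nat.pow_le_pow_right (by norm_num) (by omega)
      exact_mod_cast h2
    linarith
  have hsx : Real.sqrt x = Real.sqrt M * y := by
    rw [hyx, Real.sqrt_mul hMr.le, Real.sqrt_sq (by linarith)]
  have hMs : (M : ℝ) = Real.sqrt M * Real.sqrt M := (Real.mul_self_sqrt hMr.le).symm
  have h9 : (M : ℝ) * y ≤ 48 * r * W.card := by
    rw [hyx, div_le_iff₀ (by positivity)] at h6
    have : y * (M * y) ≤ y * (48 * r * W.card) := by nlinarith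
    exact le_of_mul_le_mul_left this (by linarith)
  have h10 : K * Real.sqrt x * (48 * r) ≤ W.card * (48 * r) := by
    rw [hsx]
    have h11 : 48 * r * K * (Real.sqrt M * y) ≤ Real.sqrt M * (Real.sqrt M * y) :=
      mul_le_mul_of_nonneg_right hsM (by positivity)
    rw [← mul_assoc (Real.sqrt M), ← hMs] at h11
    linarith
  exact le_of_mul_le_mul_right h10 (by positivity)

end Pool.Agent.V11172.PT
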