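import Pool.Agent.V11172.PT.Reg3

set_option autoImplicit false

/-!
# Patterns of the coefficients of `f_a / f_b` modulo 2: integer coefficients, regular partitions
-/

namespace Pool.Agent.V11172.PT

open PowerSeries Pool.Agent.TH693.PP Pool.Agent.TH693.QQ Pool.Agent.H397R2.PP Pool.Agent.Y627.PT

theorem reg_inf {a b : ℕ} (ha : a ≠ 0) (hb : b ≠ 0) (hab : a ≠ b) {G : ℤ⟦X⟧}
    (hG : G * eul b = eul a) {L : ℕ} (c : Fin (L + 1) → ZMod 2) (hc : c ≠ 0) (A : ℕ) :
    ∃ n > A, ∑ i : Fin (L + 1), c i * ((coeff (n + i) G : ℤ) : ZMod 2) = 1 := by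
  obtain ⟨C, hC⟩ := eta_distinct (J := Unit) (fun _ => G) (fun _ => (a : ℤ) - b)
    (fun _ => by
      refine ⟨{a, b}, fun d => if d = a then 1 else 0, fun d => if d = b then 1 else 0, ?_, ?_, ?_⟩
      · rw [Finset.mem_insert, Finset.mem_singleton]
        rintro (h | h)
        · exact ha h.symm
        · exact hb h.symm
      · rw [Finset.prod_pair hab, Finset.prod_pair hab]
        simp only [if_true, if_neg hab, if_neg (Ne.symm hab), pow_zero, pow_one, one_mul, mul_one]
        exact hG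
      · rw [Finset.sum_pair hab]
        simp only [if_true, if_neg hab, if_neg (Ne.symm hab)]
        push_cast
        ring)
    (fun _ _ _ => rfl) (fun _ => sub_ne_zero.2 (by exact_mod_cast hab))
  obtain ⟨n, h1, -, h3⟩ := hC L (fun _ => c) (fun h => hc (congrFun h ())) 1 (A + 1)
  refine ⟨n, h1, ?_⟩
  rw [Fintype.sum_unique] at h3
  exact h3

theorem reg_map {a b : ℕ} (ha : a ≠ 0) (hb : b ≠ 0) {G : ℤ⟦X⟧} (hG : G * eul b = eul a) :
    G.map (Int.castRingHom (ZMod 2)) * PowerSeries.expand b hb (pentagonalSeries (ZMod 2)) =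
      PowerSeries.expand a ha (pentagonalSeries (ZMod 2)) := by
  have h := congrArg (PowerSeries.map (Int.castRingHom (ZMod 2))) hG
  rw [map_mul, map_eul hb, map_eul ha] at h
  exact h

theorem reg_main {a b : ℕ} (ha : a ≠ 0) (hb : b ≠ 0) (hab : a ≠ b) {G : ℤ⟦X⟧}
    (hG : G * eul b = eul a) {L : ℕ} (c : Fin (L + 1) → ZMod 2) (hc : c ≠ 0) :
    (∀ ε : ℝ, 0 < ε → ∃ x0 : ℕ, ∀ x : ℕ, x0 ≤ x → (x : ℝ) ^ (1 / 2 - ε) ≤
      (((Finset.range (x + 1)).filter fun n =>
        ∑ i : Fin (L + 1), c i * ((coeff (n + i) G : ℤ) : ZMod 2) = 1).card : ℝ)) ∧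
    ∃ x0 : ℕ, ∀ x : ℕ, x0 ≤ x → Real.sqrt x / 48 ≤ (((Finset.range (x + 1)).filter fun n =>
      ∑ i : Fin (L + 1), c i * ((coeff (n + i) G : ℤ) : ZMod 2) = 0).card : ℝ) := by
  have h1 := reg_map ha hb hG
  have h2 := reg_inf ha hb hab hG c hc
  exact ⟨reg_odd ha hb h1 c h2, reg_even ha hb h1 c⟩

section gen

variable (R : Type*) [CommRing R]

/-- the generating function of the `m`-regular partitions -/
theorem regular_gen {m : ℕ} (hm : m ≠ 0) :
    (PowerSeries.mk fun n => ((Nat.Partition.restricted n (¬ m ∣ ·)).card : R)) *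
      pentagonalSeries R = PowerSeries.expand m hm (pentagonalSeries R) := by
  let _ : TopologicalSpace R := ⊥
  have _ : DiscreteTopology R := ⟨rfl⟩
  open scoped PowerSeries.WithPiTopology in
  have h1 := Nat.Partition.hasProd_powerSeriesMk_card_restricted R (¬ m ∣ ·)
  have h2 := PowerSeries.WithPiTopology.hasProd_one_sub_X_pow R
  have h3 := h1.mul h2
  have h4 : (fun i : ℕ => (if ¬ m ∣ i + 1 then ∑' j : ℕ, (X : R⟦X⟧) ^ ((i + 1) * j) else 1) *
      (1 - X ^ (i + 1))) = fun i : ℕ => if m ∣ i + 1 then 1 - (X : R⟦X⟧) ^ (i + 1) else 1 := by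
    funext i
    by_cases hi : m ∣ i + 1
    · rw [if_neg (not_not.2 hi), if_pos hi, one_mul]
    · rw [if_pos hi, if_neg hi]
      simp_rw [pow_mul]
      exact PowerSeries.WithPiTopology.tsum_pow_mul_one_sub_of_constantCoeff_eq_zero (by simp)
  rw [h4] at h3
  have hcont : Continuous (PowerSeries.expand m hm : R⟦X⟧ →ₐ[R] R⟦X⟧) := by
    rw [continuous_iff_continuousAt]
    intro f
    unfold ContinuousAt
    rw [PowerSeries.WithPiTopology.tendsto_iff_coeff_tendsto]
    intro d
    simp only [PowerSeries.coeff_expand]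
    by_cases hd : m ∣ d
    · simp only [if_pos hd]
      exact (PowerSeries.WithPiTopology.continuous_coeff R (d / m)).tendsto f
    · simp only [if_neg hd]
      exact tendsto_const_nhds
  have h5 := h2.map (PowerSeries.expand m hm : R⟦X⟧ →ₐ[R] R⟦X⟧) hcont
  have hg : Function.Injective (fun i : ℕ => (i + 1) * m - 1) := by
    intro i j h
    have hm1 : 1 ≤ m := Nat.one_le_iff_ne_zero.2 hm
    have h1 : 1 ≤ (i + 1) * m := Nat.mul_pos (Nat.succ_pos _) hm1
    have h2 : 1 ≤ (j + 1) * m := Nat.mul_pos (Nat.succ_pos _) hm1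
    simp only at h
    have h3 : (i + 1) * m = (j + 1) * m := by omega
    have := Nat.eq_of_mul_eq_mul_right hm1 h3
    omega
  have h6 : HasProd (fun i : ℕ => if m ∣ i + 1 then 1 - (X : R⟦X⟧) ^ (i + 1) else 1)
      (PowerSeries.expand m hm (pentagonalSeries R)) := by
    rw [← hg.hasProd_iff]
    · convert h5 using 1
      funext i
      have hm1 : 1 ≤ m := Nat.one_le_iff_ne_zero.2 hm
      have h1 : 1 ≤ (i + 1) * m := Nat.mul_pos (Nat.succ_pos _) hm1
      simp only [Function.comp]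
      rw [Nat.sub_add_cancel h1, if_pos (Dvd.intro_left _ rfl), map_sub, map_one, map_pow,
        PowerSeries.expand_X, ← pow_mul, mul_comm m (i + 1)]
    · intro i hi
      rw [if_neg]
      rintro ⟨k, hk⟩
      apply hi
      have hk0 : k ≠ 0 := by rintro rfl; simp at hk
      obtain ⟨k', rfl⟩ := Nat.exists_eq_succ_of_ne_zero hk0
      refine ⟨k', ?_⟩
      simp only
      have : (k' + 1) * m = i + 1 := by rw [hk, mul_comm]
      omega
  exact h3.unique h6

end gen

theorem eul_eq_expand {m : ℕ} (hm : m ≠ 0) :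
    eul m = PowerSeries.expand m hm (pentagonalSeries ℤ) := by
  ext n
  rw [eul, coeff_mk, PowerSeries.coeff_expand]

theorem eul_one : eul 1 = pentagonalSeries ℤ := by
  ext n
  rw [eul, coeff_mk, if_pos (one_dvd n), Nat.div_one]

end Pool.Agent.V11172.PT
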