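import Pool.Agent.V11172.PT.Theta
import Pool.Agent.V11172.PT.Reg4

set_option autoImplicit false

/-!
# The dissection `1 / (f_1 f_3) = f_8 / f_12 + q f_24 / f_4` modulo 2
-/

namespace Pool.Agent.V11172.PT

open PowerSeries Pool.Agent.TH693.PP Pool.Agent.TH693.QQ Pool.Agent.H397R2.PP Pool.Agent.Y627.PT
open Pool.Agent.H397R2.PP.TH (ind coeff_ind expand_ind isOdd Db_ind)

/-- solutions of `x^2 + 3 y^2 = N` in odd positive integers -/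
def SS (N : ℕ) : Finset (ℕ × ℕ) :=
  (Finset.range (N + 1) ×ˢ Finset.range (N + 1)).filter fun p =>
    p.1 % 2 = 1 ∧ p.2 % 2 = 1 ∧ p.1 ^ 2 + 3 * p.2 ^ 2 = N

theorem mem_SS {N : ℕ} {p : ℕ × ℕ} :
    p ∈ SS N ↔ p.1 % 2 = 1 ∧ p.2 % 2 = 1 ∧ p.1 ^ 2 + 3 * p.2 ^ 2 = N := by
  unfold SS
  rw [Finset.mem_filter, Finset.mem_product, Finset.mem_range, Finset.mem_range]
  constructor
  · exact fun h => h.2
  · intro h
    refine ⟨?_, h⟩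
    constructor <;> nlinarith [h.2.2]

/-- the involution -/
def tau (p : ℕ × ℕ) : ℕ × ℕ :=
  if p.1 % 4 = p.2 % 4 then
    (if 3 * p.2 ≤ p.1 then ((p.1 - 3 * p.2) / 2, (p.1 + p.2) / 2)
      else ((3 * p.2 - p.1) / 2, (p.1 + p.2) / 2))
  else
    (if p.2 ≤ p.1 then ((p.1 + 3 * p.2) / 2, (p.1 - p.2) / 2)
      else ((p.1 + 3 * p.2) / 2, (p.2 - p.1) / 2))

theorem tau_cases {x y : ℕ} (hx : x % 2 = 1) (hy : y % 2 = 1) :
    ∃ x' y' : ℕ, tau (x, y) = (x', y') ∧ x' % 2 = 1 ∧ y' % 2 = 1 ∧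
      ((2 * (x' : ℤ) = x - 3 * y ∧ 2 * (y' : ℤ) = x + y) ∨
       (2 * (x' : ℤ) = 3 * y - x ∧ 2 * (y' : ℤ) = x + y) ∨
       (2 * (x' : ℤ) = x + 3 * y ∧ 2 * (y' : ℤ) = x - y) ∨
       (2 * (x' : ℤ) = x + 3 * y ∧ 2 * (y' : ℤ) = y - x)) := by
  unfold tau
  simp only
  split_ifs with h1 h2 h3
  · exact ⟨_, _, rfl, by omega, by omega, Or.inl ⟨by omega, by omega⟩⟩
  · exact ⟨_, _, rfl, by omega, by omega, Or.inr (Or.inl ⟨by omega, by omega⟩)⟩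
  · exact ⟨_, _, rfl, by omega, by omega, Or.inr (Or.inr (Or.inl ⟨by omega, by omega⟩))⟩
  · exact ⟨_, _, rfl, by omega, by omega, Or.inr (Or.inr (Or.inr ⟨by omega, by omega⟩))⟩

theorem tau_tau {x y : ℕ} (hx : x % 2 = 1) (hy : y % 2 = 1) : tau (tau (x, y)) = (x, y) := by
  unfold tau
  simp only
  split_ifs <;> simp only [Prod.mk.injEq] <;> simp only at * <;> omega

theorem sum_rest (N : ℕ) :
    ∑ _p ∈ (SS N).filter (fun p => p.1 ≠ p.2 ∧ p.1 ≠ 3 * p.2), (1 : ZMod 2) = 0 := by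
  refine Finset.sum_involution (fun p _ => tau p) (fun _ _ => by decide) ?_ ?_ ?_
  · rintro ⟨x, y⟩ hp _ h
    rw [Finset.mem_filter, mem_SS] at hp
    obtain ⟨x', y', h1, h2, h3, h4⟩ := tau_cases hp.1.1 hp.1.2.1
    rw [h1] at h
    simp only [Prod.mk.injEq] at h hp
    omega
  · rintro ⟨x, y⟩ hp
    rw [Finset.mem_filter, mem_SS] at hp
    obtain ⟨x', y', h1, h2, h3, h4⟩ := tau_cases hp.1.1 hp.1.2.1
    rw [h1, Finset.mem_filter, mem_SS]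
    simp only at hp ⊢
    refine ⟨⟨h2, h3, ?_⟩, by omega, by omega⟩
    have h5 : (x : ℤ) ^ 2 + 3 * (y : ℤ) ^ 2 = N := by exact_mod_cast hp.1.2.2
    have h6 : 4 * ((x' : ℤ) ^ 2 + 3 * (y' : ℤ) ^ 2) = 4 * N := by
      have e : 4 * ((x' : ℤ) ^ 2 + 3 * (y' : ℤ) ^ 2) = (2 * (x' : ℤ)) ^ 2 + 3 * (2 * (y' : ℤ)) ^ 2 := by
        ring
      rw [e, ← h5]
      rcases h4 with ⟨e1, e2⟩ | ⟨e1, e2⟩ | ⟨e1, e2⟩ | ⟨e1, e2⟩ <;> rw [e1, e2] <;> ring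
    have h7 : (x' : ℤ) ^ 2 + 3 * (y' : ℤ) ^ 2 = N := by linarith
    exact_mod_cast h7
  · rintro ⟨x, y⟩ hp
    rw [Finset.mem_filter, mem_SS] at hp
    exact tau_tau hp.1.1 hp.1.2.1

end Pool.Agent.V11172.PT
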