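import Pool.Agent.V11172.PT.Dis

set_option autoImplicit false

/-!
# The dissection `1 / (f_1 f_3) = f_8 / f_12 + q f_24 / f_4` modulo 2
-/

namespace Pool.Agent.V11172.PT

open PowerSeries Pool.Agent.TH693.PP Pool.Agent.TH693.QQ Pool.Agent.H397R2.PP Pool.Agent.Y627.PT
open Pool.Agent.H397R2.PP.TH (ind coeff_ind expand_ind isOdd Db_ind)

theorem coeff_db3 (N : ℕ) : coeff N (Db * ex 3 (by norm_num) Db) = ∑ _p ∈ SS N, (1 : ZMod 2) := by
  classical
  rw [ex, Db_ind, expand_ind, coeff_mul]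
  simp only [coeff_ind]
  have h1 : ∀ p ∈ Finset.HasAntidiagonal.antidiagonal N,
      ((if isOdd p.1 then (1 : ZMod 2) else 0) * if ∃ k, p.2 = 3 * k ∧ isOdd k then 1 else 0) =
      if isOdd p.1 ∧ ∃ k, p.2 = 3 * k ∧ isOdd k then 1 else 0 := by
    intro p _
    by_cases h1 : isOdd p.1 <;> by_cases h2 : ∃ k, p.2 = 3 * k ∧ isOdd k <;> simp [h1, h2]
  rw [Finset.sum_congr rfl h1, ← Finset.sum_filter]
  symm
  refine Finset.sum_bij (fun p _ => (p.1 ^ 2, 3 * p.2 ^ 2)) ?_ ?_ ?_ (fun _ _ => rfl)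
  · rintro ⟨x, y⟩ hp
    rw [mem_SS] at hp
    simp only at hp ⊢
    rw [Finset.mem_filter, Finset.HasAntidiagonal.mem_antidiagonal]
    refine ⟨hp.2.2, ⟨x / 2, ?_⟩, y ^ 2, rfl, ⟨y / 2, ?_⟩⟩
    · simp only
      congr 1
      omega
    · congr 1
      omega
  · rintro ⟨x, y⟩ _ ⟨x', y'⟩ _ h
    simp only [Prod.mk.injEq] at h ⊢
    refine ⟨Nat.pow_left_injective (n := 2) (by norm_num) h.1,
      Nat.pow_left_injective (n := 2) (by norm_num) ?_⟩
    simp only
    omega
  · rintro ⟨a, b⟩ hab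
    rw [Finset.mem_filter, Finset.HasAntidiagonal.mem_antidiagonal] at hab
    obtain ⟨h2, ⟨i, hi⟩, k, hk, j, hj⟩ := hab
    simp only at h2 hi hk hj
    refine ⟨(2 * i + 1, 2 * j + 1), ?_, ?_⟩
    · rw [mem_SS]
      simp only
      refine ⟨by omega, by omega, ?_⟩
      rw [← hi, ← hj, ← hk, h2]
    · simp only [Prod.mk.injEq]
      exact ⟨hi.symm, by rw [← hj, hk]⟩

theorem db_id : Db * ex 3 (by norm_num) Db = ex 4 (by norm_num) Db + ex 12 (by norm_num) Db := by
  classical
  ext N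
  rw [coeff_db3, map_add, ex, ex]
  have h0 : ∀ p ∈ SS N, (1 : ZMod 2) = (if p.1 = p.2 then 1 else 0) +
      (if p.1 = 3 * p.2 then 1 else 0) + if p.1 ≠ p.2 ∧ p.1 ≠ 3 * p.2 then 1 else 0 := by
    intro p hp
    rw [mem_SS] at hp
    have : ¬ (p.1 = p.2 ∧ p.1 = 3 * p.2) := by omega
    by_cases h1 : p.1 = p.2
    · have h2 : p.1 ≠ 3 * p.2 := fun h => this ⟨h1, h⟩
      rw [if_pos h1, if_neg h2, if_neg (fun h => h.1 h1)]
      decide
    · by_cases h2 : p.1 = 3 * p.2
      · rw [if_neg h1, if_pos h2, if_neg (fun h => h.2 h2)]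
        decide
      · rw [if_neg h1, if_neg h2, if_pos ⟨h1, h2⟩]
        decide
  rw [Finset.sum_congr rfl h0, Finset.sum_add_distrib, Finset.sum_add_distrib,
    ← Finset.sum_filter (fun p : ℕ × ℕ => p.1 ≠ p.2 ∧ p.1 ≠ 3 * p.2), sum_rest, add_zero, Db_ind,
    expand_ind, expand_ind, coeff_ind, coeff_ind]
  congr 1
  · by_cases h : ∃ k, N = 4 * k ∧ isOdd k
    · rw [if_pos h]
      obtain ⟨k, hk, i, hi⟩ := h
      rw [Finset.sum_eq_single (2 * i + 1, 2 * i + 1)]
      · simp
      · rintro ⟨x, y⟩ hp hne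
        rw [if_neg]
        intro h5
        rw [mem_SS] at hp
        simp only at hp h5
        apply hne
        subst h5
        have h6 : x ^ 2 = (2 * i + 1) ^ 2 := by rw [← hi]; omega
        have h7 : x = 2 * i + 1 := Nat.pow_left_injective (n := 2) (by norm_num) h6
        rw [h7]
      · intro hn
        exfalso
        apply hn
        rw [mem_SS]
        refine ⟨by simp only; omega, by simp only; omega, ?_⟩
        simp only
        rw [← hi]
        omega
    · rw [if_neg h]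
      refine Finset.sum_eq_zero fun p hp => ?_
      rw [if_neg]
      intro h1
      rw [mem_SS] at hp
      apply h
      refine ⟨p.1 ^ 2, ?_, p.1 / 2, ?_⟩
      · rw [← hp.2.2, ← h1]
        ring
      · congr 1
        omega
  · by_cases h : ∃ k, N = 12 * k ∧ isOdd k
    · rw [if_pos h]
      obtain ⟨k, hk, i, hi⟩ := h
      rw [Finset.sum_eq_single (3 * (2 * i + 1), 2 * i + 1)]
      · simp
      · rintro ⟨x, y⟩ hp hne
        rw [if_neg]
        rintro h5
        rw [mem_SS] at hp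
        simp only at hp h5
        apply hne
        subst h5
        have e : (3 * y) ^ 2 = 9 * y ^ 2 := by ring
        have h6 : y ^ 2 = (2 * i + 1) ^ 2 := by rw [← hi]; omega
        have h7 : y = 2 * i + 1 := Nat.pow_left_injective (n := 2) (by norm_num) h6
        rw [h7]
      · intro hn
        exfalso
        apply hn
        rw [mem_SS]
        refine ⟨by simp only; omega, by simp only; omega, ?_⟩
        simp only
        have e : (3 * (2 * i + 1)) ^ 2 = 9 * (2 * i + 1) ^ 2 := by ring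
        rw [e, ← hi]
        omega
    · rw [if_neg h]
      refine Finset.sum_eq_zero fun p hp => ?_
      rw [if_neg]
      intro h1
      rw [mem_SS] at hp
      apply h
      refine ⟨p.2 ^ 2, ?_, p.2 / 2, ?_⟩
      · rw [← hp.2.2, h1]
        ring
      · congr 1
        omega

theorem ex_inj {d : ℕ} (hd : d ≠ 0) {f g : S} (h : ex d hd f = ex d hd g) : f = g := by
  ext n
  have h1 := congrArg (coeff (d * n)) h
  unfold ex at h1
  rw [PowerSeries.coeff_expand_mul, PowerSeries.coeff_expand_mul] at h1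
  exact h1

theorem e_id : E ^ 3 * ex 3 (by norm_num) (E ^ 3) =
    ex 4 (by norm_num) (E ^ 3) + X * ex 12 (by norm_num) (E ^ 3) := by
  have hDb : Db = X * ex 8 (by norm_num) (E ^ 3) := by
    unfold ex
    rw [← pow_eq_expand' 8 3 (by norm_num) (by norm_num), show Db = X * E ^ 24 from rfl, ← pow_mul]
  have h := db_id
  have hX : ∀ (d : ℕ) (hd : d ≠ 0), ex d hd (X : S) = X ^ d := fun d hd => by
    unfold ex
    rw [PowerSeries.expand_X]
  rw [hDb, map_mul, map_mul, map_mul, hX, hX, hX, ex_ex 3 8 24 _ _ (by norm_num) (by norm_num),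
    ex_ex 4 8 32 _ _ (by norm_num) (by norm_num), ex_ex 12 8 96 _ _ (by norm_num) (by norm_num)] at h
  apply ex_inj (d := 8) (by norm_num)
  rw [map_mul, map_add, map_mul, hX, ex_ex 8 3 24 _ _ (by norm_num) (by norm_num),
    ex_ex 8 4 32 _ _ (by norm_num) (by norm_num), ex_ex 8 12 96 _ _ (by norm_num) (by norm_num)]
  have hX4 : (X : S) ^ 4 ≠ 0 := pow_ne_zero _ X_ne_zero
  apply mul_left_cancel₀ hX4
  linear_combination h

end Pool.Agent.V11172.PT
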