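import Pool.Agent.V11172.PT.Dis2

set_option autoImplicit false

/-!
# Partitions with no part congruent to 3 modulo 6
-/

namespace Pool.Agent.V11172.PT

open PowerSeries Pool.Agent.TH693.PP Pool.Agent.TH693.QQ Pool.Agent.H397R2.PP Pool.Agent.Y627.PT

section gen

variable (R : Type*) [CommRing R]

theorem no3_gen :
    (PowerSeries.mk fun n => ((Nat.Partition.restricted n (fun i => i % 6 ≠ 3)).card : R)) *
      pentagonalSeries R * PowerSeries.expand 6 (by norm_num) (pentagonalSeries R) =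
      PowerSeries.expand 3 (by norm_num) (pentagonalSeries R) := by
  let _ : TopologicalSpace R := ⊥
  have _ : DiscreteTopology R := ⟨rfl⟩
  open scoped PowerSeries.WithPiTopology in
  have h1 := Nat.Partition.hasProd_powerSeriesMk_card_restricted R (fun i => i % 6 ≠ 3)
  have h2 := PowerSeries.WithPiTopology.hasProd_one_sub_X_pow R
  have key : ∀ (m : ℕ) (hm : m ≠ 0),
      HasProd (fun i : ℕ => if m ∣ i + 1 then 1 - (X : R⟦X⟧) ^ (i + 1) else 1)
      (PowerSeries.expand m hm (pentagonalSeries R)) := by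
    intro m hm
    have hcont : Continuous (PowerSeries.expand m hm : R⟦X⟧ →ₐ[R] R⟦X⟧) := by
      rw [continuous_iff_continuousAt]
      intro f
      unfold ContinuousAt
      rw [PowerSeries.WithPiTopology.tendsto_iff_coeff_tendsto]
      intro d
      simp only [PowerSeries.coeff_expand]
      by_cases hd : m ∣ d
      · simp only [if_pos hd]
        exact (PowerSeries.WithPiTopology.continuous_coeff R (d / m)).tendsto f
      · simp only [if_neg hd]
        exact tendsto_const_nhds
    have h5 := h2.map (PowerSeries.expand m hm : R⟦X⟧ →ₐ[R] R⟦X⟧) hcont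
    have hg : Function.Injective (fun i : ℕ => (i + 1) * m - 1) := by
      intro i j h
      have hm1 : 1 ≤ m := Nat.one_le_iff_ne_zero.2 hm
      have h1 : 1 ≤ (i + 1) * m := Nat.mul_pos (Nat.succ_pos _) hm1
      have h2 : 1 ≤ (j + 1) * m := Nat.mul_pos (Nat.succ_pos _) hm1
      simp only at h
      have h3 : (i + 1) * m = (j + 1) * m := by omega
      have := Nat.eq_of_mul_eq_mul_right hm1 h3
      omega
    rw [← hg.hasProd_iff]
    · convert h5 using 1
      funext i
      have hm1 : 1 ≤ m := Nat.one_le_iff_ne_zero.2 hm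
      have h1 : 1 ≤ (i + 1) * m := Nat.mul_pos (Nat.succ_pos _) hm1
      simp only [Function.comp]
      rw [Nat.sub_add_cancel h1, if_pos (Dvd.intro_left _ rfl), map_sub, map_one, map_pow,
        PowerSeries.expand_X, ← pow_mul, mul_comm m (i + 1)]
    · intro i hi
      rw [if_neg]
      rintro ⟨k, hk⟩
      apply hi
      have hk0 : k ≠ 0 := by rintro rfl; simp at hk
      obtain ⟨k', rfl⟩ := Nat.exists_eq_succ_of_ne_zero hk0
      refine ⟨k', ?_⟩
      simp only
      have : (k' + 1) * m = i + 1 := by rw [hk, mul_comm]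
      omega
  have h3 := (h1.mul h2).mul (key 6 (by norm_num))
  have h4 : (fun i : ℕ => (if (i + 1) % 6 ≠ 3 then ∑' j : ℕ, (X : R⟦X⟧) ^ ((i + 1) * j) else 1) *
      (1 - X ^ (i + 1)) * if 6 ∣ i + 1 then 1 - (X : R⟦X⟧) ^ (i + 1) else 1) =
      fun i : ℕ => if 3 ∣ i + 1 then 1 - (X : R⟦X⟧) ^ (i + 1) else 1 := by
    funext i
    by_cases hi : (i + 1) % 6 = 3
    · rw [if_neg (not_not.2 hi), if_pos (by omega : 3 ∣ i + 1), if_neg (by omega : ¬ 6 ∣ i + 1),
        one_mul, mul_one]
    · have hgeo : (∑' j : ℕ, (X : R⟦X⟧) ^ ((i + 1) * j)) * (1 - X ^ (i + 1)) = 1 := by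
        simp_rw [pow_mul]
        exact PowerSeries.WithPiTopology.tsum_pow_mul_one_sub_of_constantCoeff_eq_zero (by simp)
      rw [if_pos hi, hgeo, one_mul]
      by_cases h6 : 6 ∣ i + 1
      · rw [if_pos h6, if_pos (by omega : 3 ∣ i + 1)]
      · rw [if_neg h6, if_neg (by omega : ¬ 3 ∣ i + 1)]
  rw [h4] at h3
  exact h3.unique (key 3 (by norm_num))

end gen

/-- the series of `a(n)` modulo 2 -/
noncomputable def A2 : S :=
  PowerSeries.mk fun n => ((Nat.Partition.restricted n (fun i => i % 6 ≠ 3)).card : ZMod 2)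

theorem A2_mul : A2 * E * ex 3 (by norm_num) E = 1 := by
  have h := no3_gen (ZMod 2)
  have h2 : PowerSeries.expand 6 (by norm_num) (pentagonalSeries (ZMod 2)) =
      (ex 3 (by norm_num) E) ^ 2 := by
    have e : (ex 3 (by norm_num) E) ^ 2 = ex 3 (by norm_num) (E ^ 2) := by rw [map_pow]
    rw [e, pow_eq_expand' 2 1 (by norm_num) (by norm_num)]
    exact (ex_ex 3 2 6 (by norm_num) (by norm_num) (by norm_num) (by norm_num) _).symm
  rw [h2] at h
  have hE : ex 3 (by norm_num) E * ex 3 (by norm_num) P = 1 := by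
    rw [← map_mul, mul_comm E P, P_mul_E, map_one]
  have h3 : A2 * E * (ex 3 (by norm_num) E) ^ 2 = ex 3 (by norm_num) E := h
  calc A2 * E * ex 3 (by norm_num) E =
      (A2 * E * (ex 3 (by norm_num) E) ^ 2) * ex 3 (by norm_num) P := by
        linear_combination (-(A2 * E * ex 3 (by norm_num) E)) * hE
    _ = 1 := by rw [h3, hE]

/-- `f_2 / f_3` -/
noncomputable def B0 : S := E ^ 2 * ex 3 (by norm_num) P

/-- `f_6 / f_1` -/
noncomputable def B1 : S := (ex 3 (by norm_num) E) ^ 2 * P

theorem A2_eq : A2 = ex 4 (by norm_num) B0 + X * ex 4 (by norm_num) B1 := by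
  set v := ex 3 (by norm_num) E with hv
  set w := ex 3 (by norm_num) P with hw
  have hvw : v * w = 1 := by
    rw [hv, hw, ← map_mul, mul_comm E P, P_mul_E, map_one]
  have hup : E * P = 1 := by rw [mul_comm, P_mul_E]
  have h4 : ∀ g : S, ex 4 (by norm_num) g = g ^ 4 := fun g =>
    (pow_eq_expand' 4 2 (by norm_num) (by norm_num) g).symm
  have h12 : ex 12 (by norm_num) (E ^ 3) = v ^ 12 := by
    rw [← ex_ex 4 3 12 (by norm_num) (by norm_num) (by norm_num) (by norm_num), h4, map_pow, ← hv,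
      ← pow_mul]
  have hid := e_id
  rw [h12, h4, map_pow, ← hv] at hid
  have hA := A2_mul
  rw [← hv] at hA
  rw [h4, h4, B0, B1, ← hv, ← hw]
  -- multiply by `E v`
  have hEv : (E * v) ^ 4 ≠ 0 := by
    apply pow_ne_zero
    intro h0
    rw [show A2 * E * v = A2 * (E * v) by ring, h0, mul_zero] at hA
    exact one_ne_zero hA.symm
  apply mul_right_cancel₀ hEv
  have e1 : A2 * (E * v) ^ 4 = E ^ 3 * v ^ 3 := by
    calc A2 * (E * v) ^ 4 = (A2 * E * v) * (E ^ 3 * v ^ 3) := by ring
      _ = _ := by rw [hA, one_mul]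
  have e2 : ((E ^ 2 * w) ^ 4 + X * (v ^ 2 * P) ^ 4) * (E * v) ^ 4 =
      E ^ 12 * (v * w) ^ 4 + X * v ^ 12 * (E * P) ^ 4 := by ring
  rw [e1, e2, hvw, hup, one_pow, mul_one, mul_one]
  rw [show (E ^ 3) ^ 4 = E ^ 12 by ring] at hid
  exact hid

theorem coeff_A2_0 (n : ℕ) : coeff (4 * n) A2 = coeff n B0 := by
  rw [A2_eq, map_add]
  unfold ex
  rw [PowerSeries.coeff_expand_mul]
  rcases n with _ | n
  · rw [mul_zero, coeff_zero_X_mul, add_zero]
  · rw [show 4 * (n + 1) = (4 * n + 3) + 1 by ring, coeff_succ_X_mul, PowerSeries.coeff_expand,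
      if_neg (by omega), add_zero]

theorem coeff_A2_1 (n : ℕ) : coeff (4 * n + 1) A2 = coeff n B1 := by
  rw [A2_eq, map_add, coeff_succ_X_mul]
  unfold ex
  rw [PowerSeries.coeff_expand_mul, PowerSeries.coeff_expand, if_neg (by omega), zero_add]

/-- an inverse of `f_d` over the integers -/
noncomputable def inv (d : ℕ) (hd : d ≠ 0) : ℤ⟦X⟧ :=
  PowerSeries.expand d hd (PowerSeries.mk fun n => (Fintype.card (Nat.Partition n) : ℤ))

theorem eul_inv (d : ℕ) (hd : d ≠ 0) : inv d hd * eul d = 1 := by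
  rw [eul_eq_expand hd, inv, ← map_mul, mk_card_mul_pentagonalSeries, map_one]

theorem B0_rel : B0 * PowerSeries.expand 3 (by norm_num) (pentagonalSeries (ZMod 2)) =
    PowerSeries.expand 2 (by norm_num) (pentagonalSeries (ZMod 2)) := by
  show E ^ 2 * ex 3 (by norm_num) P * ex 3 (by norm_num) E = _
  rw [mul_assoc, ← map_mul, P_mul_E, map_one, mul_one]
  exact pow_eq_expand' 2 1 (by norm_num) (by norm_num) E

theorem B1_rel : B1 * PowerSeries.expand 1 (by norm_num) (pentagonalSeries (ZMod 2)) =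
    PowerSeries.expand 6 (by norm_num) (pentagonalSeries (ZMod 2)) := by
  have e : (ex 3 (by norm_num) E) ^ 2 =
      PowerSeries.expand 6 (by norm_num) (pentagonalSeries (ZMod 2)) := by
    have e : (ex 3 (by norm_num) E) ^ 2 = ex 3 (by norm_num) (E ^ 2) := by rw [map_pow]
    rw [e, pow_eq_expand' 2 1 (by norm_num) (by norm_num)]
    exact (ex_ex 3 2 6 (by norm_num) (by norm_num) (by norm_num) (by norm_num) _)
  rw [B1, e, PowerSeries.expand_one_apply, mul_assoc, show pentagonalSeries (ZMod 2) = E from rfl,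
    P_mul_E, mul_one]

theorem B_eq {a b : ℕ} (ha : a ≠ 0) (hb : b ≠ 0) {B : S}
    (hB : B * PowerSeries.expand b hb (pentagonalSeries (ZMod 2)) =
      PowerSeries.expand a ha (pentagonalSeries (ZMod 2))) :
    B = (eul a * inv b hb).map (Int.castRingHom (ZMod 2)) := by
  have h1 : (eul a * inv b hb) * eul b = eul a := by rw [mul_assoc, eul_inv, mul_one]
  have h2 := reg_map ha hb h1
  rw [← hB] at h2
  refine (mul_right_cancel₀ ?_ h2).symm
  intro h0
  have h3 : ex b hb (P * E) = 0 := by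
    rw [map_mul, show ex b hb E = PowerSeries.expand b hb (pentagonalSeries (ZMod 2)) from rfl, h0,
      mul_zero]
  rw [P_mul_E, map_one] at h3
  exact one_ne_zero h3

end Pool.Agent.V11172.PT
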