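import Pool.Agent.V11172.PT.Dis3

set_option autoImplicit false

/-!
# Partitions with no part congruent to 3 modulo 6: the theorem
-/

namespace Pool.Agent.V11172.PT

open PowerSeries Pool.Agent.TH693.PP Pool.Agent.TH693.QQ Pool.Agent.H397R2.PP Pool.Agent.Y627.PT

/-- the number of partitions of `n` with no part congruent to 3 modulo 6 -/
def aa (n : ℕ) : ℕ :=
  ((Finset.univ : Finset (Nat.Partition n)).filter fun p => ∀ i ∈ p.parts, i % 6 ≠ 3).card

/-- `f_2 / f_3` and `f_6 / f_1` over the integers -/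
noncomputable def GG (r : Fin 2) : ℤ⟦X⟧ :=
  if r = 0 then eul 2 * inv 3 (by norm_num) else eul 6 * inv 1 (by norm_num)

/-- `f_2 / f_3` and `f_6 / f_1` modulo 2 -/
noncomputable def BB (r : Fin 2) : S := if r = 0 then B0 else B1

theorem BB_coeff (r : Fin 2) (n : ℕ) : coeff n (BB r) = (aa (4 * n + r) : ZMod 2) := by
  have h : ∀ m, (aa m : ZMod 2) = coeff m A2 := fun m => by
    rw [A2, coeff_mk]
    rfl
  fin_cases r
  · show coeff n B0 = (aa (4 * n) : ZMod 2)
    rw [h, coeff_A2_0]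
  · show coeff n B1 = (aa (4 * n + 1) : ZMod 2)
    rw [h, coeff_A2_1]

theorem BB_GG (r : Fin 2) (n : ℕ) : ((coeff n (GG r) : ℤ) : ZMod 2) = coeff n (BB r) := by
  fin_cases r
  · show ((coeff n (eul 2 * inv 3 (by norm_num)) : ℤ) : ZMod 2) = coeff n B0
    rw [B_eq (by norm_num) (by norm_num) B0_rel, PowerSeries.coeff_map]
    rfl
  · show ((coeff n (eul 6 * inv 1 (by norm_num)) : ℤ) : ZMod 2) = coeff n B1
    rw [B_eq (by norm_num) (by norm_num) B1_rel, PowerSeries.coeff_map]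
    rfl

theorem eta_pair {a b : ℕ} (ha : a ≠ 0) (hb : b ≠ 0) (hab : a ≠ b) {G : ℤ⟦X⟧}
    (hG : G * eul b = eul a) : ∃ (E : Finset ℕ) (u v : ℕ → ℕ), 0 ∉ E ∧
      G * ∏ d ∈ E, eul d ^ v d = ∏ d ∈ E, eul d ^ u d ∧
      (a : ℤ) - b = ∑ d ∈ E, (d : ℤ) * ((u d : ℤ) - v d) := by
  refine ⟨{a, b}, fun d => if d = a then 1 else 0, fun d => if d = b then 1 else 0, ?_, ?_, ?_⟩
  · rw [Finset.mem_insert, Finset.mem_singleton]
    rintro (h | h)
    · exact ha h.symm
    · exact hb h.symm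
  · rw [Finset.prod_pair hab, Finset.prod_pair hab]
    simp only [if_true, if_neg hab, if_neg (Ne.symm hab), pow_zero, pow_one, one_mul, mul_one]
    exact hG
  · rw [Finset.sum_pair hab]
    simp only [if_true, if_neg hab, if_neg (Ne.symm hab)]
    push_cast
    ring

theorem no3_joint : ∃ C : ℕ, ∀ (L : ℕ) (c : Fin 2 → Fin (L + 1) → ZMod 2), c ≠ 0 →
    ∀ (κ : ZMod 2) (A : ℕ), ∃ n, A ≤ n ∧ n ≤ C * (A + L + 1) ∧
      ∑ r : Fin 2, ∑ i : Fin (L + 1), c r i * (aa (4 * (n + i) + r) : ZMod 2) = κ := by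
  obtain ⟨C, hC⟩ := eta_distinct GG (fun r => if r = 0 then -1 else 5)
    (fun r => by
      fin_cases r
      · exact eta_pair (a := 2) (b := 3) (by norm_num) (by norm_num) (by norm_num)
          (by
            show eul 2 * inv 3 (by norm_num) * eul 3 = eul 2
            rw [mul_assoc, eul_inv, mul_one])
      · exact eta_pair (a := 6) (b := 1) (by norm_num) (by norm_num) (by norm_num)
          (by
            show eul 6 * inv 1 (by norm_num) * eul 1 = eul 6
            rw [mul_assoc, eul_inv, mul_one]))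
    (by
      intro r s h
      fin_cases r <;> fin_cases s <;> simp at h ⊢)
    (by
      intro r
      fin_cases r <;> simp)
  refine ⟨C, fun L c hc κ A => ?_⟩
  obtain ⟨n, h1, h2, h3⟩ := hC L c hc κ A
  refine ⟨n, h1, h2, ?_⟩
  rw [← h3]
  refine Finset.sum_congr rfl fun r _ => Finset.sum_congr rfl fun i _ => ?_
  rw [BB_GG, BB_coeff]

theorem no3_count (r : Fin 2) (L : ℕ) (c : Fin (L + 1) → ZMod 2) (hc : c ≠ 0) :
    (∀ ε : ℝ, 0 < ε → ∃ x0 : ℕ, ∀ x : ℕ, x0 ≤ x → (x : ℝ) ^ (1 / 2 - ε) ≤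
      (((Finset.range (x + 1)).filter fun n =>
        ∑ i : Fin (L + 1), c i * (aa (4 * (n + i) + r) : ZMod 2) = 1).card : ℝ)) ∧
    ∃ x0 : ℕ, ∀ x : ℕ, x0 ≤ x → Real.sqrt x / 48 ≤ (((Finset.range (x + 1)).filter fun n =>
      ∑ i : Fin (L + 1), c i * (aa (4 * (n + i) + r) : ZMod 2) = 0).card : ℝ) := by
  have h : ∀ n, ∑ i : Fin (L + 1), c i * (aa (4 * (n + i) + r) : ZMod 2) =
      ∑ i : Fin (L + 1), c i * coeff (n + i) (BB r) := fun n =>
    Finset.sum_congr rfl fun i _ => by rw [BB_coeff]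
  simp only [h]
  have hinf : ∀ A : ℕ, ∃ n > A, ∑ i : Fin (L + 1), c i * coeff (n + i) (BB r) = 1 := by
    intro A
    obtain ⟨C, hC⟩ := no3_joint
    obtain ⟨n, h1, -, h3⟩ := hC L (Function.update 0 r c) (fun h0 => hc (by
      have := congrFun h0 r
      rwa [Function.update_self] at this)) 1 (A + 1)
    refine ⟨n, h1, ?_⟩
    rw [Finset.sum_eq_single r] at h3
    · rw [Function.update_self, h] at h3
      exact h3
    · intro s _ hs
      rw [Function.update_of_ne hs]
      simp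
    · intro h0
      exact absurd (Finset.mem_univ r) h0
  revert h hinf
  fin_cases r
  · intro _ hinf
    exact ⟨reg_odd (a := 2) (b := 3) (by norm_num) (by norm_num) B0_rel c hinf,
      reg_even (a := 2) (b := 3) (by norm_num) (by norm_num) B0_rel c⟩
  · intro _ hinf
    exact ⟨reg_odd (a := 6) (b := 1) (by norm_num) (by norm_num) B1_rel c hinf,
      reg_even (a := 6) (b := 1) (by norm_num) (by norm_num) B1_rel c⟩

end Pool.Agent.V11172.PT
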