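import Pool.Agent.V11172.PT.AllT
import Pool.Agent.Y627.PT.Gen

set_option autoImplicit false

/-!
# Linear independence of functions `X ^ (- s / 24) κ` with distinct `s` and constant term 1
-/

namespace Pool.Agent.V11172.PT

open PowerSeries Pool.Agent.TH693.PP Pool.Agent.TH693.QQ Pool.Agent.H397R2.PP Pool.Agent.Y627.PT

theorem indep {J : Type} [Fintype J] (g : J → S) (s : J → ℤ)
    (hg : ∀ j, AZ (T5.jj (g j)) (-(s j))) (h1 : ∀ j, constantCoeff (g j) = 1)
    (hinj : Function.Injective s) (A : J → F) (hrel : ∑ j, io (A j) * g j = 0) (j0 : J) :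
    A j0 = 0 := by
  classical
  set σ : ℕ := ∑ j, (s j).natAbs with hσ
  have hsσ : ∀ j, (s j).natAbs ≤ σ := fun j => Finset.single_le_sum (f := fun j => (s j).natAbs)
    (fun _ _ => Nat.zero_le _) (Finset.mem_univ j)
  set e : J → ℕ := fun j => (24 * (σ : ℤ) - s j).toNat with he
  have hez : ∀ j, (e j : ℤ) = 24 * (σ : ℤ) - s j := by
    intro j
    have := hsσ j
    rw [he]
    simp only
    rw [Int.toNat_of_nonneg (by omega)]
  have hALX : ∀ j, ALX (X ^ σ * g j) (e j) := by
    intro j
    apply alx_of_az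
    have h2 := az_mul (az_x σ) (hg j)
    rw [map_mul, map_pow, hez, sub_eq_add_neg]
    exact h2
  have hrel' : ∑ j, io (A j) * (X ^ σ * g j) + io 0 = 0 := by
    have h2 : ∑ j, io (A j) * (X ^ σ * g j) = X ^ σ * ∑ j, io (A j) * g j := by
      rw [Finset.mul_sum]
      exact Finset.sum_congr rfl fun j _ => by ring
    rw [h2, hrel, mul_zero, map_zero, add_zero]
  have hsp := lin0 QC.qc _ (fun j => X ^ σ * g j) e hALX A 0 hrel'
  ext m
  rw [Polynomial.coeff_zero]
  by_contra hm
  set E0 := 24 * m + e j0 with hE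
  have hspE := hsp E0
  rw [Polynomial.coeff_zero, map_zero, map_zero, ite_self, add_zero] at hspE
  set a : J → ZMod 2 := fun j => if e j ≤ E0 ∧ 24 ∣ E0 - e j then
    (A j).coeff ((E0 - e j) / 24) else 0 with ha
  have ha0 : a j0 ≠ 0 := by
    rw [ha]
    simp only
    rw [if_pos ⟨by omega, by rw [hE, Nat.add_sub_cancel]; exact Dvd.intro _ rfl⟩, hE,
      Nat.add_sub_cancel, Nat.mul_div_cancel_left _ (by norm_num)]
    exact hm
  obtain ⟨j1, hj1, hmin⟩ := Finset.exists_min_image (Finset.univ.filter fun j => a j ≠ 0) s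
    ⟨j0, Finset.mem_filter.2 ⟨Finset.mem_univ _, ha0⟩⟩
  rw [Finset.mem_filter] at hj1
  have hcond : e j1 ≤ E0 ∧ 24 ∣ E0 - e j1 := by
    by_contra h2
    exact hj1.2 (if_neg h2)
  set N := (E0 - e j1) / 24 + σ with hN
  have hco := congrArg (coeff N) hspE
  rw [map_sum] at hco
  have e1 : ∀ j, coeff N (if e j ≤ E0 ∧ 24 ∣ E0 - e j then
      io (Polynomial.monomial ((E0 - e j) / 24) ((A j).coeff ((E0 - e j) / 24))) *
        (X ^ σ * g j) else 0) = if j = j1 then a j1 else 0 := by
    intro j
    by_cases h2 : e j ≤ E0 ∧ 24 ∣ E0 - e j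
    · rw [if_pos h2, io_mono_coeff]
      by_cases h3 : j = j1
      · subst h3
        rw [if_pos rfl, if_pos (by omega), hN, Nat.add_sub_cancel_left, ha]
        simp only
        rw [if_pos h2]
        have h4 := PowerSeries.coeff_X_pow_mul (g j) σ 0
        rw [zero_add] at h4
        rw [h4, PowerSeries.coeff_zero_eq_constantCoeff_apply, h1, mul_one]
      · rw [if_neg h3]
        by_cases h4 : a j = 0
        · rw [ha] at h4
          simp only at h4
          rw [if_pos h2] at h4
          rw [h4, zero_mul, ite_self]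
        · have h5 := hmin j (Finset.mem_filter.2 ⟨Finset.mem_univ _, h4⟩)
          have h6 : s j1 ≠ s j := fun h => h3 (hinj h).symm
          have h7 : s j1 < s j := lt_of_le_of_ne h5 h6
          have h8 := hez j
          have h9 := hez j1
          obtain ⟨u, hu⟩ := h2.2
          obtain ⟨v, hv⟩ := hcond.2
          have h10 : (E0 - e j) / 24 = u := by rw [hu, Nat.mul_div_cancel_left _ (by norm_num)]
          have h11 : (E0 - e j1) / 24 = v := by rw [hv, Nat.mul_div_cancel_left _ (by norm_num)]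
          have h12 := h2.1
          have h13 := hcond.1
          rw [hN, h10, h11]
          split_ifs with h14
          · rw [PowerSeries.coeff_X_pow_mul', if_neg, mul_zero]
            omega
          · rfl
    · rw [if_neg h2, map_zero, if_neg]
      rintro rfl
      exact h2 hcond
  rw [Finset.sum_congr rfl fun j _ => e1 j, map_zero, Finset.sum_ite_eq' Finset.univ j1,
    if_pos (Finset.mem_univ _)] at hco
  exact hj1.2 hco

theorem mem_of_any {g : S} {s : ℤ} (h : AZ (T5.jj g) (-s)) :
    T5.jj g ∈ QE2.cl (ZMod 2) {T5.jj X, T5.jj Db} := mem_of_az h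

theorem distinct {J : Type} [Fintype J] (g : J → S) (s : J → ℤ)
    (hg : ∀ j, AZ (T5.jj (g j)) (-(s j))) (h1 : ∀ j, constantCoeff (g j) = 1)
    (hinj : Function.Injective s) (hs0 : ∀ j, s j ≠ 0) :
    ∃ C : ℕ, ∀ (L : ℕ) (c : J → Fin (L + 1) → ZMod 2), c ≠ 0 → ∀ (κ : ZMod 2) (A : ℕ),
      ∃ n, A ≤ n ∧ n ≤ C * (A + L + 1) ∧
        ∑ j, ∑ i : Fin (L + 1), c j i * coeff (n + i) (g j) = κ := by
  classical
  obtain ⟨C, hC1, hC⟩ := run_rel g (lf Pool.Agent.Y38.PT6.clo mtDb g fun j =>
    T5.algOver_of_mem (mem_of_any (hg j)))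
  refine ⟨C, fun L c hc κ A => ?_⟩
  by_contra hcon
  push Not at hcon
  obtain ⟨q0, -, hrel⟩ := hC L c (κ + 1) A (fun n h2 h3 =>
    (by decide : ∀ x y : ZMod 2, x ≠ y → x = y + 1) _ _ (hcon n h2 h3))
  have hind := indep (J := Option J) (fun j => j.elim 1 g) (fun j => j.elim 0 s) (by
      rintro (_ | j)
      · simp only [Option.elim_none]
        have h2 := az_x 0
        simpa using h2
      · exact hg j) (by
      rintro (_ | j)
      · simp
      · exact h1 j) (by
      rintro (_ | i) (_ | j) h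
      · rfl
      · exact absurd h.symm (hs0 j)
      · exact absurd h (hs0 i)
      · exact congrArg some (hinj h))
    (fun j => j.elim q0 fun j => U * pol (c j)) (by
      rw [Fintype.sum_option]
      simp only [Option.elim_none, Option.elim_some]
      rw [mul_one, add_comm]
      exact hrel)
  apply hc
  funext j
  by_contra h2
  exact mul_ne_zero U_ne (pol_ne h2) (hind (some j))

end Pool.Agent.V11172.PT
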