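import Pool.Agent.V11172.PT.Dist
import Pool.Agent.Y627.PT.Eta

set_option autoImplicit false

/-!
# Eta-quotients with distinct nonzero `s`
-/

namespace Pool.Agent.V11172.PT

open PowerSeries Pool.Agent.TH693.PP Pool.Agent.TH693.QQ Pool.Agent.H397R2.PP Pool.Agent.Y627.PT

theorem const_pent : constantCoeff (pentagonalSeries ℤ) = 1 := by
  have h := coeff_pentagonalSeries_pentagonal (R := ℤ) 0
  have h2 : pentagonal 0 = 0 := by simp [pentagonal]
  rw [h2] at h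
  rw [← PowerSeries.coeff_zero_eq_constantCoeff_apply, h]
  simp

theorem const_eul (d : ℕ) : constantCoeff (eul d) = 1 := by
  rw [← PowerSeries.coeff_zero_eq_constantCoeff_apply, eul, coeff_mk, if_pos (dvd_zero d),
    Nat.zero_div, PowerSeries.coeff_zero_eq_constantCoeff_apply]
  exact const_pent

theorem const_eta {G : ℤ⟦X⟧} {E : Finset ℕ} {u v : ℕ → ℕ}
    (h : G * ∏ d ∈ E, eul d ^ v d = ∏ d ∈ E, eul d ^ u d) : constantCoeff G = 1 := by
  have h1 := congrArg constantCoeff h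
  have h2 : ∀ w : ℕ → ℕ, constantCoeff (∏ d ∈ E, eul d ^ w d) = 1 := by
    intro w
    rw [map_prod]
    exact Finset.prod_eq_one fun d _ => by rw [map_pow, const_eul, one_pow]
  rw [map_mul, h2, h2, mul_one] at h1
  exact h1

theorem eta_distinct {J : Type} [Fintype J] (G : J → ℤ⟦X⟧) (s : J → ℤ)
    (hG : ∀ j, ∃ (E : Finset ℕ) (u v : ℕ → ℕ), 0 ∉ E ∧
      G j * ∏ d ∈ E, eul d ^ v d = ∏ d ∈ E, eul d ^ u d ∧
      s j = ∑ d ∈ E, (d : ℤ) * ((u d : ℤ) - v d))
    (hinj : Function.Injective s) (hs0 : ∀ j, s j ≠ 0) :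
    ∃ C : ℕ, ∀ (L : ℕ) (c : J → Fin (L + 1) → ZMod 2), c ≠ 0 → ∀ (κ : ZMod 2) (A : ℕ),
      ∃ n, A ≤ n ∧ n ≤ C * (A + L + 1) ∧
        ∑ j, ∑ i : Fin (L + 1), c j i * ((coeff (n + i) (G j) : ℤ) : ZMod 2) = κ := by
  refine distinct (fun j => (G j).map (Int.castRingHom (ZMod 2))) s (fun j => ?_) (fun j => ?_)
    hinj hs0
  · obtain ⟨E, u, v, hE, hrel, hs⟩ := hG j
    have h3 := sec_eta E u v hE (G j) hrel 1 0 one_pos
    rw [proj_one, ← hs] at h3
    exact h3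
  · obtain ⟨E, u, v, hE, hrel, hs⟩ := hG j
    rw [← PowerSeries.coeff_zero_eq_constantCoeff_apply, PowerSeries.coeff_map,
      PowerSeries.coeff_zero_eq_constantCoeff_apply, const_eta hrel]
    simp

end Pool.Agent.V11172.PT
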