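import Pool.Agent.V11172.PT.Frac
import Pool.Agent.Y627.PT.Sec

set_option autoImplicit false

/-!
# Multipartitions modulo 2 and functions that are polynomials in `X` over the algebraic closure of
`F_2(D)`
-/

namespace Pool.Agent.V11172.PT

open PowerSeries Pool.Agent.TH693.PP Pool.Agent.TH693.QQ Pool.Agent.H397R2.PP Pool.Agent.Y627.PT
open Pool.Agent.Y517.PT (Kc mem_Kc eq_zero_of_root Om X_notMem cl_comap cl_map eval_io)

/-- polynomials in `X` with coefficients algebraic over `F_2(D)` -/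
noncomputable def Nb : Subalgebra (Kc (ZMod 2) (T5.jj Db)) Lk :=
  Algebra.adjoin (Kc (ZMod 2) (T5.jj Db)) {T5.jj X}

theorem nb_cl {g : S} (h : T5.jj g ∈ QE2.cl (ZMod 2) {T5.jj Db}) : T5.jj g ∈ Nb :=
  Subalgebra.algebraMap_mem Nb (⟨T5.jj g, mem_Kc.2 h⟩ : Kc (ZMod 2) (T5.jj Db))

theorem nb_az {g : S} (h : AZ (T5.jj g) 0) : T5.jj g ∈ Nb := by
  apply nb_cl
  apply QE2.of_pow_mem (n := 24) (by norm_num)
  unfold AZ at h
  rwa [neg_zero, zpow_zero, mul_one] at h

theorem nb_X : T5.jj X ∈ Nb := Algebra.subset_adjoin (Set.mem_singleton _)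

theorem nb_mem {z : Lk} (h : z ∈ Nb) : z ∈ QE2.cl (ZMod 2) {T5.jj X, T5.jj Db} := by
  unfold Nb at h
  induction h using Algebra.adjoin_induction with
  | mem x hx =>
    rw [Set.mem_singleton_iff.1 hx]
    exact QE2.self_mem (by simp)
  | algebraMap r => exact QE2.cl_mono (by simp) (mem_Kc.1 r.2)
  | add x y _ _ hx hy => exact QE2.mem_cl.2 ((QE2.mem_cl.1 hx).add (QE2.mem_cl.1 hy))
  | mul x y _ _ hx hy => exact QE2.mul_mem' hx hy

/-- the embedding of `Lk` -/
noncomputable abbrev ee : Lk →ₐ[ZMod 2] Om := Pool.Agent.Y517.PT.e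

theorem nb_poly {z : Lk} (h : z ∈ Nb) : ∃ Q : Polynomial Om,
    (∀ n, Q.coeff n ∈ QE2.cl (ZMod 2) {ee (T5.jj Db)}) ∧ Q.eval (ee (T5.jj X)) = ee z := by
  unfold Nb at h
  rw [Algebra.adjoin_singleton_eq_range_aeval (Kc (ZMod 2) (T5.jj Db)) (T5.jj X)] at h
  obtain ⟨Q, hQ⟩ := h
  refine ⟨Q.map ((ee : Lk →+* Om).comp (algebraMap (Kc (ZMod 2) (T5.jj Db)) Lk)), fun n => ?_, ?_⟩
  · rw [Polynomial.coeff_map]
    exact cl_map ee (mem_Kc.1 (Q.coeff n).2)
  · rw [Polynomial.eval_map, ← hQ]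
    exact (Polynomial.hom_eval₂ Q (algebraMap (Kc (ZMod 2) (T5.jj Db)) Lk) (ee : Lk →+* Om)
      (T5.jj X)).symm

theorem PD : X = Db * P ^ 24 := by
  have h1 : P * E = 1 := P_mul_E
  have h2 : Db = X * E ^ 24 := rfl
  rw [h2, mul_assoc, ← mul_pow, mul_comm E P, h1, one_pow, mul_one]

theorem mpf (T : Finset ℕ) (hT : ∀ t ∈ T, ¬ 24 ∣ t) (k : ℕ) (h : Fin k → S)
    (hh : ∀ j, T5.jj (h j) ∈ Nb) :
    ∃ C : ℕ, ∀ (L : ℕ) (c : ℕ → Fin (L + 1) → ZMod 2) (b : Fin k → Fin (L + 1) → ZMod 2),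
      (∃ t ∈ T, c t ≠ 0) → ∀ (κ : ZMod 2) (A : ℕ), ∃ n, A ≤ n ∧ n ≤ C * (A + L + 1) ∧
        ∑ t ∈ T, ∑ i : Fin (L + 1), c t i * coeff (n + i) (P ^ t) +
          ∑ j, ∑ i : Fin (L + 1), b j i * coeff (n + i) (h j) = κ := by
  classical
  set f : {t // t ∈ T} ⊕ Fin k → S := Sum.elim (fun t => P ^ (t : ℕ)) h with hf
  have hAO : ∀ j, AlgOver Db (f j) := by
    rintro (t | j)
    · exact algOver_P_pow t
    · exact T5.algOver_of_mem (nb_mem (hh j))
  obtain ⟨C, hC1, hC⟩ := run_rel f (lf Pool.Agent.Y38.PT6.clo mtDb f hAO)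
  refine ⟨C, fun L c b hc κ A => ?_⟩
  by_contra hcon
  push Not at hcon
  set c' : {t // t ∈ T} ⊕ Fin k → Fin (L + 1) → ZMod 2 := Sum.elim (fun t => c t) b with hc'
  obtain ⟨q0, -, hrel⟩ := hC L c' (κ + 1) A (fun n h1 h2 => by
    have h3 := (by decide : ∀ x y : ZMod 2, x ≠ y → x = y + 1) _ _ (hcon n h1 h2)
    rw [← h3, Fintype.sum_sum_type]
    congr 1
    exact (Finset.sum_coe_sort T (fun t => ∑ i : Fin (L + 1), c t i * coeff (n + i) (P ^ t))))
  rw [Fintype.sum_sum_type] at hrel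
  simp only [hf, hc', Sum.elim_inl, Sum.elim_inr] at hrel
  rw [Finset.sum_coe_sort T (fun t => io (U * pol (c t)) * P ^ t)] at hrel
  -- the setting
  obtain ⟨xi, hxi⟩ : ∃ xi : Om, xi ^ 24 = ee (T5.jj X) :=
    IsAlgClosed.exists_pow_nat_eq (ee (T5.jj X)) (by norm_num)
  set d : Om := ee (T5.jj Db) with hd
  have hX : ee (T5.jj X) ∉ QE2.cl (ZMod 2) {d} := fun h => X_notMem QC.qc (cl_comap ee h)
  have hxiK : xi ∉ QE2.cl (ZMod 2) {d} := fun h => hX (hxi ▸ QE2.pow_mem' h 24)
  have hx0 : ee (T5.jj X) ≠ 0 := fun h0 => PowerSeries.X_ne_zero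
    ((map_eq_zero_iff T5.jj T5.jj_inj).1 ((map_eq_zero ee.toRingHom).1 h0))
  have hxi0 : xi ≠ 0 := by
    rintro rfl
    rw [zero_pow (by norm_num)] at hxi
    exact hx0 hxi.symm
  set de : Om := ee (T5.jj P) / xi with hde
  have hdx : de * xi = ee (T5.jj P) := div_mul_cancel₀ _ hxi0
  have hde24 : d * de ^ 24 = 1 := by
    have h1 := congrArg (fun z => ee (T5.jj z)) PD
    simp only [map_mul, map_pow] at h1
    rw [hde, div_pow, hxi, ← mul_div_assoc, hd, ← h1, div_self hx0]
  have hd0 : d ≠ 0 := by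
    intro h0
    rw [h0, zero_mul] at hde24
    exact zero_ne_one hde24
  have hdeK : de ∈ QE2.cl (ZMod 2) {d} := by
    apply QE2.of_pow_mem (n := 24) (by norm_num)
    rw [eq_inv_of_mul_eq_one_right hde24]
    exact QE2.inv_mem' (QE2.self_mem (Set.mem_singleton _))
  have hdeT : de ∉ QE2.cl (ZMod 2) (∅ : Set Om) := by
    intro h1
    have h2 : d ∈ QE2.cl (ZMod 2) (∅ : Set Om) := by
      rw [eq_inv_of_mul_eq_one_left hde24]
      exact QE2.inv_mem' (QE2.pow_mem' h1 24)
    obtain ⟨n, hn, hn1⟩ := QE2.root_of_unity hd0 h2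
    have h3 : Db ^ n = 1 := by
      apply T5.jj_inj
      apply ee.toRingHom.injective
      change ee (T5.jj (Db ^ n)) = ee (T5.jj 1)
      rw [map_pow, map_pow, map_one, map_one]
      exact hn1
    have h4 := congrArg (constantCoeff) h3
    have h5 : constantCoeff Db = 0 := by
      rw [show Db = X * E ^ 24 from rfl, map_mul, constantCoeff_X, zero_mul]
    rw [map_pow, map_one, h5, zero_pow hn.ne'] at h4
    exact zero_ne_one h4
  -- the polynomials
  set q : F → Polynomial Om := fun f => Polynomial.expand Om 24 (f.map (algebraMap (ZMod 2) Om))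
    with hq
  have hKalg : ∀ x : ZMod 2, algebraMap (ZMod 2) Om x ∈ Kc (ZMod 2) d := fun x =>
    Subalgebra.algebraMap_mem (Kc (ZMod 2) d) (algebraMap (ZMod 2) (Algebra.adjoin (ZMod 2) {d}) x)
  choose Qh hQh1 hQh2 using fun j => nb_poly (hh j)
  set R : Polynomial Om := ∑ j, (U * pol (b j)).map (algebraMap (ZMod 2) Om) * Qh j +
    q0.map (algebraMap (ZMod 2) Om) with hR
  have hRK : ∀ n, R.coeff n ∈ Kc (ZMod 2) d := by
    intro n
    rw [hR, Polynomial.coeff_add, Polynomial.finsetSum_coeff]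
    refine Subalgebra.add_mem _ (Subalgebra.sum_mem _ fun j _ => ?_) ?_
    · rw [Polynomial.coeff_mul]
      refine Subalgebra.sum_mem _ fun x _ => Subalgebra.mul_mem _ ?_ (mem_Kc.2 (hQh1 j _))
      rw [Polynomial.coeff_map]
      exact hKalg _
    · rw [Polynomial.coeff_map]
      exact hKalg _
  have hev : ∀ g : F, (g.map (algebraMap (ZMod 2) Om)).eval (ee (T5.jj X)) =
      ee (T5.jj (io g)) := by
    intro g
    rw [← hxi, ← Polynomial.expand_eval]
    exact (eval_io xi hxi g).symm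
  have hRev : R.eval (ee (T5.jj X)) =
      ee (T5.jj (∑ j : Fin k, io (U * pol (b j)) * h j + io q0)) := by
    rw [hR, Polynomial.eval_add, Polynomial.eval_finsetSum, hev, map_add, map_add, map_sum, map_sum]
    congr 1
    refine Finset.sum_congr rfl fun j _ => ?_
    rw [Polynomial.eval_mul, hev, hQh2, ← map_mul, ← map_mul]
  set Q : Polynomial Om := ∑ t ∈ T, Polynomial.C (de ^ t) * (Polynomial.X ^ t * q (U * pol (c t))) +
    Polynomial.expand Om 24 R with hQ
  have hQK : ∀ n, Q.coeff n ∈ QE2.cl (ZMod 2) {d} := by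
    intro n
    rw [← mem_Kc, hQ, Polynomial.coeff_add, Polynomial.finsetSum_coeff]
    refine Subalgebra.add_mem _ (Subalgebra.sum_mem _ fun t _ => ?_) ?_
    · rw [Polynomial.coeff_C_mul, Polynomial.coeff_X_pow_mul']
      refine Subalgebra.mul_mem _ (mem_Kc.2 (QE2.pow_mem' hdeK t)) ?_
      split_ifs
      · rw [hq]
        simp only
        rw [Polynomial.coeff_expand (by norm_num)]
        split_ifs
        · rw [Polynomial.coeff_map]
          exact hKalg _
        · exact Subalgebra.zero_mem _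
      · exact Subalgebra.zero_mem _
    · rw [Polynomial.coeff_expand (by norm_num)]
      split_ifs
      · exact hRK _
      · exact Subalgebra.zero_mem _
  have hQ0 : Q = 0 := by
    apply eq_zero_of_root hxiK Q hQK
    rw [hQ, Polynomial.eval_add, Polynomial.eval_finsetSum, Polynomial.expand_eval, hxi, hRev]
    have h1 : ∀ t ∈ T, (Polynomial.C (de ^ t) * (Polynomial.X ^ t * q (U * pol (c t)))).eval xi =
        ee (T5.jj (io (U * pol (c t)) * P ^ t)) := by
      intro t _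
      rw [Polynomial.eval_mul, Polynomial.eval_mul, Polynomial.eval_C, Polynomial.eval_pow,
        Polynomial.eval_X, ← mul_assoc, ← mul_pow, hdx, map_mul T5.jj (io (U * pol (c t))) (P ^ t),
        map_mul ee, mul_comm, map_pow T5.jj, map_pow ee]
      congr 1
      exact (eval_io xi hxi _).symm
    rw [Finset.sum_congr rfl h1, ← map_sum, ← map_sum, ← map_add, ← map_add, ← add_assoc, hrel,
      map_zero, map_zero]
  -- the coefficients
  obtain ⟨t0, ht0, hct⟩ := hc
  apply mul_ne_zero U_ne (pol_ne hct)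
  ext m
  rw [Polynomial.coeff_zero]
  have hco := congrArg (fun G : Polynomial Om => G.coeff (24 * m + t0)) hQ0
  simp only [hQ, Polynomial.coeff_zero, Polynomial.coeff_add, Polynomial.finsetSum_coeff] at hco
  rw [Polynomial.coeff_expand (by norm_num), if_neg (by
    intro h1
    exact hT t0 ht0 ((Nat.dvd_add_right (Dvd.intro m rfl)).1 h1)), add_zero] at hco
  set G : F := ∑ t ∈ T, Polynomial.C (if t ≤ 24 * m + t0 then
    (if 24 ∣ 24 * m + t0 - t then (U * pol (c t)).coeff ((24 * m + t0 - t) / 24) else 0) else 0) *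
      Polynomial.X ^ t with hG
  have hG0 : G = 0 := by
    by_contra hne
    apply hdeT
    rw [QE2.mem_cl]
    refine IsAlgebraic.extendScalars (R := ZMod 2)
      (algebraMap (ZMod 2) (Algebra.adjoin (ZMod 2) (∅ : Set Om))).injective ⟨G, hne, ?_⟩
    rw [← hco, hG, map_sum]
    refine Finset.sum_congr rfl fun t _ => ?_
    rw [map_mul, Polynomial.aeval_C, map_pow, Polynomial.aeval_X, Polynomial.coeff_C_mul,
      Polynomial.coeff_X_pow_mul', mul_comm]
    congr 1
    split_ifs with h1 h2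
    · rw [hq]
      simp only
      rw [Polynomial.coeff_expand (by norm_num), if_pos h2, Polynomial.coeff_map]
    · rw [hq]
      simp only
      rw [Polynomial.coeff_expand (by norm_num), if_neg h2, map_zero]
    · rw [map_zero]
  have h5 := congrArg (fun g : F => g.coeff t0) hG0
  simp only [hG, Polynomial.finsetSum_coeff, Polynomial.coeff_C_mul, Polynomial.coeff_X_pow,
    Polynomial.coeff_zero] at h5
  rw [Finset.sum_eq_single t0] at h5
  · rw [if_pos (by omega), if_pos rfl, mul_one, Nat.add_sub_cancel, if_pos (Dvd.intro m rfl),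
      Nat.mul_div_cancel_left m (by norm_num)] at h5
    exact h5
  · intro t _ hne
    rw [if_neg (fun h6 : t0 = t => hne h6.symm), mul_zero]
  · intro h6
    exact absurd ht0 h6

end Pool.Agent.V11172.PT
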