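import Pool.Agent.V11172.PT.Run
import Pool.Agent.Y517.PT.Lin

set_option autoImplicit false

/-!
# Fractional powers of the partition generating function modulo 2
-/

namespace Pool.Agent.V11172.PT

open PowerSeries Pool.Agent.TH693.PP Pool.Agent.TH693.QQ Pool.Agent.H397R2.PP Pool.Agent.Y627.PT
open Pool.Agent.Y517.PT (Kc mem_Kc eq_zero_of_root)

/-- the powers with integer exponents -/
noncomputable def zp (R : S) (m : ℤ) : S := if 0 ≤ m then R ^ m.toNat else R⁻¹ ^ (-m).toNat

theorem jP_mem : T5.jj P ∈ QE2.cl (ZMod 2) {T5.jj X, T5.jj Db} := mem_of_alx alx_P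

theorem jj_io_mem (f : F) : T5.jj (io f) ∈ Kc (ZMod 2) (T5.jj X) :=
  Subalgebra.algebraMap_mem (Kc (ZMod 2) (T5.jj X))
    (⟨T5.jj (io f), T5.io_mem f⟩ : Algebra.adjoin (ZMod 2) {T5.jj X})

theorem unit_R {w : ℕ} (hw : 0 < w) {R : S} (hR : R ^ w = P) : R * R⁻¹ = 1 := by
  apply PowerSeries.mul_inv_cancel
  intro h
  have h1 := constP
  rw [← hR, map_pow, h, zero_pow hw.ne'] at h1
  exact zero_ne_one h1

theorem jj_zp {R : S} (hu : R * R⁻¹ = 1) (m : ℤ) : T5.jj (zp R m) = T5.jj R ^ m := by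
  have h1 : T5.jj R⁻¹ = (T5.jj R)⁻¹ := by
    have h2 := congrArg T5.jj hu
    rw [map_mul, map_one] at h2
    exact eq_inv_of_mul_eq_one_right h2
  unfold zp
  split_ifs with h
  · rw [map_pow]
    conv_rhs => rw [← Int.toNat_of_nonneg h]
    rw [zpow_natCast]
  · rw [map_pow, h1]
    conv_rhs => rw [show m = -((-m).toNat : ℤ) by rw [Int.toNat_of_nonneg (by omega)]; ring]
    rw [zpow_neg, zpow_natCast, inv_pow]

theorem frac (w : ℕ) (hw : 0 < w) (R : S) (hR : R ^ w = P) (M : Finset ℤ) (hM : (0 : ℤ) ∉ M)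
    (k : ℕ) (a : Fin k → S) (ha : ∀ j, AlgX (a j)) :
    ∃ C : ℕ, ∀ (L : ℕ) (c : ℤ → Fin (L + 1) → ZMod 2) (b : Fin k → Fin (L + 1) → ZMod 2),
      (∃ m ∈ M, c m ≠ 0) → ∀ (κ : ZMod 2) (A : ℕ), ∃ n, A ≤ n ∧ n ≤ C * (A + L + 1) ∧
        ∑ m ∈ M, ∑ i : Fin (L + 1), c m i * coeff (n + i) (zp R m) +
          ∑ j, ∑ i : Fin (L + 1), b j i * coeff (n + i) (a j) = κ := by
  classical
  have hu := unit_R hw hR
  have hjR : T5.jj R ∈ QE2.cl (ZMod 2) {T5.jj X, T5.jj Db} := by
    apply QE2.of_pow_mem hw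
    rw [← map_pow, hR]
    exact jP_mem
  have hR0 : T5.jj R ≠ 0 := by
    intro h
    have h2 := congrArg T5.jj hu
    rw [map_mul, map_one, h, zero_mul] at h2
    exact zero_ne_one h2
  have hRX : T5.jj R ∉ QE2.cl (ZMod 2) {T5.jj X} := by
    intro h
    apply P_trans
    apply T5.algX_of_mem
    rw [← hR, map_pow]
    exact QE2.pow_mem' h w
  set f : {m // m ∈ M} ⊕ Fin k → S := Sum.elim (fun m => zp R m) a with hf
  have hAO : ∀ j, AlgOver Db (f j) := by
    rintro (m | j)
    · apply T5.algOver_of_mem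
      rw [hf, Sum.elim_inl]
      unfold zp
      split_ifs
      · rw [map_pow]
        exact QE2.pow_mem' hjR _
      · rw [map_pow]
        refine QE2.pow_mem' ?_ _
        have h2 := congrArg T5.jj hu
        rw [map_mul, map_one] at h2
        rw [eq_inv_of_mul_eq_one_right h2]
        exact QE2.inv_mem' hjR
    · apply T5.algOver_of_mem
      rw [hf, Sum.elim_inr]
      exact QE2.cl_mono (by simp) (T5.mem_of_algX (ha j))
  obtain ⟨C, hC1, hC⟩ := run_rel f (lf Pool.Agent.Y38.PT6.clo mtDb f hAO)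
  refine ⟨C, fun L c b hc κ A => ?_⟩
  by_contra hcon
  push Not at hcon
  set c' : {m // m ∈ M} ⊕ Fin k → Fin (L + 1) → ZMod 2 := Sum.elim (fun m => c m) b with hc'
  obtain ⟨q, -, hrel⟩ := hC L c' (κ + 1) A (fun n h1 h2 => by
    have h3 := (by decide : ∀ x y : ZMod 2, x ≠ y → x = y + 1) _ _ (hcon n h1 h2)
    rw [← h3, Fintype.sum_sum_type]
    congr 1
    exact (Finset.sum_coe_sort M (fun m => ∑ i : Fin (L + 1), c m i * coeff (n + i) (zp R m))))
  rw [Fintype.sum_sum_type] at hrel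
  simp only [hf, hc', Sum.elim_inl, Sum.elim_inr] at hrel
  rw [Finset.sum_coe_sort M (fun m => io (U * pol (c m)) * zp R m)] at hrel
  set β : S := ∑ j : Fin k, io (U * pol (b j)) * a j + io q with hβ
  have hβm : T5.jj β ∈ Kc (ZMod 2) (T5.jj X) := by
    rw [hβ, map_add, map_sum]
    refine Subalgebra.add_mem _ (Subalgebra.sum_mem _ fun j _ => ?_) (jj_io_mem q)
    rw [map_mul]
    exact Subalgebra.mul_mem _ (jj_io_mem _) (mem_Kc.2 (T5.mem_of_algX (ha j)))
  set N : ℕ := ∑ m ∈ M, m.natAbs with hN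
  have hNm : ∀ m ∈ M, (0 : ℤ) ≤ N + m := by
    intro m hm
    have h1 : m.natAbs ≤ N := Finset.single_le_sum (f := fun m : ℤ => m.natAbs)
      (fun _ _ => Nat.zero_le _) hm
    omega
  set Q : Polynomial Lk := ∑ m ∈ M, Polynomial.C (T5.jj (io (U * pol (c m)))) *
    Polynomial.X ^ ((N : ℤ) + m).toNat + Polynomial.C (T5.jj β) * Polynomial.X ^ N with hQ
  have hQ0 : Q = 0 := by
    apply eq_zero_of_root hRX
    · intro n
      rw [← mem_Kc, hQ, Polynomial.coeff_add, Polynomial.finsetSum_coeff]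
      refine Subalgebra.add_mem _ (Subalgebra.sum_mem _ fun m _ => ?_) ?_
      · rw [Polynomial.coeff_C_mul, Polynomial.coeff_X_pow]
        refine Subalgebra.mul_mem _ (jj_io_mem _) ?_
        split_ifs
        · exact Subalgebra.one_mem _
        · exact Subalgebra.zero_mem _
      · rw [Polynomial.coeff_C_mul, Polynomial.coeff_X_pow]
        refine Subalgebra.mul_mem _ hβm ?_
        split_ifs
        · exact Subalgebra.one_mem _
        · exact Subalgebra.zero_mem _
    · rw [hQ, Polynomial.eval_add, Polynomial.eval_finsetSum, Polynomial.eval_mul,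
        Polynomial.eval_C, Polynomial.eval_pow, Polynomial.eval_X]
      have h1 : ∀ m ∈ M, (Polynomial.C (T5.jj (io (U * pol (c m)))) *
          Polynomial.X ^ ((N : ℤ) + m).toNat).eval (T5.jj R) =
          T5.jj (io (U * pol (c m)) * zp R m) * T5.jj R ^ N := by
        intro m hm
        rw [Polynomial.eval_mul, Polynomial.eval_C, Polynomial.eval_pow, Polynomial.eval_X,
          map_mul T5.jj (io (U * pol (c m))) (zp R m), jj_zp hu, mul_assoc, ← zpow_natCast, ← zpow_natCast, ← zpow_add₀ hR0,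
          Int.toNat_of_nonneg (hNm m hm), add_comm m]
      rw [Finset.sum_congr rfl h1, ← Finset.sum_mul, ← map_sum, ← add_mul, ← map_add]
      have h2 : ∑ m ∈ M, io (U * pol (c m)) * zp R m + β = 0 := by
        rw [hβ, ← add_assoc]
        exact hrel
      rw [h2, map_zero, zero_mul]
  obtain ⟨m0, hm0, hcm⟩ := hc
  have h3 := congrArg (fun G : Polynomial Lk => G.coeff ((N : ℤ) + m0).toNat) hQ0
  simp only [hQ, Polynomial.coeff_add, Polynomial.finsetSum_coeff, Polynomial.coeff_C_mul,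
    Polynomial.coeff_X_pow, Polynomial.coeff_zero] at h3
  rw [if_neg (by
    intro h4
    have h5 := hNm m0 hm0
    apply hM
    have : m0 = 0 := by omega
    rwa [this] at hm0), mul_zero, add_zero, Finset.sum_eq_single m0] at h3
  · rw [if_pos rfl, mul_one, map_eq_zero_iff T5.jj T5.jj_inj, map_eq_zero_iff io QE2.io_inj] at h3
    exact mul_ne_zero U_ne (pol_ne hcm) h3
  · intro m hm hmm
    rw [if_neg, mul_zero]
    intro h4
    apply hmm
    have h5 := hNm m0 hm0
    have h6 := hNm m hm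
    omega
  · intro h4
    exact absurd hm0 h4

/-- functions that are algebraic over `F_2(X, P)` are algebraic over `F_2(X, D)` -/
theorem mem_of_algOver {z g : S} (h : AlgOver z g) :
    T5.jj g ∈ QE2.cl (ZMod 2) {T5.jj X, T5.jj z} := by
  obtain ⟨G, hG, hG2⟩ := h
  rw [QE2.mem_cl]
  have hmem : ∀ p : Polynomial F, T5.jj (evp z p) ∈
      Algebra.adjoin (ZMod 2) {T5.jj X, T5.jj z} := by
    intro p
    induction p using Polynomial.induction_on with
    | C a =>
      rw [QE2.evp_C]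
      exact Algebra.adjoin_mono (by simp) (T5.io_mem a)
    | add p q hp hq => rw [map_add, map_add]; exact add_mem hp hq
    | monomial n a _ =>
      rw [map_mul, map_pow, QE2.evp_X, QE2.evp_C, map_mul, map_pow]
      have h1 : T5.jj z ∈ Algebra.adjoin (ZMod 2) {T5.jj X, T5.jj z} :=
        Algebra.subset_adjoin (by simp)
      exact Subalgebra.mul_mem _ (Algebra.adjoin_mono (by simp) (T5.io_mem a))
        (Subalgebra.pow_mem _ h1 _)
  let ψ : Polynomial F →+* Algebra.adjoin (ZMod 2) {T5.jj X, T5.jj z} :=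
    ((T5.jj : S →+* Lk).comp (evp z)).codRestrict
      (Algebra.adjoin (ZMod 2) {T5.jj X, T5.jj z}) hmem
  refine ⟨G.map ψ, ?_, ?_⟩
  · intro h0
    apply hG
    ext1 n
    apply T5.jj_inj
    rw [Polynomial.coeff_map, Polynomial.coeff_zero, map_zero]
    have h1 := congrArg (fun p => ((p.coeff n : Algebra.adjoin (ZMod 2) {T5.jj X, T5.jj z}) : Lk)) h0
    simp only [Polynomial.coeff_map, Polynomial.coeff_zero] at h1
    exact h1
  · rw [Polynomial.aeval_def, Polynomial.eval₂_map]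
    have h1 := congrArg T5.jj hG2
    rw [map_zero, Polynomial.eval_map] at h1
    rw [← h1]
    exact (Polynomial.hom_eval₂ G (evp z) (T5.jj : S →+* Lk) g).symm

theorem algDb_of_algP {g : S} (h : AlgOver P g) : AlgOver Db g := by
  apply T5.algOver_of_mem
  refine QE2.cl_cl ?_ (mem_of_algOver h)
  rintro y (rfl | hy)
  · exact QE2.self_mem (by simp)
  · rw [Set.mem_singleton_iff.1 hy]
    exact jP_mem

theorem runsP {k : ℕ} (f : Fin k → S) (hf : ∀ j, AlgOver P (f j)) :
    ∃ C : ℕ, ∀ (L : ℕ) (c : Fin k → Fin (L + 1) → ZMod 2) (κ : ZMod 2) (A : ℕ),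
      (∀ n, A ≤ n → n ≤ C * (A + L + 1) →
        ∑ t, ∑ i : Fin (L + 1), c t i * coeff (n + i) (f t) = κ) →
      ∀ n, A ≤ n → ∑ t, ∑ i : Fin (L + 1), c t i * coeff (n + i) (f t) = κ :=
  runs f (lf Pool.Agent.Y38.PT6.clo mtDb f fun j => algDb_of_algP (hf j))

end Pool.Agent.V11172.PT
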