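import Pool.Agent.H307R2.OP.AlgMain
import Pool.Agent.TH693.QQ.Stm

set_option autoImplicit false

/-!
# The coefficients of the powers of the discriminant modulo 2 at integers with many prime factors
-/

namespace Pool.Agent.V11172.PT

open PowerSeries Pool.Agent.H397R2.PP Pool.Agent.H307R2.OP

theorem fil_all {q : ℕ} (hq : q.Prime) (hq2 : q ≠ 2) : Fil (-1) (TO q) :=
  FQaux.fil1 t3h t5g_main heckeFacts ji_main q hq hq2

theorem kill (s : Finset ℕ) : (∀ q ∈ s, q.Prime ∧ q ≠ 2) → ∀ c ≤ s.card, ∀ f ∈ NIL.WW c,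
    ∀ N : ℕ, (∀ q ∈ s, ¬ q ∣ N) → coeff (N * ∏ q ∈ s, q) f = 0 := by
  classical
  induction s using Finset.induction_on with
  | empty =>
    intro _ c hc f hf N _
    rw [Finset.card_empty] at hc
    obtain rfl : c = 0 := by omega
    rw [KK.WW_zero hf, map_zero]
  | insert q s hqs ih =>
    intro hs c hc f hf N hN
    rcases c with _ | c
    · rw [KK.WW_zero hf, map_zero]
    · rw [Finset.card_insert_of_notMem hqs] at hc
      obtain ⟨hq, hq2⟩ := hs q (Finset.mem_insert_self q s)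
      have h1 : Tp q f ∈ NIL.WW c := by
        have h2 := fil_all hq hq2 (c + 1) f hf
        have h3 : (((c + 1 : ℕ) : ℤ) + -1).toNat = c := by omega
        rw [h3] at h2
        exact h2
      have h4 := ih (fun p hp => hs p (Finset.mem_insert_of_mem hp)) c (by omega) _ h1 N
        (fun p hp => hN p (Finset.mem_insert_of_mem hp))
      rw [Tp, coeff_mk, if_neg, add_zero] at h4
      · rw [Finset.prod_insert hqs, mul_left_comm]
        exact h4
      · intro h5
        rcases (hq.dvd_mul).1 h5 with h6 | h6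
        · exact hN q (Finset.mem_insert_self q s) h6
        · rw [hq.prime.dvd_finset_prod_iff] at h6
          obtain ⟨p, hp, h7⟩ := h6
          have h8 := (Nat.prime_dvd_prime_iff_eq hq (hs p (Finset.mem_insert_of_mem hp)).1).1 h7
          exact hqs (h8 ▸ hp)

/-- `N` has `h` odd primes as exact divisors -/
def Ex (h N : ℕ) : Prop := ∃ s : Finset ℕ, s.card = h ∧
  ∀ q ∈ s, q.Prime ∧ q ≠ 2 ∧ q ∣ N ∧ ¬ q ^ 2 ∣ N

theorem coeff_zero_of_ex (j N : ℕ) (hN : Ex (cont j + 1) N) : coeff N (Db ^ (2 * j + 1)) = 0 := by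
  classical
  obtain ⟨s, hs, hq⟩ := hN
  have h1 : ∏ q ∈ s, q ∣ N := by
    refine Finset.prod_primes_dvd N (fun q hqs => (hq q hqs).1.prime) fun q hqs => (hq q hqs).2.2.1
  obtain ⟨N', rfl⟩ := h1
  rw [mul_comm]
  refine kill s (fun q hqs => ⟨(hq q hqs).1, (hq q hqs).2.1⟩) (cont j + 1) hs.ge _
    (NIL.WW_mem (Nat.lt_succ_self _)) N' fun q hqs h2 => ?_
  apply (hq q hqs).2.2.2
  rw [pow_two]
  exact mul_dvd_mul (Finset.dvd_prod_of_mem (fun q => q) hqs) h2

end Pool.Agent.V11172.PT
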