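import Pool.Agent.V11172.PT.Cnt
import Pool.Agent.V11172.PT.AllT
import Pool.Agent.Helper919.DivBound

set_option autoImplicit false

/-!
# Odd values of linear patterns of the partition function
-/

namespace Pool.Agent.V11172.PT

open PowerSeries Pool.Agent.TH693.PP Pool.Agent.TH693.QQ Pool.Agent.H397R2.PP

theorem base_rel {L : ℕ} (c : Fin (L + 1) → ZMod 2) (N : ℕ) (hN : L < N) :
    ∑ j ∈ JJ 1 N, coeff (N - 1 * pentagonal j) (io (pol c) * P) = 0 := by
  rw [← rec_pent (io (pol c) * P) 1 one_ne_zero N, ← pow_eq_expand' 1 0 one_ne_zero (by norm_num),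
    pow_one, show pentagonalSeries (ZMod 2) = E from rfl, mul_assoc, P_mul_E, mul_one,
    show coeff N (io (pol c)) = coeff N (pol c : S) from rfl, Polynomial.coeff_coe]
  exact Polynomial.coeff_eq_zero_of_natDegree_lt (lt_of_le_of_lt (pol_deg c) hN)

theorem other {L : ℕ} (c : Fin (L + 1) → ZMod 2) {N0 : ℕ} (hN0 : L < N0)
    (h1 : coeff N0 (io (pol c) * P) = 1) (j : ℤ) :
    ∃ j' : ℤ, j' ≠ j ∧ pentagonal j' ≤ N0 + pentagonal j ∧
      coeff (N0 + pentagonal j - pentagonal j') (io (pol c) * P) = 1 := by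
  by_contra hcon
  push Not at hcon
  have h2 := base_rel c (N0 + pentagonal j) (by omega)
  rw [Finset.sum_eq_single j] at h2
  · rw [one_mul, Nat.add_sub_cancel, h1] at h2
    exact one_ne_zero h2
  · intro j' hj' hne
    rw [mem_JJ one_ne_zero, one_mul] at hj'
    rw [one_mul]
    exact (by decide : ∀ x : ZMod 2, x ≠ 1 → x = 0) _ (hcon j' hne hj')
  · intro hj
    rw [mem_JJ one_ne_zero, one_mul] at hj
    omega

theorem pent_diff (j j' : ℤ) : 2 * ((pentagonal j : ℤ) - pentagonal j') =
    (j - j') * (3 * (j + j') - 1) := by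
  have e1 := two_mul_natCast_pentagonal j
  have e2 := two_mul_natCast_pentagonal j'
  linear_combination e1 - e2

theorem count_le {L : ℕ} (c : Fin (L + 1) → ZMod 2) {N0 : ℕ} (hN0 : L < N0)
    (h1 : coeff N0 (io (pol c) * P) = 1) (x B : ℕ)
    (hB : ∀ D : ℕ, D ≠ 0 → D ≤ 2 * (N0 + x) → D.divisors.card ≤ B) :
    Nat.sqrt (x / 2) ≤ 2 * B * (L + ((Finset.range (N0 + x + 1)).filter fun n =>
      ∑ i : Fin (L + 1), c i * coeff (n + i) P = 1).card) := by
  classical
  choose J' hJ1 hJ2 hJ3 using other c hN0 h1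
  set y := Nat.sqrt (x / 2) with hy
  set f : ℤ → ℕ := fun j => N0 + pentagonal j - pentagonal (J' j) with hf
  set s : Finset ℤ := Finset.Icc 1 (y : ℤ) with hs
  have hfib : ∀ v ∈ s.image f, (s.filter fun j => f j = v).card ≤ 2 * B := by
    intro v hv
    obtain ⟨j0, hj0, rfl⟩ := Finset.mem_image.1 hv
    set δ : ℤ := (f j0 : ℤ) - N0 with hδ
    have hδj : ∀ j, f j = f j0 → 2 * δ = (j - J' j) * (3 * (j + J' j) - 1) := by
      intro j hj
      rw [← pent_diff, hδ, ← hj, hf]
      simp only
      rw [Nat.cast_sub (hJ2 j)]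
      push_cast
      ring
    have hδ0 : 2 * δ ≠ 0 := by
      rw [hδj j0 rfl]
      apply mul_ne_zero
      · exact sub_ne_zero.2 (Ne.symm (hJ1 j0))
      · omega
    set D : ℕ := (2 * δ).natAbs with hD
    have hpos : 1 ≤ j0 ∧ j0 ≤ y := by
      rw [hs, Finset.mem_Icc] at hj0
      exact hj0
    have hpx : (pentagonal j0 : ℤ) ≤ x := by
      have e1 := two_mul_natCast_pentagonal j0
      have e2 : y ^ 2 ≤ x / 2 := Nat.sqrt_le' _
      have e3 : 2 * y ^ 2 ≤ x := by omega
      have e4 : 2 * (y : ℤ) ^ 2 ≤ x := by exact_mod_cast e3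
      nlinarith
    have hDle : D ≤ 2 * (N0 + x) := by
      have h2 : (0 : ℤ) ≤ f j0 := Int.natCast_nonneg _
      have h3 : (f j0 : ℤ) ≤ N0 + x := by
        have : f j0 ≤ N0 + pentagonal j0 := Nat.sub_le _ _
        have h4 : (f j0 : ℤ) ≤ N0 + pentagonal j0 := by exact_mod_cast this
        linarith
      omega
    have hD0 : D ≠ 0 := Int.natAbs_ne_zero.2 hδ0
    set A : Finset ℤ := Finset.image (fun d : ℕ => (d : ℤ)) D.divisors ∪
      Finset.image (fun d : ℕ => -(d : ℤ)) D.divisors
      with hA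
    have hAc : A.card ≤ 2 * B := by
      have h2 := hB D hD0 hDle
      refine (Finset.card_union_le _ _).trans ?_
      have h3 := Finset.card_image_le (s := D.divisors) (f := fun d : ℕ => (d : ℤ))
      have h4 := Finset.card_image_le (s := D.divisors) (f := fun d : ℕ => -(d : ℤ))
      omega
    refine le_trans ?_ hAc
    refine Finset.card_le_card_of_injOn (fun j => j - J' j) ?_ ?_
    · intro j hj
      rw [Finset.mem_coe, Finset.mem_filter] at hj
      have h2 : (j - J' j) ∣ 2 * δ := ⟨_, hδj j hj.2⟩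
      have h3 : (j - J' j).natAbs ∈ D.divisors := by
        rw [Nat.mem_divisors]
        exact ⟨Int.natAbs_dvd_natAbs.2 h2, hD0⟩
      rw [Finset.mem_coe, hA, Finset.mem_union, Finset.mem_image, Finset.mem_image]
      rcases Int.natAbs_eq (j - J' j) with h4 | h4
      · exact Or.inl ⟨_, h3, h4.symm⟩
      · exact Or.inr ⟨_, h3, h4.symm⟩
    · intro j hj k hk hjk
      rw [Finset.mem_coe, Finset.mem_filter] at hj hk
      simp only at hjk
      have h2 := hδj j hj.2
      have h3 := hδj k hk.2
      rw [h2, hjk] at h3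
      have h4 : k - J' k ≠ 0 := sub_ne_zero.2 (Ne.symm (hJ1 k))
      have h5 := mul_left_cancel₀ h4 h3
      omega
  have h2 := Finset.card_le_mul_card_image s (2 * B) hfib
  rw [hs, Int.card_Icc] at h2
  have h3 : (s.image f).card ≤ L + ((Finset.range (N0 + x + 1)).filter fun n =>
      ∑ i : Fin (L + 1), c i * coeff (n + i) P = 1).card := by
    have h4 : s.image f ⊆ Finset.range L ∪ ((Finset.range (N0 + x + 1)).filter fun n =>
        ∑ i : Fin (L + 1), c i * coeff (n + i) P = 1).image fun n => n + L := by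
      intro v hv
      obtain ⟨j, hj, rfl⟩ := Finset.mem_image.1 hv
      rw [Finset.mem_union, Finset.mem_range, Finset.mem_image]
      by_cases h5 : f j < L
      · exact Or.inl h5
      · right
        have hpos : 1 ≤ j ∧ j ≤ y := by
          rw [hs, Finset.mem_Icc] at hj
          exact hj
        have hpx : (pentagonal j : ℤ) ≤ x := by
          have e1 := two_mul_natCast_pentagonal j
          have e2 : y ^ 2 ≤ x / 2 := Nat.sqrt_le' _
          have e3 : 2 * y ^ 2 ≤ x := by omega
          have e4 : 2 * (y : ℤ) ^ 2 ≤ x := by exact_mod_cast e3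
          nlinarith
        have hpx' : pentagonal j ≤ x := by exact_mod_cast hpx
        have h6 : f j ≤ N0 + pentagonal j := Nat.sub_le _ _
        refine ⟨f j - L, ?_, by omega⟩
        rw [Finset.mem_filter, Finset.mem_range]
        refine ⟨by omega, ?_⟩
        rw [← coeff_pol c P (f j - L), Nat.sub_add_cancel (not_lt.1 h5)]
        exact hJ3 j
    refine (Finset.card_le_card h4).trans ((Finset.card_union_le _ _).trans ?_)
    rw [Finset.card_range]
    exact Nat.add_le_add_left Finset.card_image_le _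
  have h5 : ((y : ℤ) + 1 - 1).toNat = y := by omega
  rw [h5] at h2
  exact h2.trans (Nat.mul_le_mul_left _ h3)

end Pool.Agent.V11172.PT
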