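import Pool.Agent.V11172.PT.Odd

set_option autoImplicit false

/-!
# Odd values of linear patterns of the partition function: the theorem
-/

namespace Pool.Agent.V11172.PT

open PowerSeries Pool.Agent.TH693.PP Pool.Agent.TH693.QQ Pool.Agent.H397R2.PP

theorem exists_start {L : ℕ} (c : Fin (L + 1) → ZMod 2) (hc : c ≠ 0) :
    ∃ n, ∑ i : Fin (L + 1), c i * coeff (n + i) P = 1 ∧ 0 < n := by
  obtain ⟨C, hC⟩ := allT {1} (by simp) (J := Fin 0) (fun j => j.elim0) (fun _ => 0)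
    (fun j => j.elim0)
  obtain ⟨n, h1, -, h3⟩ := hC L (fun _ => c) (fun j => j.elim0) ⟨1, by simp, hc⟩ 1 1
  refine ⟨n, ?_, h1⟩
  rw [Finset.sum_singleton, pow_one] at h3
  simpa using h3

theorem main_odd {L : ℕ} (c : Fin (L + 1) → ZMod 2) (hc : c ≠ 0) (ε : ℝ) (hε : 0 < ε) :
    ∃ x0 : ℕ, ∀ x : ℕ, x0 ≤ x → (x : ℝ) ^ (1 / 2 - ε) ≤
      (((Finset.range (x + 1)).filter fun n =>
        ∑ i : Fin (L + 1), c i * coeff (n + i) P = 1).card : ℝ) := by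
  obtain ⟨n1, hn1, hn0⟩ := exists_start c hc
  set N0 := n1 + L with hN0
  have h1 : coeff N0 (io (pol c) * P) = 1 := by rw [hN0, coeff_pol, hn1]
  obtain ⟨N, hN⟩ := exists_nat_gt (2 / ε)
  have hNpos : (0 : ℝ) < N := lt_trans (by positivity) hN
  have hNne : N ≠ 0 := by
    rintro rfl
    simp at hNpos
  obtain ⟨C0, hC0, hdiv⟩ := Pool.Agent.Helper919.card_divisors_pow_le N
  set K : ℝ := 8 * (L + 1) * (2 * C0 : ℝ) ^ ((N : ℝ)⁻¹) with hK
  have hK0 : 0 < K := by positivity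
  obtain ⟨x1, hx1⟩ : ∃ x1 : ℕ, ∀ x : ℕ, x1 ≤ x → K ≤ (x : ℝ) ^ (ε / 2) := by
    have h2 := ((tendsto_rpow_atTop (half_pos hε)).comp tendsto_natCast_atTop_atTop).eventually_ge_atTop K
    rw [Filter.eventually_atTop] at h2
    exact h2
  refine ⟨x1 + 4 * N0 + 100, fun X hX => ?_⟩
  set x := X - N0 with hx
  have hXx : N0 + x = X := by omega
  set R : ℝ := (2 * C0 * X : ℝ) ^ ((N : ℝ)⁻¹) with hR
  have hR0 : 0 ≤ R := by positivity
  have hB : ∀ D : ℕ, D ≠ 0 → D ≤ 2 * (N0 + x) → D.divisors.card ≤ ⌊R⌋₊ := by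
    intro D hD hD2
    apply Nat.le_floor
    rw [hXx] at hD2
    have h2 : ((D.divisors.card : ℕ) : ℝ) ^ N ≤ 2 * C0 * X := by
      have h3 := (hdiv D hD).trans (Nat.mul_le_mul_left C0 hD2)
      have h4 : ((D.divisors.card ^ N : ℕ) : ℝ) ≤ ((C0 * (2 * X) : ℕ) : ℝ) := by exact_mod_cast h3
      push_cast at h4
      linarith
    calc ((D.divisors.card : ℕ) : ℝ) = (((D.divisors.card : ℕ) : ℝ) ^ N) ^ ((N : ℝ)⁻¹) :=
          (Real.pow_rpow_inv_natCast (Nat.cast_nonneg _) hNne).symm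
      _ ≤ R := Real.rpow_le_rpow (by positivity) h2 (by positivity)
  have h2 := count_le c (by omega : L < N0) h1 x ⌊R⌋₊ hB
  rw [hXx] at h2
  set cnt := ((Finset.range (X + 1)).filter fun n =>
    ∑ i : Fin (L + 1), c i * coeff (n + i) P = 1).card with hcnt
  have hcnt1 : 1 ≤ cnt := by
    rw [hcnt, Nat.one_le_iff_ne_zero]
    apply Finset.card_ne_zero_of_mem (a := n1)
    rw [Finset.mem_filter, Finset.mem_range]
    exact ⟨by omega, hn1⟩
  have h3 : (L + cnt : ℕ) ≤ (L + 1) * cnt := by nlinarith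
  set y := Nat.sqrt (x / 2) with hy
  have h4 : (X : ℝ) / 4 < ((y : ℝ) + 1) ^ 2 := by
    have h5 : x / 2 < (y + 1) ^ 2 := Nat.lt_succ_sqrt' _
    have h6 : X < 4 * (y + 1) ^ 2 := by omega
    have h7 : (X : ℝ) < 4 * ((y : ℝ) + 1) ^ 2 := by exact_mod_cast h6
    linarith
  have hX0 : (100 : ℝ) ≤ X := by exact_mod_cast (show 100 ≤ X by omega)
  have hXpos : (0 : ℝ) < X := by linarith
  set q := Real.sqrt X with hq
  have hqq : q ^ 2 = X := Real.sq_sqrt hXpos.le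
  have hq0 : 0 ≤ q := Real.sqrt_nonneg _
  have hq10 : 10 ≤ q := by
    rw [hq]
    apply Real.le_sqrt_of_sq_le
    linarith
  have h8 : q / 2 < y + 1 := by
    by_contra h9
    push Not at h9
    have : ((y : ℝ) + 1) ^ 2 ≤ (q / 2) ^ 2 := pow_le_pow_left₀ (by positivity) h9 2
    rw [div_pow, hqq] at this
    linarith
  have h10 : q / 4 ≤ y := by linarith
  have h11 : (y : ℝ) ≤ 2 * R * ((L + 1) * cnt) := by
    have h12 : (y : ℝ) ≤ 2 * (⌊R⌋₊ : ℝ) * (L + cnt) := by exact_mod_cast h2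
    have h13 : (⌊R⌋₊ : ℝ) ≤ R := Nat.floor_le hR0
    have h14 : ((L : ℝ) + cnt) ≤ (L + 1) * cnt := by exact_mod_cast h3
    calc (y : ℝ) ≤ 2 * (⌊R⌋₊ : ℝ) * (L + cnt) := h12
      _ ≤ 2 * R * ((L + 1) * cnt) := by
        apply mul_le_mul _ h14 (by positivity) (by positivity)
        linarith
  have h15 : R = (2 * C0 : ℝ) ^ ((N : ℝ)⁻¹) * (X : ℝ) ^ ((N : ℝ)⁻¹) := by
    rw [hR, Real.mul_rpow (by positivity) (by positivity)]
  have h16 : (X : ℝ) ^ (1 / 2 : ℝ) ≤ K * (X : ℝ) ^ ((N : ℝ)⁻¹) * cnt := by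
    rw [← Real.sqrt_eq_rpow, ← hq, hK]
    calc q ≤ 4 * y := by linarith
      _ ≤ 4 * (2 * R * ((L + 1) * cnt)) := by linarith
      _ = _ := by rw [h15]; ring
  have hNε : (N : ℝ)⁻¹ ≤ ε / 2 := by
    rw [inv_le_comm₀ hNpos (by positivity)]
    rw [inv_div]
    exact hN.le
  have hX1 : (1 : ℝ) ≤ X := by linarith
  have h17 : (X : ℝ) ^ ((N : ℝ)⁻¹) ≤ (X : ℝ) ^ (ε / 2) := Real.rpow_le_rpow_of_exponent_le hX1 hNε
  have h18 := hx1 X (by omega)
  have h19 : (X : ℝ) ^ (1 / 2 : ℝ) ≤ (X : ℝ) ^ ε * cnt := by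
    refine h16.trans ?_
    apply mul_le_mul_of_nonneg_right _ (Nat.cast_nonneg _)
    calc K * (X : ℝ) ^ ((N : ℝ)⁻¹) ≤ (X : ℝ) ^ (ε / 2) * (X : ℝ) ^ (ε / 2) :=
          mul_le_mul h18 h17 (by positivity) (by positivity)
      _ = (X : ℝ) ^ ε := by rw [← Real.rpow_add hXpos]; ring_nf
  rw [Real.rpow_sub hXpos, div_le_iff₀ (by positivity)]
  linarith

end Pool.Agent.V11172.PT
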