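import Pool.Agent.V11172.PT.Cnt2
import Pool.Agent.V11172.PT.EtaD
import Pool.Agent.V11172.PT.Odd

set_option autoImplicit false

/-!
# Patterns of the coefficients of `f_a / f_b` modulo 2: the recurrence
-/

namespace Pool.Agent.V11172.PT

open PowerSeries Pool.Agent.TH693.PP Pool.Agent.TH693.QQ Pool.Agent.H397R2.PP

theorem reg_rel {a b : ℕ} (ha : a ≠ 0) (hb : b ≠ 0) {G : S}
    (hG : G * PowerSeries.expand b hb (pentagonalSeries (ZMod 2)) =
      PowerSeries.expand a ha (pentagonalSeries (ZMod 2))) {L : ℕ} (c : Fin (L + 1) → ZMod 2) (N : ℕ)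
    (hN : ∀ k : ℤ, ¬ (a * pentagonal k ≤ N ∧ N ≤ a * pentagonal k + L)) :
    ∑ j ∈ JJ b N, coeff (N - b * pentagonal j) (io (pol c) * G) = 0 := by
  rw [← rec_pent (io (pol c) * G) b hb N, mul_assoc, hG, rec_pent _ a ha N]
  refine Finset.sum_eq_zero fun k hk => ?_
  rw [mem_JJ ha] at hk
  rw [show coeff (N - a * pentagonal k) (io (pol c)) = coeff (N - a * pentagonal k) (pol c : S) from rfl,
    Polynomial.coeff_coe]
  refine Polynomial.coeff_eq_zero_of_natDegree_lt (lt_of_le_of_lt (pol_deg c) ?_)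
  have := hN k
  omega

theorem reg_other {a b : ℕ} (ha : a ≠ 0) (hb : b ≠ 0) {G : S}
    (hG : G * PowerSeries.expand b hb (pentagonalSeries (ZMod 2)) =
      PowerSeries.expand a ha (pentagonalSeries (ZMod 2))) {L : ℕ} (c : Fin (L + 1) → ZMod 2)
    {N0 : ℕ} (h1 : coeff N0 (io (pol c) * G) = 1) (j : ℤ)
    (hN : ∀ k : ℤ, ¬ (a * pentagonal k ≤ N0 + b * pentagonal j ∧
      N0 + b * pentagonal j ≤ a * pentagonal k + L)) :
    ∃ j' : ℤ, j' ≠ j ∧ b * pentagonal j' ≤ N0 + b * pentagonal j ∧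
      coeff (N0 + b * pentagonal j - b * pentagonal j') (io (pol c) * G) = 1 := by
  by_contra hcon
  push Not at hcon
  have h2 := reg_rel ha hb hG c (N0 + b * pentagonal j) hN
  rw [Finset.sum_eq_single j] at h2
  · rw [Nat.add_sub_cancel, h1] at h2
    exact one_ne_zero h2
  · intro j' hj' hne
    rw [mem_JJ hb] at hj'
    exact (by decide : ∀ x : ZMod 2, x ≠ 1 → x = 0) _ (hcon j' hne hj')
  · intro hj
    rw [mem_JJ hb] at hj
    omega

theorem pent_gap {k k' : ℤ} (h : k ≠ k') :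
    |k| ≤ 2 * |(pentagonal k : ℤ) - pentagonal k'| := by
  have h1 := pent_diff k k'
  have h2 : 2 * |(pentagonal k : ℤ) - pentagonal k'| = |k - k'| * |3 * (k + k') - 1| := by
    rw [← abs_mul, ← h1, abs_mul]
    norm_num
  rw [h2]
  have hu : 1 ≤ |k - k'| := Int.one_le_abs (sub_ne_zero.2 h)
  have hv : 1 ≤ |3 * (k + k') - 1| := Int.one_le_abs (by omega)
  have h3 : 2 * |k| ≤ |k - k'| + |k + k'| := by
    have : 2 * |k| = |(k - k') + (k + k')| := by
      rw [show (k - k') + (k + k') = 2 * k by ring, abs_mul]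
      norm_num
    rw [this]
    exact abs_add_le _ _
  have h4 : 3 * |k + k'| ≤ |3 * (k + k') - 1| + 1 := by
    have : 3 * |k + k'| = |(3 * (k + k') - 1) + 1| := by
      rw [show (3 * (k + k') - 1) + 1 = 3 * (k + k') by ring, abs_mul]
      norm_num
    rw [this]
    refine (abs_add_le _ _).trans ?_
    norm_num
  nlinarith [mul_nonneg (sub_nonneg.2 hu) (sub_nonneg.2 hv)]

theorem pent_le_sq (k : ℤ) : (pentagonal k : ℤ) ≤ 2 * |k| ^ 2 := by
  have e := two_mul_natCast_pentagonal k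
  have h1 : -k ≤ |k| := neg_le_abs k
  have h2 : |k| ≤ |k| ^ 2 := by
    rcases eq_or_ne k 0 with rfl | h
    · simp
    · have := Int.one_le_abs h
      nlinarith
  have h3 : |k| ^ 2 = k ^ 2 := sq_abs k
  nlinarith

theorem cluster {a b L : ℕ} (ha : a ≠ 0) (w : Fin (L + 2) → ℕ)
    (hw : Function.Injective w) (W : ℕ) (hW : ∀ s, w s ≤ W) (j : ℤ)
    (hj : 8 * a * (W + L) ^ 2 + L < b * pentagonal j) :
    ∃ s, ∀ k : ℤ, ¬ (a * pentagonal k ≤ w s + b * pentagonal j ∧
      w s + b * pentagonal j ≤ a * pentagonal k + L) := by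
  by_contra hcon
  push Not at hcon
  choose K hK1 hK2 using hcon
  have ha1 : 1 ≤ a := Nat.one_le_iff_ne_zero.2 ha
  have hKK : ∀ s s', K s = K s' := by
    intro s s'
    by_contra hne
    have h1 := pent_gap hne
    have h2 : |(pentagonal (K s) : ℤ) - pentagonal (K s')| ≤ W + L := by
      have e1 : (a : ℤ) * pentagonal (K s) ≤ w s + b * pentagonal j := by exact_mod_cast hK1 s
      have e2 : (w s : ℤ) + b * pentagonal j ≤ a * pentagonal (K s) + L := by exact_mod_cast hK2 s
      have e3 : (a : ℤ) * pentagonal (K s') ≤ w s' + b * pentagonal j := by exact_mod_cast hK1 s'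
      have e4 : (w s' : ℤ) + b * pentagonal j ≤ a * pentagonal (K s') + L := by exact_mod_cast hK2 s'
      have e5 : (w s : ℤ) ≤ W := by exact_mod_cast hW s
      have e6 : (w s' : ℤ) ≤ W := by exact_mod_cast hW s'
      have e7 : (0 : ℤ) ≤ w s := Int.natCast_nonneg _
      have e8 : (0 : ℤ) ≤ w s' := Int.natCast_nonneg _
      have e9 : (1 : ℤ) ≤ a := by exact_mod_cast ha1
      have e10 : |(a : ℤ) * ((pentagonal (K s) : ℤ) - pentagonal (K s'))| ≤ W + L := by
        rw [abs_le]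
        constructor <;> linarith
      rw [abs_mul, abs_of_nonneg (by linarith : (0 : ℤ) ≤ a)] at e10
      have e11 := abs_nonneg ((pentagonal (K s) : ℤ) - pentagonal (K s'))
      nlinarith
    have h3 : |K s| ≤ 2 * (W + L) := by linarith
    have h4 := pent_le_sq (K s)
    have h5 : |K s| ^ 2 ≤ (2 * ((W : ℤ) + L)) ^ 2 := pow_le_pow_left₀ (abs_nonneg _) h3 2
    have h6 : (pentagonal (K s) : ℤ) ≤ 8 * ((W : ℤ) + L) ^ 2 := by nlinarith
    have h7 : pentagonal (K s) ≤ 8 * (W + L) ^ 2 := by exact_mod_cast h6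
    have h8 := Nat.mul_le_mul_left a h7
    have h9 : a * (8 * (W + L) ^ 2) = 8 * a * (W + L) ^ 2 := by ring
    have h10 := hK2 s
    omega
  have hmap : ∀ s, w s + b * pentagonal j - a * pentagonal (K 0) < L + 1 := by
    intro s
    have h1 := hK2 s
    rw [hKK s 0] at h1
    omega
  have h2 := Fintype.card_le_of_injective
    (fun s : Fin (L + 2) => (⟨w s + b * pentagonal j - a * pentagonal (K 0), hmap s⟩ : Fin (L + 1)))
    (fun s s' h => by
      apply hw
      simp only [Fin.mk.injEq] at h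
      have h1 := hK1 s
      have h1' := hK1 s'
      rw [hKK s 0] at h1
      rw [hKK s' 0] at h1'
      omega)
  rw [Fintype.card_fin, Fintype.card_fin] at h2
  omega

end Pool.Agent.V11172.PT
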