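import Pool.Agent.V11172.PT.Reg

set_option autoImplicit false

/-!
# Patterns of the coefficients of `f_a / f_b` modulo 2: odd values
-/

namespace Pool.Agent.V11172.PT

open PowerSeries Pool.Agent.TH693.PP Pool.Agent.TH693.QQ Pool.Agent.H397R2.PP

theorem reg_count {a b : ℕ} (ha : a ≠ 0) (hb : b ≠ 0) {G : S}
    (hG : G * PowerSeries.expand b hb (pentagonalSeries (ZMod 2)) =
      PowerSeries.expand a ha (pentagonalSeries (ZMod 2))) {L : ℕ} (c : Fin (L + 1) → ZMod 2)
    (w : Fin (L + 2) → ℕ) (hw : Function.Injective w)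
    (h1 : ∀ s, coeff (w s) (io (pol c) * G) = 1) (W : ℕ) (hW : ∀ s, w s ≤ W) (x B j0 : ℕ)
    (hj0 : 8 * a * (W + L) ^ 2 + L < j0)
    (hB : ∀ D : ℕ, D ≠ 0 → D ≤ 2 * (W + x) → D.divisors.card ≤ B) :
    Nat.sqrt (x / (2 * b)) + 1 - j0 ≤ (L + 2) * (2 * B) * (L +
      ((Finset.range (W + x + 1)).filter fun n =>
        ∑ i : Fin (L + 1), c i * coeff (n + i) G = 1).card) := by
  classical
  have hb1 : 1 ≤ b := Nat.one_le_iff_ne_zero.2 hb
  set y := Nat.sqrt (x / (2 * b)) with hy
  set s0 : Finset ℤ := Finset.Icc (j0 : ℤ) (y : ℤ) with hs0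
  have hlow : ∀ j ∈ s0, 8 * a * (W + L) ^ 2 + L < b * pentagonal j := by
    intro j hj
    rw [hs0, Finset.mem_Icc] at hj
    have e1 := two_mul_natCast_pentagonal j
    have e2 : (j0 : ℤ) ≤ pentagonal j := by
      have : (0 : ℤ) ≤ j0 := Int.natCast_nonneg _
      have e3 : (0 : ℤ) ≤ j := by linarith [hj.1]
      have e4 : j * (3 * j - 1) = 2 * j + 3 * (j * (j - 1)) := by ring
      have e5 : 0 ≤ j * (j - 1) := by
        rcases eq_or_lt_of_le e3 with h | h
        · rw [← h]; norm_num
        · exact mul_nonneg e3 (by linarith [Int.add_one_le_iff.2 h])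
      linarith [hj.1]
    have e3 : j0 ≤ pentagonal j := by exact_mod_cast e2
    have e4 : pentagonal j ≤ b * pentagonal j := Nat.le_mul_of_pos_left _ hb1
    omega
  have hpx : ∀ j ∈ s0, b * pentagonal j ≤ x := by
    intro j hj
    rw [hs0, Finset.mem_Icc] at hj
    have e1 := two_mul_natCast_pentagonal j
    have e2 : y ^ 2 ≤ x / (2 * b) := Nat.sqrt_le' _
    have e3 : (2 * b) * y ^ 2 ≤ x := (Nat.mul_le_mul_left _ e2).trans (Nat.mul_div_le _ _)
    have e4 : (pentagonal j : ℤ) ≤ 2 * (y : ℤ) ^ 2 := by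
      have : (0 : ℤ) ≤ j := le_trans (Int.natCast_nonneg _) hj.1
      nlinarith [hj.2]
    have e5 : pentagonal j ≤ 2 * y ^ 2 := by exact_mod_cast e4
    calc b * pentagonal j ≤ b * (2 * y ^ 2) := Nat.mul_le_mul_left _ e5
      _ = (2 * b) * y ^ 2 := by ring
      _ ≤ x := e3
  have hex : ∀ j : ℤ, ∃ (s : Fin (L + 2)) (j' : ℤ), j ∈ s0 → j' ≠ j ∧
      b * pentagonal j' ≤ w s + b * pentagonal j ∧
      coeff (w s + b * pentagonal j - b * pentagonal j') (io (pol c) * G) = 1 := by
    intro j
    by_cases hj : j ∈ s0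
    · obtain ⟨s, hs⟩ := cluster (a := a) (b := b) ha w hw W hW j (hlow j hj)
      obtain ⟨j', e1, e2, e3⟩ := reg_other ha hb hG c (h1 s) j hs
      exact ⟨s, j', fun _ => ⟨e1, e2, e3⟩⟩
    · exact ⟨0, 0, fun h => absurd h hj⟩
  choose σ J' hJ using hex
  set f : ℤ → ℕ := fun j => w (σ j) + b * pentagonal j - b * pentagonal (J' j) with hf
  have hfx : ∀ j ∈ s0, f j ≤ W + x := by
    intro j hj
    have := hpx j hj
    have := hW (σ j)
    have h2 : f j ≤ w (σ j) + b * pentagonal j := Nat.sub_le _ _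
    omega
  have hfib : ∀ v ∈ s0.image f, (s0.filter fun j => f j = v).card ≤ (L + 2) * (2 * B) := by
    intro v hv
    have hvx : v ≤ W + x := by
      obtain ⟨j, hj, rfl⟩ := Finset.mem_image.1 hv
      exact hfx j hj
    have hsub : (s0.filter fun j => f j = v) ⊆
        (Finset.univ : Finset (Fin (L + 2))).biUnion fun s =>
          s0.filter fun j => σ j = s ∧ f j = v := by
      intro j hj
      rw [Finset.mem_filter] at hj
      rw [Finset.mem_biUnion]
      exact ⟨σ j, Finset.mem_univ _, Finset.mem_filter.2 ⟨hj.1, rfl, hj.2⟩⟩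
    refine (Finset.card_le_card hsub).trans ?_
    refine (Finset.card_biUnion_le_card_mul _ _ (2 * B) fun s _ => ?_).trans
      (by rw [Finset.card_univ, Fintype.card_fin])
    rcases (s0.filter fun j => σ j = s ∧ f j = v).eq_empty_or_nonempty with hem | ⟨i0, hi0⟩
    · rw [hem]
      simp
    set δ : ℤ := (v : ℤ) - w s with hδ
    have hδj : ∀ j ∈ s0.filter (fun j => σ j = s ∧ f j = v),
        2 * δ = b * ((j - J' j) * (3 * (j + J' j) - 1)) := by
      intro j hj
      rw [Finset.mem_filter] at hj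
      obtain ⟨hjs, hσ, hfj⟩ := hj
      rw [← pent_diff, hδ, ← hfj, hf]
      simp only
      rw [Nat.cast_sub (hJ j hjs).2.1, hσ]
      push_cast
      ring
    have hbz : (b : ℤ) ≠ 0 := by exact_mod_cast hb
    have hδ0 : 2 * δ ≠ 0 := by
      rw [hδj i0 hi0]
      rw [Finset.mem_filter] at hi0
      refine mul_ne_zero hbz (mul_ne_zero ?_ ?_)
      · exact sub_ne_zero.2 (Ne.symm (hJ i0 hi0.1).1)
      · omega
    set D : ℕ := (2 * δ).natAbs with hD
    have hDle : D ≤ 2 * (W + x) := by
      have h3 := hW s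
      omega
    have hD0 : D ≠ 0 := Int.natAbs_ne_zero.2 hδ0
    set A : Finset ℤ := Finset.image (fun d : ℕ => (d : ℤ)) D.divisors ∪
      Finset.image (fun d : ℕ => -(d : ℤ)) D.divisors
      with hA
    have hAc : A.card ≤ 2 * B := by
      have h2 := hB D hD0 hDle
      refine (Finset.card_union_le _ _).trans ?_
      have h3 := Finset.card_image_le (s := D.divisors) (f := fun d : ℕ => (d : ℤ))
      have h4 := Finset.card_image_le (s := D.divisors) (f := fun d : ℕ => -(d : ℤ))
      omega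
    refine le_trans ?_ hAc
    refine Finset.card_le_card_of_injOn (fun j => j - J' j) ?_ ?_
    · intro j hj
      rw [Finset.mem_coe] at hj
      have h2 : (j - J' j) ∣ 2 * δ := ⟨b * (3 * (j + J' j) - 1), by rw [hδj j hj]; ring⟩
      have h3 : (j - J' j).natAbs ∈ D.divisors := by
        rw [Nat.mem_divisors]
        exact ⟨Int.natAbs_dvd_natAbs.2 h2, hD0⟩
      rw [Finset.mem_coe, hA, Finset.mem_union, Finset.mem_image, Finset.mem_image]
      rcases Int.natAbs_eq (j - J' j) with h4 | h4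
      · exact Or.inl ⟨_, h3, h4.symm⟩
      · exact Or.inr ⟨_, h3, h4.symm⟩
    · intro j hj k hk hjk
      rw [Finset.mem_coe] at hj hk
      simp only at hjk
      have h2 := hδj j hj
      have h3 := hδj k hk
      rw [h2, hjk] at h3
      have h4 : k - J' k ≠ 0 :=
        sub_ne_zero.2 (Ne.symm (hJ k (Finset.mem_filter.1 hk).1).1)
      have h5 := mul_left_cancel₀ h4 (mul_left_cancel₀ hbz h3)
      omega
  have h2 := Finset.card_le_mul_card_image s0 ((L + 2) * (2 * B)) hfib
  rw [hs0, Int.card_Icc] at h2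
  have h3 : (s0.image f).card ≤ L + ((Finset.range (W + x + 1)).filter fun n =>
      ∑ i : Fin (L + 1), c i * coeff (n + i) G = 1).card := by
    have h4 : s0.image f ⊆ Finset.range L ∪ ((Finset.range (W + x + 1)).filter fun n =>
        ∑ i : Fin (L + 1), c i * coeff (n + i) G = 1).image fun n => n + L := by
      intro v hv
      obtain ⟨j, hj, rfl⟩ := Finset.mem_image.1 hv
      rw [Finset.mem_union, Finset.mem_range, Finset.mem_image]
      by_cases h5 : f j < L
      · exact Or.inl h5
      · right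
        have h6 := hfx j hj
        refine ⟨f j - L, ?_, by omega⟩
        rw [Finset.mem_filter, Finset.mem_range]
        refine ⟨by omega, ?_⟩
        rw [← coeff_pol c G (f j - L), Nat.sub_add_cancel (not_lt.1 h5)]
        exact (hJ j hj).2.2
    refine (Finset.card_le_card h4).trans ((Finset.card_union_le _ _).trans ?_)
    rw [Finset.card_range]
    exact Nat.add_le_add_left Finset.card_image_le _
  have h5 : ((y : ℤ) + 1 - (j0 : ℤ)).toNat = y + 1 - j0 := by omega
  rw [h5] at h2
  exact h2.trans (Nat.mul_le_mul_left _ h3)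

end Pool.Agent.V11172.PT
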