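import Pool.Agent.V11172.PT.Reg2
import Pool.Agent.Helper919.DivBound

set_option autoImplicit false

/-!
# Patterns of the coefficients of `f_a / f_b` modulo 2: the theorems
-/

namespace Pool.Agent.V11172.PT

open PowerSeries Pool.Agent.TH693.PP Pool.Agent.TH693.QQ Pool.Agent.H397R2.PP

theorem reg_odd {a b : ℕ} (ha : a ≠ 0) (hb : b ≠ 0) {G : S}
    (hG : G * PowerSeries.expand b hb (pentagonalSeries (ZMod 2)) =
      PowerSeries.expand a ha (pentagonalSeries (ZMod 2))) {L : ℕ} (c : Fin (L + 1) → ZMod 2)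
    (hinf : ∀ A : ℕ, ∃ n > A, ∑ i : Fin (L + 1), c i * coeff (n + i) G = 1) (ε : ℝ) (hε : 0 < ε) :
    ∃ x0 : ℕ, ∀ x : ℕ, x0 ≤ x → (x : ℝ) ^ (1 / 2 - ε) ≤
      (((Finset.range (x + 1)).filter fun n =>
        ∑ i : Fin (L + 1), c i * coeff (n + i) G = 1).card : ℝ) := by
  obtain ⟨φ, hφ, hφ1⟩ := Nat.exists_strictMono_subsequence hinf
  set w : Fin (L + 2) → ℕ := fun s => φ s + L with hwdef
  have hw : Function.Injective w := fun s s' h => by
    have : φ s = φ s' := by simpa [hwdef] using h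
    exact Fin.ext (hφ.injective this)
  have h1 : ∀ s, coeff (w s) (io (pol c) * G) = 1 := fun s => by
    rw [hwdef]
    simp only
    rw [coeff_pol, hφ1]
  set W := φ (L + 2) + L with hWdef
  have hW : ∀ s, w s ≤ W := fun s => by
    have : φ s ≤ φ (L + 2) := hφ.monotone s.2.le
    rw [hwdef, hWdef]
    simp only
    omega
  set j0 := 8 * a * (W + L) ^ 2 + L + 1 with hj0
  obtain ⟨N, hN⟩ := exists_nat_gt (2 / ε)
  have hNpos : (0 : ℝ) < N := lt_trans (by positivity) hN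
  have hNne : N ≠ 0 := by
    rintro rfl
    simp at hNpos
  obtain ⟨C0, hC0, hdiv⟩ := Pool.Agent.Helper919.card_divisors_pow_le N
  have hb1 : 1 ≤ b := Nat.one_le_iff_ne_zero.2 hb
  have hb1r : (1 : ℝ) ≤ b := by exact_mod_cast hb1
  set K : ℝ := 8 * b * (L + 2) * (L + 1) * (2 * C0 : ℝ) ^ ((N : ℝ)⁻¹) with hK
  have hK0 : 0 < K := by positivity
  obtain ⟨x1, hx1⟩ : ∃ x1 : ℕ, ∀ x : ℕ, x1 ≤ x → K ≤ (x : ℝ) ^ (ε / 2) := by
    have h2 := ((tendsto_rpow_atTop (half_pos hε)).comp tendsto_natCast_atTop_atTop).eventually_ge_atTop K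
    rw [Filter.eventually_atTop] at h2
    exact h2
  refine ⟨x1 + 2 * W + (4 * b * j0) ^ 2 + 4 * b + φ 0 + 1, fun X hX => ?_⟩
  set x := X - W with hx
  have hXx : W + x = X := by omega
  set R : ℝ := (2 * C0 * X : ℝ) ^ ((N : ℝ)⁻¹) with hR
  have hR0 : 0 ≤ R := by positivity
  have hB : ∀ D : ℕ, D ≠ 0 → D ≤ 2 * (W + x) → D.divisors.card ≤ ⌊R⌋₊ := by
    intro D hD hD2
    apply Nat.le_floor
    rw [hXx] at hD2
    have h2 : ((D.divisors.card : ℕ) : ℝ) ^ N ≤ 2 * C0 * X := by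
      have h3 := (hdiv D hD).trans (Nat.mul_le_mul_left C0 hD2)
      have h4 : ((D.divisors.card ^ N : ℕ) : ℝ) ≤ ((C0 * (2 * X) : ℕ) : ℝ) := by exact_mod_cast h3
      push_cast at h4
      linarith
    calc ((D.divisors.card : ℕ) : ℝ) = (((D.divisors.card : ℕ) : ℝ) ^ N) ^ ((N : ℝ)⁻¹) :=
          (Real.pow_rpow_inv_natCast (Nat.cast_nonneg _) hNne).symm
      _ ≤ R := Real.rpow_le_rpow (by positivity) h2 (by positivity)
  have h2 := reg_count ha hb hG c w hw h1 W hW x ⌊R⌋₊ j0 (by omega) hB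
  rw [hXx] at h2
  set cnt := ((Finset.range (X + 1)).filter fun n =>
    ∑ i : Fin (L + 1), c i * coeff (n + i) G = 1).card with hcnt
  have hcnt1 : 1 ≤ cnt := by
    rw [hcnt, Nat.one_le_iff_ne_zero]
    apply Finset.card_ne_zero_of_mem (a := φ 0)
    rw [Finset.mem_filter, Finset.mem_range]
    exact ⟨by omega, hφ1 0⟩
  have h3 : (L + cnt : ℕ) ≤ (L + 1) * cnt := by nlinarith
  set y := Nat.sqrt (x / (2 * b)) with hy
  have hXpos : (0 : ℝ) < X := by exact_mod_cast (show 0 < X by omega)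
  set q := Real.sqrt X with hq
  have hqq : q ^ 2 = X := Real.sq_sqrt hXpos.le
  have hq0 : 0 ≤ q := Real.sqrt_nonneg _
  have h4 : (X : ℝ) ≤ 4 * b * ((y : ℝ) + 1) ^ 2 := by
    have h5 : x / (2 * b) < (y + 1) ^ 2 := Nat.lt_succ_sqrt' _
    rw [Nat.div_lt_iff_lt_mul (by positivity)] at h5
    have h6 : X ≤ 4 * b * (y + 1) ^ 2 := by
      have : X ≤ 2 * x := by omega
      calc X ≤ 2 * x := this
        _ ≤ 2 * ((y + 1) ^ 2 * (2 * b)) := by omega
        _ = 4 * b * (y + 1) ^ 2 := by ring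
    exact_mod_cast h6
  have h8 : q ≤ 2 * b * (y + 1) := by
    have h9 : q ^ 2 ≤ (2 * b * ((y : ℝ) + 1)) ^ 2 := by
      rw [hqq]
      refine h4.trans ?_
      have h10 : (0 : ℝ) ≤ ((y : ℝ) + 1) ^ 2 := by positivity
      have h11 : 4 * (b : ℝ) ≤ 4 * (b : ℝ) ^ 2 := by nlinarith
      calc 4 * (b : ℝ) * ((y : ℝ) + 1) ^ 2 ≤ 4 * (b : ℝ) ^ 2 * ((y : ℝ) + 1) ^ 2 :=
            mul_le_mul_of_nonneg_right h11 h10
        _ = _ := by ring
    exact le_of_sq_le_sq h9 (by positivity)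
  have h9 : (4 * b * j0 : ℝ) ≤ q := by
    rw [hq]
    apply Real.le_sqrt_of_sq_le
    have : (4 * b * j0) ^ 2 ≤ X := by omega
    exact_mod_cast this
  have h10 : q ≤ 4 * b * ((y + 1 - j0 : ℕ) : ℝ) := by
    have e1 : y + 1 ≤ j0 + (y + 1 - j0) := by omega
    have e2 : (y : ℝ) + 1 ≤ j0 + ((y + 1 - j0 : ℕ) : ℝ) := by exact_mod_cast e1
    have e3 : 2 * (b : ℝ) * ((y : ℝ) + 1) ≤ 2 * b * (j0 + ((y + 1 - j0 : ℕ) : ℝ)) :=
      mul_le_mul_of_nonneg_left e2 (by positivity)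
    linarith
  have h11 : ((y + 1 - j0 : ℕ) : ℝ) ≤ (L + 2) * (2 * R) * ((L + 1) * cnt) := by
    have h12 : ((y + 1 - j0 : ℕ) : ℝ) ≤ (L + 2) * (2 * (⌊R⌋₊ : ℝ)) * (L + cnt) := by exact_mod_cast h2
    have h13 : (⌊R⌋₊ : ℝ) ≤ R := Nat.floor_le hR0
    have h14 : ((L : ℝ) + cnt) ≤ (L + 1) * cnt := by exact_mod_cast h3
    calc ((y + 1 - j0 : ℕ) : ℝ) ≤ (L + 2) * (2 * (⌊R⌋₊ : ℝ)) * (L + cnt) := h12
      _ ≤ (L + 2) * (2 * R) * ((L + 1) * cnt) := by
        apply mul_le_mul _ h14 (by positivity) (by positivity)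
        apply mul_le_mul_of_nonneg_left _ (by positivity)
        linarith
  have h15 : R = (2 * C0 : ℝ) ^ ((N : ℝ)⁻¹) * (X : ℝ) ^ ((N : ℝ)⁻¹) := by
    rw [hR, Real.mul_rpow (by positivity) (by positivity)]
  have h16 : (X : ℝ) ^ (1 / 2 : ℝ) ≤ K * (X : ℝ) ^ ((N : ℝ)⁻¹) * cnt := by
    rw [← Real.sqrt_eq_rpow, ← hq, hK]
    calc q ≤ 4 * b * ((y + 1 - j0 : ℕ) : ℝ) := h10
      _ ≤ 4 * b * ((L + 2) * (2 * R) * ((L + 1) * cnt)) :=
        mul_le_mul_of_nonneg_left h11 (by positivity)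
      _ = _ := by rw [h15]; ring
  have hNε : (N : ℝ)⁻¹ ≤ ε / 2 := by
    rw [inv_le_comm₀ hNpos (by positivity)]
    rw [inv_div]
    exact hN.le
  have hX1 : (1 : ℝ) ≤ X := by exact_mod_cast (show 1 ≤ X by omega)
  have h17 : (X : ℝ) ^ ((N : ℝ)⁻¹) ≤ (X : ℝ) ^ (ε / 2) := Real.rpow_le_rpow_of_exponent_le hX1 hNε
  have h18 := hx1 X (by omega)
  have h19 : (X : ℝ) ^ (1 / 2 : ℝ) ≤ (X : ℝ) ^ ε * cnt := by
    refine h16.trans ?_
    apply mul_le_mul_of_nonneg_right _ (Nat.cast_nonneg _)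
    calc K * (X : ℝ) ^ ((N : ℝ)⁻¹) ≤ (X : ℝ) ^ (ε / 2) * (X : ℝ) ^ (ε / 2) :=
          mul_le_mul h18 h17 (by positivity) (by positivity)
      _ = (X : ℝ) ^ ε := by rw [← Real.rpow_add hXpos]; ring_nf
  rw [Real.rpow_sub hXpos, div_le_iff₀ (by positivity)]
  linarith

theorem reg_zero {a b : ℕ} (ha : a ≠ 0) (hb : b ≠ 0) {G : S}
    (hG : G * PowerSeries.expand b hb (pentagonalSeries (ZMod 2)) =
      PowerSeries.expand a ha (pentagonalSeries (ZMod 2))) {L : ℕ} (c : Fin (L + 1) → ZMod 2) (n : ℕ)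
    (hn1 : ∀ j : ℤ, ¬ (n < b * pentagonal j ∧ b * pentagonal j ≤ n + L))
    (hn2 : ∀ k : ℤ, ¬ (n ≤ a * pentagonal k ∧ a * pentagonal k ≤ n + L))
    (hodd : Odd (JJ b n).card) :
    ∃ j ∈ JJ b n, ∑ i : Fin (L + 1), c i * coeff (n - b * pentagonal j + i) G = 0 := by
  by_contra hcon
  push Not at hcon
  have h1 : ∑ j ∈ JJ b n, ∑ i : Fin (L + 1), c i * coeff (n - b * pentagonal j + i) G = 0 := by
    rw [Finset.sum_comm]
    refine Finset.sum_eq_zero fun l _ => ?_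
    rw [← Finset.mul_sum]
    have hl : (l : ℕ) ≤ L := Nat.lt_succ_iff.1 l.2
    have hJ : JJ b (n + l) = JJ b n := by
      ext j
      rw [mem_JJ hb, mem_JJ hb]
      have := hn1 j
      constructor
      · intro h2
        by_contra h3
        exact this ⟨by omega, by omega⟩
      · intro h2
        omega
    have h2 := rec_pent G b hb (n + l)
    rw [hG, hJ, ← one_mul (PowerSeries.expand a ha (pentagonalSeries (ZMod 2))),
      rec_pent 1 a ha (n + l)] at h2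
    rw [Finset.sum_eq_zero (s := JJ a (n + l))] at h2
    · have h3 : ∑ j ∈ JJ b n, coeff (n - b * pentagonal j + l) G =
          ∑ j ∈ JJ b n, coeff (n + l - b * pentagonal j) G := by
        refine Finset.sum_congr rfl fun j hj => ?_
        have := (mem_JJ hb).1 hj
        congr 1
        congr 1
        omega
      rw [h3, ← h2, mul_zero]
    · intro k hk
      rw [mem_JJ ha] at hk
      rw [coeff_one, if_neg]
      have := hn2 k
      omega
  have h2 : ∀ j ∈ JJ b n, ∑ i : Fin (L + 1), c i * coeff (n - b * pentagonal j + i) G = 1 :=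
    fun j hj => (by decide : ∀ x : ZMod 2, x ≠ 0 → x = 1) _ (hcon j hj)
  rw [Finset.sum_congr rfl h2, Finset.sum_const, nsmul_eq_mul, mul_one] at h1
  rw [ZMod.natCast_eq_zero_iff] at h1
  exact (Nat.not_even_iff_odd.2 hodd) (even_iff_two_dvd.2 h1)

theorem DZ_near' (M L : ℕ) (hM : M ≠ 0) :
    DZ (fun n => ∃ j : ℤ, n ≤ M * pentagonal j ∧ M * pentagonal j ≤ n + L) := by
  classical
  intro ε hε
  obtain ⟨s0, hs0⟩ := exists_nat_gt (6 * ((L : ℝ) + 1) / ε)
  refine ⟨(s0 + 1) ^ 2 + L, fun x hx F hF => ?_⟩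
  set s := Nat.sqrt (x + L) with hs
  have h1 : F ⊆
      (JJ M (x + L)).biUnion fun j => Finset.Ico (M * pentagonal j - L) (M * pentagonal j + 1) := by
    intro n hn
    obtain ⟨hn1, j, h2, h3⟩ := hF n hn
    rw [Finset.mem_biUnion]
    refine ⟨j, (mem_JJ hM).2 (by omega), ?_⟩
    rw [Finset.mem_Ico]
    omega
  have h2 : ((JJ M (x + L)).biUnion fun j =>
      Finset.Ico (M * pentagonal j - L) (M * pentagonal j + 1)).card ≤
        (JJ M (x + L)).card * (L + 1) := by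
    refine Finset.card_biUnion_le_card_mul _ _ _ fun j _ => ?_
    rw [Nat.card_Ico]
    omega
  have h3 := card_JJ_le hM (x + L)
  have h4 : Nat.sqrt ((x + L) / M) ≤ s := Nat.sqrt_le_sqrt (Nat.div_le_self _ _)
  have h5 : (F.card : ℝ) ≤ (2 * s + 1) * (L + 1) := by
    have : F.card ≤ (2 * s + 1) * (L + 1) :=
      (Finset.card_le_card h1).trans (h2.trans (Nat.mul_le_mul_right (L + 1) (by omega)))
    exact_mod_cast this
  refine h5.trans ?_
  have h6 : s0 + 1 ≤ s := by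
    rw [hs, Nat.le_sqrt']
    omega
  have h7 : s ^ 2 ≤ x + L := Nat.sqrt_le' _
  have h7' : (s : ℝ) ^ 2 ≤ x + L := by exact_mod_cast h7
  have hs1 : (s0 : ℝ) + 1 ≤ s := by exact_mod_cast h6
  have hs2 : (1 : ℝ) ≤ s := by have := Nat.cast_nonneg (α := ℝ) s0; linarith
  have hL : (0 : ℝ) ≤ (L : ℝ) + 1 := by positivity
  have hxL : (L : ℝ) ≤ x := by exact_mod_cast (show L ≤ x by omega)
  rw [div_lt_iff₀ hε] at hs0
  have h8 : 6 * ((L : ℝ) + 1) ≤ s * ε := by nlinarith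
  have h9 : (2 * (s : ℝ) + 1) * (L + 1) ≤ 3 * s * (L + 1) := by nlinarith
  nlinarith [mul_le_mul_of_nonneg_right h8 (by linarith : (0 : ℝ) ≤ s)]

theorem reg_even {a b : ℕ} (ha : a ≠ 0) (hb : b ≠ 0) {G : S}
    (hG : G * PowerSeries.expand b hb (pentagonalSeries (ZMod 2)) =
      PowerSeries.expand a ha (pentagonalSeries (ZMod 2))) {L : ℕ} (c : Fin (L + 1) → ZMod 2) :
    ∃ x0 : ℕ, ∀ x : ℕ, x0 ≤ x → Real.sqrt x / 48 ≤ (((Finset.range (x + 1)).filter fun n =>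
      ∑ i : Fin (L + 1), c i * coeff (n + i) G = 0).card : ℝ) := by
  classical
  have hb1 : 1 ≤ b := Nat.one_le_iff_ne_zero.2 hb
  set Bad : ℕ → Prop := fun n => (∃ j : ℤ, n < b * pentagonal j ∧ b * pentagonal j ≤ n + L) ∨
    ∃ j : ℤ, n ≤ a * pentagonal j ∧ a * pentagonal j ≤ n + L with hBad
  have hDZ : DZ Bad := DZ_or (DZ_near b L hb) (DZ_near' a L ha)
  obtain ⟨x1, hx1⟩ := hDZ (1 / 16) (by positivity)
  refine ⟨max x1 (2 * b), fun x hx => ?_⟩
  have hxM : 2 * b ≤ x := (le_max_right _ _).trans hx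
  set B := Nat.sqrt (x / (2 * b)) with hB
  have hB1 : 1 ≤ B := by
    rw [hB, Nat.le_sqrt', one_pow]
    exact (Nat.one_le_div_iff (by positivity)).2 hxM
  have hBx : 2 * b * B ^ 2 ≤ x :=
    (Nat.mul_le_mul_left _ (Nat.sqrt_le' _)).trans (Nat.mul_div_le _ _)
  have hxB : x < 8 * (b * B ^ 2) := by
    have h1 : x / (2 * b) < (B + 1) ^ 2 := Nat.lt_succ_sqrt' _
    rw [Nat.div_lt_iff_lt_mul (by positivity)] at h1
    have h2 : (B + 1) ^ 2 ≤ 4 * B ^ 2 := by nlinarith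
    calc x < (B + 1) ^ 2 * (2 * b) := h1
      _ ≤ (4 * B ^ 2) * (2 * b) := Nat.mul_le_mul_right _ h2
      _ = 8 * (b * B ^ 2) := by ring
  have hO := cntO (M := b) one_pos (one_dvd _) hb 0 B x hBx
  rw [Nat.div_one] at hO
  set O := (Finset.range (x + 1)).filter fun n => n % 1 = 0 % 1 ∧ Odd (JJ b n).card with hOdef
  have hOr : (x : ℝ) / 8 ≤ O.card := by
    rw [div_le_iff₀ (by positivity)]
    have h1 : x ≤ O.card * 8 := by omega
    exact_mod_cast h1
  set G' := O.filter fun n => ¬ Bad n with hG'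
  have hGr : (x : ℝ) / 16 ≤ G'.card := by
    have h1 := Finset.card_filter_add_card_filter_not (s := O) (fun n => Bad n)
    have h2 := hx1 x ((le_max_left _ _).trans hx) (O.filter fun n => Bad n) fun n hn => by
      rw [Finset.mem_filter, hOdef, Finset.mem_filter, Finset.mem_range] at hn
      exact ⟨by omega, hn.2⟩
    have h3 : (O.card : ℝ) = (O.filter fun n => Bad n).card + G'.card := by
      exact_mod_cast h1.symm
    linarith
  set W := (Finset.range (x + 1)).filter fun n =>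
    ∑ i : Fin (L + 1), c i * coeff (n + i) G = 0 with hW
  have hGW : G'.card ≤ (JJ b x).card * W.card := by
    have h1 : G' ⊆ (JJ b x).biUnion fun j => W.image fun v => v + b * pentagonal j := by
      intro n hn
      rw [hG', Finset.mem_filter, hOdef, Finset.mem_filter, Finset.mem_range] at hn
      obtain ⟨⟨hn1, hn2, hn3⟩, hn4⟩ := hn
      rw [hBad] at hn4
      simp only [not_or] at hn4
      obtain ⟨j, hj, hz⟩ := reg_zero ha hb hG c n (fun j hj => hn4.1 ⟨j, hj⟩)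
        (fun j hj => hn4.2 ⟨j, hj⟩) hn3
      have hj' := (mem_JJ hb).1 hj
      rw [Finset.mem_biUnion]
      refine ⟨j, (mem_JJ hb).2 (by omega), Finset.mem_image.2 ⟨n - b * pentagonal j, ?_, by omega⟩⟩
      rw [hW, Finset.mem_filter, Finset.mem_range]
      exact ⟨by omega, hz⟩
    refine (Finset.card_le_card h1).trans (Finset.card_biUnion_le_card_mul _ _ _ fun j _ => ?_)
    exact Finset.card_image_le
  set y : ℝ := Real.sqrt x with hy
  have hx1r : (1 : ℝ) ≤ x := by exact_mod_cast (show 1 ≤ x by omega)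
  have hy1 : 1 ≤ y := by
    rw [hy, Real.one_le_sqrt]
    exact hx1r
  have hyx : (x : ℝ) = y ^ 2 := by
    rw [hy, Real.sq_sqrt (by positivity)]
  have hJ : ((JJ b x).card : ℝ) ≤ 3 * y := by
    have h1 : ((JJ b x).card : ℝ) ≤ 2 * (Nat.sqrt (x / b) : ℝ) + 1 := by
      exact_mod_cast card_JJ_le hb x
    have h2 : (Nat.sqrt (x / b) : ℝ) ≤ y := by
      have h3 : Nat.sqrt (x / b) ≤ Nat.sqrt x := Nat.sqrt_le_sqrt (Nat.div_le_self _ _)
      have h4 : (Nat.sqrt (x / b) : ℝ) ≤ Nat.sqrt x := by exact_mod_cast h3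
      exact h4.trans Real.nat_sqrt_le_real_sqrt
    linarith
  have hW0 : (0 : ℝ) ≤ W.card := Nat.cast_nonneg _
  have h6 : (x : ℝ) / 16 ≤ 3 * y * W.card := by
    have h7 : (G'.card : ℝ) ≤ (JJ b x).card * W.card := by exact_mod_cast hGW
    have h8 := mul_le_mul_of_nonneg_right hJ hW0
    linarith
  rw [div_le_iff₀ (by norm_num)]
  have h7 : y * y ≤ y * (W.card * 48) := by nlinarith
  exact le_of_mul_le_mul_left h7 (by linarith)

end Pool.Agent.V11172.PT
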