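import Pool.Agent.Y627.PT.R2

set_option autoImplicit false

/-!
# Long runs in linear patterns of functions that are algebraic over `F_2(X, P)`
-/

namespace Pool.Agent.V11172.PT

open PowerSeries Pool.Agent.TH693.PP Pool.Agent.TH693.QQ Pool.Agent.H397R2.PP Pool.Agent.Y627.PT

/-- the polynomial of a pattern -/
noncomputable def pol {L : ℕ} (c : Fin (L + 1) → ZMod 2) : F :=
  ∑ i : Fin (L + 1), Polynomial.C (c i) * Polynomial.X ^ (L - (i : ℕ))

theorem pol_deg {L : ℕ} (c : Fin (L + 1) → ZMod 2) : (pol c).natDegree ≤ L := by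
  refine Polynomial.natDegree_sum_le_of_forall_le _ _ fun i _ => ?_
  exact (Polynomial.natDegree_C_mul_X_pow_le _ _).trans (Nat.sub_le _ _)

theorem pol_ne {L : ℕ} {c : Fin (L + 1) → ZMod 2} (hc : c ≠ 0) : pol c ≠ 0 := by
  intro h
  apply hc
  funext i
  have h1 := congrArg (fun q : F => q.coeff (L - (i : ℕ))) h
  simp only [pol, Polynomial.finset_sum_coeff, Polynomial.coeff_zero] at h1
  rw [Finset.sum_eq_single i] at h1
  · rw [Polynomial.coeff_C_mul, Polynomial.coeff_X_pow, if_pos rfl, mul_one] at h1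
    exact h1
  · intro i' _ hi'
    rw [Polynomial.coeff_C_mul, Polynomial.coeff_X_pow, if_neg, mul_zero]
    intro h5
    apply hi'
    have q1 := i.2
    have q2 := i'.2
    exact Fin.ext (by omega)
  · intro h5
    exact absurd (Finset.mem_univ _) h5

theorem coeff_pol {L : ℕ} (c : Fin (L + 1) → ZMod 2) (f : S) (n : ℕ) :
    coeff (n + L) (io (pol c) * f) = ∑ i : Fin (L + 1), c i * coeff (n + i) f := by
  unfold pol
  simp only [map_sum, Finset.sum_mul]
  refine Finset.sum_congr rfl fun i _ => ?_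
  have h4 : io (Polynomial.C (c i) * Polynomial.X ^ (L - (i : ℕ))) =
      algebraMap (ZMod 2) S (c i) * X ^ (L - (i : ℕ)) := by
    rw [map_mul, map_pow, QE2.io_X, QE2.io_C]
  have h3 : n + L = (n + i) + (L - i) := by have := i.2; omega
  rw [h4, mul_assoc, h3, ← Algebra.smul_def, map_smul, PowerSeries.coeff_X_pow_mul, smul_eq_mul]

/-- `1 + X` -/
noncomputable def U : F := 1 + Polynomial.X

theorem U_ne : U ≠ 0 := by
  intro h0
  have h1 := congrArg (fun g : F => g.coeff 0) h0
  simp [U] at h1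

theorem U_deg : U.natDegree ≤ 1 := by
  refine (Polynomial.natDegree_add_le _ _).trans (max_le (by simp) ?_)
  exact Polynomial.natDegree_X_le

theorem io_U : io U = 1 + (X : S) := by
  rw [U, map_add, map_one, QE2.io_X]

/-- a long run of equal values gives a linear relation -/
theorem run_rel {J : Type} [Fintype J] (f : J → S) (hLF : LFor f) :
    ∃ C : ℕ, 1 ≤ C ∧ ∀ (L : ℕ) (c : J → Fin (L + 1) → ZMod 2) (κ : ZMod 2) (A : ℕ),
      (∀ n, A ≤ n → n ≤ C * (A + L + 1) →
        ∑ t, ∑ i : Fin (L + 1), c t i * coeff (n + i) (f t) = κ) →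
      ∃ b : F, b.natDegree ≤ A + L ∧
        ∑ j, io (U * pol (c j)) * f j + io b = 0 := by
  classical
  obtain ⟨C, hC⟩ := hLF
  refine ⟨2 * C + 1, by omega, fun L c κ A hrun => ?_⟩
  set B := (2 * C + 1) * (A + L + 1) with hB
  set l0 : S := ∑ j, io (pol (c j)) * f j with hl0
  have hco : ∀ n, coeff (n + L) l0 = ∑ t, ∑ i : Fin (L + 1), c t i * coeff (n + i) (f t) := by
    intro n
    rw [hl0, map_sum]
    exact Finset.sum_congr rfl fun j _ => coeff_pol _ _ _
  set g : S := io U * l0 with hg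
  set b : F := PowerSeries.trunc (A + L + 1) g with hb
  have hlam : ∑ j, io (U * pol (c j)) * f j + io b = g + io b := by
    rw [hg, hl0, Finset.mul_sum]
    congr 1
    refine Finset.sum_congr rfl fun j _ => ?_
    rw [map_mul, mul_assoc]
  have hbd : b.natDegree ≤ A + L := by
    rw [hb]
    exact Nat.lt_succ_iff.1 (PowerSeries.natDegree_trunc_lt g (A + L))
  refine ⟨b, hbd, ?_⟩
  by_contra hne
  have had : ∀ j, (U * pol (c j)).natDegree ≤ A + L + 1 := by
    intro j
    refine Polynomial.natDegree_mul_le.trans ?_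
    have h1 := pol_deg (c j)
    have h2 := U_deg
    omega
  have hdvd : (X : S) ^ (B + L + 1) ∣ ∑ j, io (U * pol (c j)) * f j + io b := by
    rw [hlam, PowerSeries.X_pow_dvd_iff]
    intro m hm
    rw [map_add, show coeff m (io b) = coeff m (b : S) from rfl, Polynomial.coeff_coe, hb,
      PowerSeries.coeff_trunc]
    split_ifs with h2
    · exact (by decide : ∀ a : ZMod 2, a + a = 0) _
    · rw [add_zero]
      obtain ⟨n, rfl⟩ : ∃ n, m = n + L + 1 := ⟨m - L - 1, by omega⟩
      have e : g = l0 + X ^ 1 * l0 := by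
        rw [hg, io_U]
        ring
      have e3 : n + L + 1 = (n + 1) + L := by ring
      rw [e, map_add, PowerSeries.coeff_X_pow_mul, e3, hco, hco, hrun n (by omega) (by omega),
        hrun (n + 1) (by omega) (by omega)]
      exact (by decide : ∀ a : ZMod 2, a + a = 0) _
  have h3 := hC (A + L + 1) (fun j => U * pol (c j)) b had (by omega) hne _ hdvd
  have h4 : C * (A + L + 1 + 1) ≤ 2 * C * (A + L + 1) := by nlinarith [Nat.zero_le (C * (A + L))]
  have h5 : B = 2 * C * (A + L + 1) + (A + L + 1) := by rw [hB]; ring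
  omega

/-- a long run of equal values never ends -/
theorem runs {J : Type} [Fintype J] (f : J → S) (hLF : LFor f) :
    ∃ C : ℕ, ∀ (L : ℕ) (c : J → Fin (L + 1) → ZMod 2) (κ : ZMod 2) (A : ℕ),
      (∀ n, A ≤ n → n ≤ C * (A + L + 1) →
        ∑ t, ∑ i : Fin (L + 1), c t i * coeff (n + i) (f t) = κ) →
      ∀ n, A ≤ n → ∑ t, ∑ i : Fin (L + 1), c t i * coeff (n + i) (f t) = κ := by
  classical
  obtain ⟨C, hC1, hC⟩ := run_rel f hLF
  refine ⟨C, fun L c κ A hrun => ?_⟩
  obtain ⟨b, hb, hrel⟩ := hC L c κ A hrun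
  set l0 : S := ∑ j, io (pol (c j)) * f j with hl0
  have hco : ∀ n, coeff (n + L) l0 = ∑ t, ∑ i : Fin (L + 1), c t i * coeff (n + i) (f t) := by
    intro n
    rw [hl0, map_sum]
    exact Finset.sum_congr rfl fun j _ => coeff_pol _ _ _
  have e : l0 + X ^ 1 * l0 + io b = 0 := by
    rw [← hrel]
    congr 1
    rw [hl0, Finset.mul_sum, ← Finset.sum_add_distrib]
    refine Finset.sum_congr rfl fun j _ => ?_
    rw [map_mul, io_U]
    ring
  have step : ∀ n, A ≤ n → coeff (n + 1 + L) l0 = coeff (n + L) l0 := by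
    intro n hn
    have h1 := congrArg (coeff (n + L + 1)) e
    rw [map_add, map_add, PowerSeries.coeff_X_pow_mul, map_zero,
      show coeff (n + L + 1) (io b) = coeff (n + L + 1) (b : S) from rfl, Polynomial.coeff_coe,
      Polynomial.coeff_eq_zero_of_natDegree_lt (by omega), add_zero] at h1
    have e3 : n + 1 + L = n + L + 1 := by ring
    rw [e3]
    exact (by decide : ∀ x y : ZMod 2, x + y = 0 → x = y) _ _ h1
  intro n hn
  rw [← hco]
  induction n, hn using Nat.le_induction with
  | base =>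
    rw [hco]
    refine hrun A le_rfl ?_
    nlinarith [Nat.zero_le L, Nat.zero_le A]
  | succ n hn ih => rw [step n hn, ih]

end Pool.Agent.V11172.PT
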