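import Pool.Agent.V11172.PT.Forms

set_option autoImplicit false

/-!
# Theta series modulo 2 and representation numbers of diagonal quadratic forms
-/

namespace Pool.Agent.V11172.PT

open PowerSeries Pool.Agent.TH693.PP Pool.Agent.TH693.QQ Pool.Agent.H397R2.PP Pool.Agent.Y627.PT
open Pool.Agent.H397R2.PP.TH (ind coeff_ind expand_ind isOdd Db_ind)

/-- `∑_{x ≥ l} X ^ (a x ^ 2)` -/
noncomputable def th (a l : ℕ) : S := ind fun N => ∃ x, l ≤ x ∧ N = a * x ^ 2

theorem th_eq : th 1 1 + th 1 1 ^ 4 = Db := by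
  classical
  rw [pow_eq_expand' 4 2 (by norm_num) (by norm_num), Db_ind, th, expand_ind]
  ext n
  rw [map_add, coeff_ind, coeff_ind, coeff_ind]
  by_cases h1 : ∃ x, 1 ≤ x ∧ n = 1 * x ^ 2
  · rw [if_pos h1]
    obtain ⟨x, hx, rfl⟩ := h1
    rcases Nat.even_or_odd' x with ⟨y, rfl | rfl⟩
    · rw [if_pos ⟨1 * y ^ 2, by ring, y, by omega, rfl⟩, if_neg]
      · decide
      · rintro ⟨i, hi⟩
        have h2 : 2 * y = 2 * i + 1 := by
          apply Nat.pow_left_injective (n := 2) (by norm_num)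
          simpa using hi
        omega
    · rw [if_neg, if_pos ⟨y, by ring⟩, add_zero]
      rintro ⟨k, hk, z, hz, rfl⟩
      have h2 : 2 * y + 1 = 2 * z := by
        apply Nat.pow_left_injective (n := 2) (by norm_num)
        simp only
        linarith
      omega
  · rw [if_neg h1, if_neg, if_neg, add_zero]
    · rintro ⟨i, hi⟩
      exact h1 ⟨2 * i + 1, by omega, by rw [hi, one_mul]⟩
    · rintro ⟨k, hk, z, hz, rfl⟩
      exact h1 ⟨2 * z, by omega, by rw [hk]; ring⟩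

theorem th_cl : T5.jj (th 1 1) ∈ QE2.cl (ZMod 2) {T5.jj Db} := by
  rw [QE2.mem_cl]
  set d : Algebra.adjoin (ZMod 2) {T5.jj Db} :=
    ⟨T5.jj Db, Algebra.subset_adjoin (Set.mem_singleton _)⟩ with hd
  refine ⟨Polynomial.X ^ 4 + (Polynomial.X + Polynomial.C d), ?_, ?_⟩
  · intro h
    have h1 := congrArg (fun p => Polynomial.coeff p 4) h
    simp [Polynomial.coeff_X, Polynomial.coeff_C] at h1
  · rw [map_add, map_add, map_pow, Polynomial.aeval_X, Polynomial.aeval_C,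
      show algebraMap (Algebra.adjoin (ZMod 2) {T5.jj Db}) Lk d = T5.jj Db from rfl, ← th_eq,
      ← map_pow, ← map_add, ← map_add]
    have h : th 1 1 ^ 4 + (th 1 1 + (th 1 1 + th 1 1 ^ 4)) = 0 := by
      ext n
      simp only [map_add, map_zero]
      exact (by decide : ∀ x y : ZMod 2, y + (x + (x + y)) = 0) _ _
    rw [h, map_zero]

theorem th_one {a : ℕ} (ha : a ≠ 0) : th a 1 = ex a ha (th 1 1) := by
  rw [ex, th, th, expand_ind]
  congr 1
  funext n
  apply propext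
  constructor
  · rintro ⟨x, hx, rfl⟩
    exact ⟨1 * x ^ 2, by ring, x, hx, rfl⟩
  · rintro ⟨k, rfl, x, hx, rfl⟩
    exact ⟨x, hx, by ring⟩

theorem th_step {a : ℕ} (ha : a ≠ 0) (l : ℕ) : th a l = th a (l + 1) + X ^ (a * l ^ 2) := by
  classical
  ext n
  rw [th, th, map_add, coeff_ind, coeff_ind, coeff_X_pow]
  have hinj : ∀ x y : ℕ, a * x ^ 2 = a * y ^ 2 → x = y := by
    intro x y h
    apply Nat.pow_left_injective (n := 2) (by norm_num)
    exact Nat.eq_of_mul_eq_mul_left (Nat.pos_of_ne_zero ha) h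
  by_cases h1 : n = a * l ^ 2
  · rw [if_pos ⟨l, le_rfl, h1⟩, if_pos h1, if_neg, zero_add]
    rintro ⟨x, hx, h2⟩
    have := hinj x l (h2.symm.trans h1)
    omega
  · rw [if_neg h1, add_zero]
    congr 1
    apply propext
    constructor
    · rintro ⟨x, hx, h2⟩
      refine ⟨x, ?_, h2⟩
      rcases Nat.lt_or_ge l x with h3 | h3
      · exact h3
      · exfalso
        apply h1
        rw [h2, le_antisymm h3 hx]
    · rintro ⟨x, hx, h2⟩
      exact ⟨x, by omega, h2⟩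

theorem nb_th {a : ℕ} (ha : a ≠ 0) (l : ℕ) : T5.jj (th a l) ∈ Nb := by
  have h1 : T5.jj (th a 1) ∈ Nb := by
    rw [th_one ha]
    have h := az_ex ha (az_cl th_cl)
    rw [mul_zero] at h
    exact nb_az h
  have hX : ∀ e : ℕ, T5.jj (X ^ e : S) ∈ Nb := fun e => by
    rw [map_pow]
    exact Subalgebra.pow_mem _ nb_X e
  have h0 : T5.jj (th a 0) ∈ Nb := by
    rw [th_step ha 0, map_add]
    exact Subalgebra.add_mem _ h1 (hX _)
  induction l with
  | zero => exact h0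
  | succ l ih =>
    have h2 : th a (l + 1) = th a l + X ^ (a * l ^ 2) := by
      rw [th_step ha l, add_assoc]
      ext n
      simp only [map_add]
      exact (by decide : ∀ x y : ZMod 2, x = x + (y + y)) _ _
    rw [h2, map_add]
    exact Subalgebra.add_mem _ ih (hX _)

/-- the number of representations of `n` by `∑ a_i x_i ^ 2` with `x_i ≥ l_i` -/
noncomputable def reps {m : ℕ} (a l : Fin m → ℕ) (n : ℕ) : ℕ :=
  Set.ncard {x : Fin m → ℕ | (∀ i, l i ≤ x i) ∧ ∑ i, a i * x i ^ 2 = n}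

theorem coeff_reps {m : ℕ} (a l : Fin m → ℕ) (ha : ∀ i, a i ≠ 0) (n : ℕ) :
    coeff n (∏ i, th (a i) (l i)) = (reps a l n : ZMod 2) := by
  classical
  rw [PowerSeries.coeff_prod]
  have h1 : ∀ N ∈ Finset.finsuppAntidiag (Finset.univ : Finset (Fin m)) n,
      ∏ i, coeff (N i) (th (a i) (l i)) =
      if ∀ i, ∃ x, l i ≤ x ∧ N i = a i * x ^ 2 then (1 : ZMod 2) else 0 := by
    intro N _
    simp only [th, coeff_ind]
    rw [Finset.prod_boole]
    simp
  rw [Finset.sum_congr rfl h1, Finset.sum_boole]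
  congr 1
  symm
  rw [reps, ← Set.ncard_coe_finset]
  refine Set.ncard_congr (fun x _ => Finsupp.equivFunOnFinite.symm fun i => a i * x i ^ 2) ?_ ?_ ?_
  · intro x hx
    rw [Finset.coe_filter, Set.mem_setOf_eq, Finset.mem_finsuppAntidiag]
    refine ⟨⟨?_, Finset.subset_univ _⟩, fun i => ⟨x i, hx.1 i, rfl⟩⟩
    simpa using hx.2
  · intro x y _ _ h
    funext i
    have h2 : a i * x i ^ 2 = a i * y i ^ 2 := by
      have := DFunLike.congr_fun h i
      simpa using this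
    apply Nat.pow_left_injective (n := 2) (by norm_num)
    exact Nat.eq_of_mul_eq_mul_left (Nat.pos_of_ne_zero (ha i)) h2
  · intro N hN
    rw [Finset.coe_filter, Set.mem_setOf_eq, Finset.mem_finsuppAntidiag] at hN
    obtain ⟨⟨h2, -⟩, h3⟩ := hN
    choose x hx1 hx2 using h3
    refine ⟨x, ⟨hx1, ?_⟩, ?_⟩
    · rw [← h2]
      exact Finset.sum_congr rfl fun i _ => (hx2 i).symm
    · ext i
      simp [hx2 i]

/-- the generating function of the representation numbers modulo 2 -/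
noncomputable def gen {m : ℕ} (a l : Fin m → ℕ) : S :=
  PowerSeries.mk fun n => (reps a l n : ZMod 2)

theorem nb_gen {m : ℕ} (a l : Fin m → ℕ) (ha : ∀ i, a i ≠ 0) : T5.jj (gen a l) ∈ Nb := by
  have h : gen a l = ∏ i, th (a i) (l i) := by
    ext n
    rw [coeff_reps a l ha, gen, coeff_mk]
  rw [h, map_prod]
  exact Subalgebra.prod_mem _ fun i _ => nb_th (ha i) (l i)

theorem forms (T : Finset ℕ) (hT : ∀ t ∈ T, ¬ 24 ∣ t) (k : ℕ) (m : Fin k → ℕ)
    (a l : ∀ j, Fin (m j) → ℕ) (ha : ∀ j i, a j i ≠ 0) :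
    ∃ C : ℕ, ∀ (L : ℕ) (c : ℕ → Fin (L + 1) → ZMod 2) (b : Fin k → Fin (L + 1) → ZMod 2),
      (∃ t ∈ T, c t ≠ 0) → ∀ (κ : ZMod 2) (A : ℕ), ∃ n, A ≤ n ∧ n ≤ C * (A + L + 1) ∧
        ∑ t ∈ T, ∑ i : Fin (L + 1), c t i * coeff (n + i) (P ^ t) +
          ∑ j, ∑ i : Fin (L + 1), b j i * (reps (a j) (l j) (n + i) : ZMod 2) = κ := by
  obtain ⟨C, hC⟩ := mpf T hT k (fun j => gen (a j) (l j)) fun j => nb_gen _ _ (ha j)
  refine ⟨C, fun L c b hc κ A => ?_⟩
  obtain ⟨n, h1, h2, h3⟩ := hC L c b hc κ A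
  refine ⟨n, h1, h2, ?_⟩
  simp only [gen, coeff_mk] at h3
  exact h3

end Pool.Agent.V11172.PT
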